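import Pool.Agent.L7h90.WR.Crv

/-! Regular Wronskian differentials are constant on curves of bounded derivative. -/

set_option autoImplicit false

open Filter Topology Set Metric MvPolynomial FF

namespace Pool.Agent.L7h90.WR

open Pool.Agent.N155 Pool.Agent.Y190.OP Pool.Agent.W602.GT Pool.Agent.TH143.GT

theorem cl_pow' {f : ℂ → ℂ} (hf : Meromorphic f) (N : ℕ) :
    cl f hf ^ N = cl (fun z => f z ^ N) (fun z => (hf z).pow N) := by
  induction N with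
  | zero =>
    rw [pow_zero, ← cl_one, cl_eq]
    exact Eventually.of_forall fun z => by simp
  | succ N ih =>
    rw [pow_succ, ih, cl_mul, cl_eq]
    exact Eventually.of_forall fun z => by rw [Pi.mul_apply, pow_succ]

theorem pow_sum_bd {N : ℕ} {H : ℝ} (hH : 0 ≤ H) {κ μ : Fin 5 → ℂ} {C b : ℝ}
    (h1 : ∀ i, H * ‖κ i‖ ^ N ≤ C) (h2 : ∀ i, ‖μ i‖ ≤ b) :
    H * ‖∑ i, κ i * μ i‖ ^ N ≤ 5 ^ N * C * b ^ N := by
  have hb : 0 ≤ b := (norm_nonneg _).trans (h2 0)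
  obtain ⟨i, hi⟩ := Finite.exists_max fun i => ‖κ i‖
  have h3 : ‖∑ i, κ i * μ i‖ ≤ 5 * (‖κ i‖ * b) := by
    refine (norm_sum_le _ _).trans ?_
    refine (Finset.sum_le_card_nsmul Finset.univ _ (‖κ i‖ * b) fun l _ => ?_).trans (by simp)
    rw [norm_mul]
    exact mul_le_mul (hi l) (h2 l) (norm_nonneg _) (norm_nonneg _)
  calc H * ‖∑ i, κ i * μ i‖ ^ N ≤ H * (5 * (‖κ i‖ * b)) ^ N :=
        mul_le_mul_of_nonneg_left (pow_le_pow_left₀ (norm_nonneg _) h3 N) hH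
    _ = 5 ^ N * (H * ‖κ i‖ ^ N) * b ^ N := by rw [mul_pow, mul_pow]; ring
    _ ≤ 5 ^ N * C * b ^ N := by
        apply mul_le_mul_of_nonneg_right _ (by positivity)
        exact mul_le_mul_of_nonneg_left (h1 i) (by positivity)

variable {n : ℕ} {K : Type} [Field K] [Algebra ℂ K] {y : Fin (n + 1) → K}
  (R : ∀ h : K, Frac y h) {φ : ℂ → Mat (n + 1)}

omit [Field K] [Algebra ℂ K] in
theorem deriv_qv (hol : HolP univ φ) {i j : Fin (n + 1)}
    {O : Set (Mat (n + 1))} (hO : IsOpen O) {C : ℝ} (hC : 0 ≤ C)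
    (hL : ∀ M ∈ O, ∀ M' ∈ O, ‖qv (X j) (X i) M - qv (X j) (X i) M'‖ ≤ C * ‖M - M'‖)
    (hnz : ∀ M ∈ O, nz (X i) M) {z : ℂ} (hz : φ z ∈ O) :
    ‖deriv (fun w => qv (X j) (X i) (φ w)) z‖ ≤ C * ‖fderiv ℝ φ z‖ := by
  have hcont : Continuous φ := continuous_iff_continuousAt.2 fun _ =>
    hol.continuousAt (mem_univ _)
  have hd := (an_qv hol (mem_univ z) (isHomogeneous_X ℂ j) (isHomogeneous_X ℂ i)
    (hnz _ hz)).differentiableAt.hasDerivAt
  have hφd := (hol.differentiableAt (mem_univ z)).hasFDerivAt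
  have key : ∀ ε > 0, ‖deriv (fun w => qv (X j) (X i) (φ w)) z‖ ≤ C * (‖fderiv ℝ φ z‖ + ε) := by
    intro ε hε
    refine hd.le_of_lip' (mul_nonneg hC (by positivity)) ?_
    filter_upwards [hcont.continuousAt.eventually (hO.mem_nhds hz),
      hφd.isLittleO.def hε] with w hw hw2
    refine (hL _ hw _ hz).trans ?_
    rw [mul_assoc]
    apply mul_le_mul_of_nonneg_left _ hC
    have h1 : ‖φ w - φ z‖ ≤ ‖φ w - φ z - (fderiv ℝ φ z) (w - z)‖ + ‖(fderiv ℝ φ z) (w - z)‖ := by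
      have := norm_add_le (φ w - φ z - (fderiv ℝ φ z) (w - z)) ((fderiv ℝ φ z) (w - z))
      rwa [sub_add_cancel] at this
    have h2 := (fderiv ℝ φ z).le_opNorm (w - z)
    linarith
  have h1 : Tendsto (fun ε : ℝ => C * (‖fderiv ℝ φ z‖ + ε)) (𝓝[>] 0)
      (𝓝 (C * (‖fderiv ℝ φ z‖ + 0))) := by
    apply Tendsto.mono_left _ nhdsWithin_le_nhds
    exact (tendsto_id.const_add _).const_mul _
  rw [add_zero] at h1
  refine ge_of_tendsto h1 ?_
  filter_upwards [self_mem_nhdsWithin] with ε hε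
  exact key ε hε

/-- bounds for the first two derivatives of a coordinate -/
theorem deriv2_qv (hol : HolP univ φ) (hB : ∀ z, ‖fderiv ℝ φ z‖ ≤ 2) {i j : Fin (n + 1)}
    {M0 : Mat (n + 1)} {δ : ℝ} (hδ : 0 < δ) {C : ℝ} (hC : 0 ≤ C)
    (hL : ∀ M ∈ ball M0 (2 * δ), ∀ M' ∈ ball M0 (2 * δ),
      ‖qv (X j) (X i) M - qv (X j) (X i) M'‖ ≤ C * ‖M - M'‖)
    (hnz : ∀ M ∈ ball M0 (2 * δ), nz (X i) M) {z : ℂ} (hz : φ z ∈ ball M0 δ) :
    ‖deriv (deriv fun w => qv (X j) (X i) (φ w)) z‖ ≤ C * 2 / (δ / 4) := by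
  have hlip : ∀ w, ‖φ w - φ z‖ ≤ 2 * ‖w - z‖ := fun w =>
    (convex_univ).norm_image_sub_le_of_norm_fderiv_le
      (fun x _ => hol.differentiableAt (mem_univ x)) (fun x _ => hB x) (mem_univ z) (mem_univ w)
  have hmem : ∀ w ∈ ball z (δ / 2), φ w ∈ ball M0 (2 * δ) := by
    intro w hw
    rw [mem_ball, dist_eq_norm] at hw hz ⊢
    have h1 := hlip w
    have h2 := norm_add_le (φ w - φ z) (φ z - M0)
    rw [sub_add_sub_cancel] at h2
    linarith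
  have hdiff : DifferentiableOn ℂ (fun w => qv (X j) (X i) (φ w)) (ball z (δ / 2)) :=
    fun w hw => (an_qv hol (mem_univ w) (isHomogeneous_X ℂ j) (isHomogeneous_X ℂ i)
      (hnz _ (hmem w hw))).differentiableAt.differentiableWithinAt
  have hsub : closedBall z (δ / 4) ⊆ ball z (δ / 2) := closedBall_subset_ball (by linarith)
  apply Complex.norm_deriv_le_of_forall_mem_sphere_norm_le (by positivity)
  · exact (((hdiff.deriv isOpen_ball).mono hsub)).diffContOnCl_ball (subset_refl _)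
  · intro w hw
    refine (deriv_qv hol isOpen_ball hC hL hnz (hmem w (hsub (sphere_subset_closedBall hw)))).trans ?_
    exact mul_le_mul_of_nonneg_left (hB w) hC

theorem emb_mul_pow (h : Cv y φ) (g κ : K) (N : ℕ) : ∀ᶠ z in codiscrete ℂ,
    ev R (g * κ ^ N) (φ z) = ev R g (φ z) * ev R κ (φ z) ^ N := by
  have h1 : h.emb R (g * κ ^ N) = h.emb R g * h.emb R κ ^ N := by rw [map_mul, map_pow]
  rw [Cv.emb_apply, Cv.emb_apply, Cv.emb_apply, cl_pow', cl_mul] at h1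
  exact cl_eq.1 h1

/-- **The local bound.** -/
theorem wvl_bd {M0 : Mat (n + 1)} (hLB : LBa R M0) {σ : WDif K} (hh : σ.h ≠ 0) (hN : 0 < σ.N)
    (hreg : σ.Regular 2) : ∃ O : Set (Mat (n + 1)), IsOpen O ∧ M0 ∈ O ∧ ∃ C : ℝ, 0 ≤ C ∧
      ∀ φ : ℂ → Mat (n + 1), Cv y φ → (∀ z, ‖fderiv ℝ φ z‖ ≤ 2) → ∀ᶠ z in codiscrete ℂ,
        φ z ∈ O → ‖wvl R σ φ z‖ ≤ C * ‖fderiv ℝ φ z‖ := by
  obtain ⟨i, j, k, E, hyi, hnzi, hdual, hbd⟩ := hLB
  set co : Fin 5 → K := ![cJ E σ.u σ.v, c0 E σ.u σ.v, c1 E σ.u σ.v, c2 E σ.u σ.v,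
    c3 E σ.u σ.v] with hco
  have hq : ∀ m : Fin 5, ∃ O ∈ 𝓝 M0, ∃ C : ℝ, ∀ M ∈ O ∩ TX y,
      N155.good R (σ.h * co m ^ σ.N) M → ‖ev R (σ.h * co m ^ σ.N) M‖ ≤ C := by
    intro m
    refine hbd _ fun v hv hc hE => ?_
    obtain ⟨k0, k1, k2, k3, k4⟩ := reg_coeff hh hN (hreg v hv) hdual hE (hc j)
    fin_cases m
    · exact k0
    · exact k1
    · exact k2
    · exact k3
    · exact k4
  choose O hO C hC using hq
  obtain ⟨L0, O2, hL0, hO2, hLip0⟩ := lip_qv (G1 := X j) hnzi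
  obtain ⟨L1, O3, hL1, hO3, hLip1⟩ := lip_qv (G1 := X k) hnzi
  have hnb : {M : Mat (n + 1) | nz (X i) M} ∈ 𝓝 M0 := (isOpen_nz (X i)).mem_nhds hnzi
  have hOs : (⋂ m, O m) ∈ 𝓝 M0 := (Filter.iInter_mem).2 hO
  obtain ⟨δ2, hδ2, hsub⟩ := Metric.mem_nhds_iff.1
    (inter_mem hOs (inter_mem (inter_mem hO2 hO3) hnb))
  set δ : ℝ := δ2 / 2 with hδdef
  have hδ : 0 < δ := by positivity
  have h2δ : 2 * δ = δ2 := by rw [hδdef]; ring
  rw [← h2δ] at hsub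
  set L : ℝ := L0 + L1 with hL
  have hL0' : 0 ≤ L := add_nonneg hL0 hL1
  set A2 : ℝ := L * 2 / (δ / 4) with hA2
  have hA20 : 0 ≤ A2 := by positivity
  set B : ℝ := 2 * L * A2 + 4 * L ^ 3 with hB
  have hB0 : 0 ≤ B := by positivity
  set CC : ℝ := ∑ m, |C m| with hCC
  have hCC0 : 0 ≤ CC := Finset.sum_nonneg fun _ _ => abs_nonneg _
  refine ⟨ball M0 δ, isOpen_ball, mem_ball_self hδ, 5 ^ σ.N * CC * (B ^ σ.N * 2 ^ σ.N),
    by positivity, fun φ h hB2 => ?_⟩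
  have hLj : ∀ M ∈ ball M0 (2 * δ), ∀ M' ∈ ball M0 (2 * δ),
      ‖qv (X j) (X i) M - qv (X j) (X i) M'‖ ≤ L * ‖M - M'‖ := fun M hM M' hM' =>
    (hLip0 M (hsub hM).2.1.1 M' (hsub hM').2.1.1).trans
      (mul_le_mul_of_nonneg_right (by rw [hL]; linarith) (norm_nonneg _))
  have hLk : ∀ M ∈ ball M0 (2 * δ), ∀ M' ∈ ball M0 (2 * δ),
      ‖qv (X k) (X i) M - qv (X k) (X i) M'‖ ≤ L * ‖M - M'‖ := fun M hM M' hM' =>
    (hLip1 M (hsub hM).2.1.2 M' (hsub hM').2.1.2).trans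
      (mul_le_mul_of_nonneg_right (by rw [hL]; linarith) (norm_nonneg _))
  have hnz' : ∀ M ∈ ball M0 (2 * δ), nz (X i) M := fun M hM => (hsub hM).2.2
  have hXX := cw_eq_XX R h hyi hdual σ.u σ.v
  have hall : ∀ᶠ z in codiscrete ℂ, ∀ m, N155.good R (σ.h * co m ^ σ.N) (φ z) ∧
      ev R (σ.h * co m ^ σ.N) (φ z) = ev R σ.h (φ z) * ev R (co m) (φ z) ^ σ.N :=
    eventually_all.2 fun m => (h.good R _).and (emb_mul_pow R h _ _ _)
  filter_upwards [hXX, hall] with z hz1 hz2 hzO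
  set f : ℝ := ‖fderiv ℝ φ z‖ with hf
  have hf0 : 0 ≤ f := norm_nonneg _
  have hf2 : f ≤ 2 := hB2 z
  have hz' : φ z ∈ ball M0 (2 * δ) := ball_subset_ball (by linarith) hzO
  set a1 := deriv (fun w => qv (X j) (X i) (φ w)) z with ha1
  set b1 := deriv (fun w => qv (X k) (X i) (φ w)) z with hb1
  set a2 := deriv (deriv fun w => qv (X j) (X i) (φ w)) z with ha2
  set b2 := deriv (deriv fun w => qv (X k) (X i) (φ w)) z with hb2
  have k1 : ‖a1‖ ≤ L * f := deriv_qv h.hol isOpen_ball hL0' hLj hnz' hz'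
  have k2 : ‖b1‖ ≤ L * f := deriv_qv h.hol isOpen_ball hL0' hLk hnz' hz'
  have k3 : ‖a2‖ ≤ A2 := deriv2_qv h.hol hB2 hδ hL0' hLj hnz' hzO
  have k4 : ‖b2‖ ≤ A2 := deriv2_qv h.hol hB2 hδ hL0' hLk hnz' hzO
  have hLf : 0 ≤ L * f := mul_nonneg hL0' hf0
  have hcube : (L * f) ^ 3 ≤ B * f := by
    have h1 : f ^ 2 ≤ 4 := by nlinarith
    have h2 : (L * f) ^ 3 = L ^ 3 * f ^ 2 * f := by ring
    rw [h2, hB]
    apply mul_le_mul_of_nonneg_right _ hf0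
    have h3 : 0 ≤ L ^ 3 := by positivity
    have h4 : 0 ≤ 2 * L * A2 := by positivity
    nlinarith
  set μ : Fin 5 → ℂ := ![a1 * b2 - a2 * b1, a1 ^ 3, a1 ^ 2 * b1, a1 * b1 ^ 2, b1 ^ 3] with hμ
  have hμb : ∀ m, ‖μ m‖ ≤ B * f := by
    intro m
    fin_cases m
    · change ‖a1 * b2 - a2 * b1‖ ≤ B * f
      refine (norm_sub_le _ _).trans ?_
      rw [norm_mul, norm_mul]
      have h1 := mul_le_mul k1 k4 (norm_nonneg _) hLf
      have h2 := mul_le_mul k3 k2 (norm_nonneg _) hA20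
      have h3 : 0 ≤ L ^ 3 * f := by positivity
      rw [hB]
      nlinarith
    · change ‖a1 ^ 3‖ ≤ B * f
      rw [norm_pow]
      exact (pow_le_pow_left₀ (norm_nonneg _) k1 3).trans hcube
    · change ‖a1 ^ 2 * b1‖ ≤ B * f
      rw [norm_mul, norm_pow]
      refine le_trans ?_ hcube
      have := mul_le_mul (pow_le_pow_left₀ (norm_nonneg _) k1 2) k2 (norm_nonneg _) (by positivity)
      refine this.trans (le_of_eq ?_)
      ring
    · change ‖a1 * b1 ^ 2‖ ≤ B * f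
      rw [norm_mul, norm_pow]
      refine le_trans ?_ hcube
      have := mul_le_mul k1 (pow_le_pow_left₀ (norm_nonneg _) k2 2) (by positivity) hLf
      refine this.trans (le_of_eq ?_)
      ring
    · change ‖b1 ^ 3‖ ≤ B * f
      rw [norm_pow]
      exact (pow_le_pow_left₀ (norm_nonneg _) k2 3).trans hcube
  have hsum : cw (fun w => ev R σ.u (φ w)) (fun w => ev R σ.v (φ w)) z =
      ∑ m, ev R (co m) (φ z) * μ m := by
    rw [hz1, Fin.sum_univ_five]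
    rfl
  unfold wvl
  rw [hsum, norm_mul, norm_pow]
  refine (pow_sum_bd (norm_nonneg _) (C := CC) (b := B * f) (fun m => ?_) hμb).trans ?_
  · rw [← norm_pow, ← norm_mul, ← (hz2 m).2]
    refine (hC m (φ z) ⟨?_, h.mem z⟩ (hz2 m).1).trans ((le_abs_self _).trans ?_)
    · exact mem_iInter.1 (hsub hz').1 m
    · exact Finset.single_le_sum (f := fun m => |C m|) (fun _ _ => abs_nonneg _)
        (Finset.mem_univ m)
  · rw [mul_assoc (5 ^ σ.N * CC)]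
    apply mul_le_mul_of_nonneg_left _ (by positivity)
    rw [mul_pow, mul_assoc]
    apply mul_le_mul_of_nonneg_left _ (by positivity)
    obtain ⟨N', hN'⟩ : ∃ N', σ.N = N' + 1 := ⟨σ.N - 1, by omega⟩
    rw [hN', pow_succ, pow_succ]
    have h1 : f ^ N' ≤ 2 ^ N' := pow_le_pow_left₀ hf0 hf2 N'
    have h2 : (0 : ℝ) ≤ 2 ^ N' := by positivity
    nlinarith [mul_le_mul_of_nonneg_right h1 hf0]

/-- **The global bound.** -/
theorem wvl_bd' {S : Set (Mat (n + 1))} (hS : IsCompact S) (hLB : ∀ M ∈ S, LBa R M) {σ : WDif K}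
    (hh : σ.h ≠ 0) (hN : 0 < σ.N) (hreg : σ.Regular 2) : ∃ C : ℝ, 0 ≤ C ∧
      ∀ φ : ℂ → Mat (n + 1), Cv y φ → (∀ z, ‖fderiv ℝ φ z‖ ≤ 2) → ∀ᶠ z in codiscrete ℂ,
        φ z ∈ S → ‖wvl R σ φ z‖ ≤ C * ‖fderiv ℝ φ z‖ := by
  refine hS.induction_on (p := fun S => ∃ C : ℝ, 0 ≤ C ∧
      ∀ φ : ℂ → Mat (n + 1), Cv y φ → (∀ z, ‖fderiv ℝ φ z‖ ≤ 2) → ∀ᶠ z in codiscrete ℂ,
        φ z ∈ S → ‖wvl R σ φ z‖ ≤ C * ‖fderiv ℝ φ z‖) ?_ ?_ ?_ ?_
  · exact ⟨0, le_rfl, fun φ h _ => Eventually.of_forall fun z hz => absurd hz (by simp)⟩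
  · rintro S S' hSS ⟨C, hC, h⟩
    refine ⟨C, hC, fun φ hφ hb => ?_⟩
    filter_upwards [h φ hφ hb] with z hz hzS
    exact hz (hSS hzS)
  · rintro S S' ⟨C, hC, h⟩ ⟨C', hC', h'⟩
    refine ⟨max C C', hC.trans (le_max_left _ _), fun φ hφ hb => ?_⟩
    filter_upwards [h φ hφ hb, h' φ hφ hb] with z hz hz' hzS
    rcases hzS with hzS | hzS
    · exact (hz hzS).trans (mul_le_mul_of_nonneg_right (le_max_left _ _) (by positivity))
    · exact (hz' hzS).trans (mul_le_mul_of_nonneg_right (le_max_right _ _) (by positivity))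
  · intro M0 hM0
    obtain ⟨O, hO, hM0O, C, hC, h⟩ := wvl_bd R (hLB M0 hM0) hh hN hreg
    exact ⟨O, mem_nhdsWithin_of_mem_nhds (hO.mem_nhds hM0O), C, hC, h⟩

/-- **Wronskian differentials are constant on curves of bounded derivative.** -/
theorem wexists_const (hLB : ∀ M ∈ TX y, LBa R M) {σ : WDif K}
    (hh : σ.h ≠ 0) (hN : 0 < σ.N) (hreg : σ.Regular 2) : ∃ C : ℝ, 0 ≤ C ∧
      ∀ φ : ℂ → Mat (n + 1), Cv y φ → (∀ z, ‖fderiv ℝ φ z‖ ≤ 2) → ∃ c : ℂ, WEq R σ c φ ∧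
        ∀ z, ‖c‖ ≤ C * ‖fderiv ℝ φ z‖ := by
  obtain ⟨C, hC, hbd⟩ := wvl_bd' R isCompact_TX hLB hh hN hreg
  refine ⟨C, hC, fun φ h hB => ?_⟩
  have h1 : ∀ᶠ z in codiscrete ℂ, ‖wvl R σ φ z‖ ≤ C * ‖fderiv ℝ φ z‖ := by
    filter_upwards [hbd φ h hB] with z hz using hz (h.mem z)
  obtain ⟨c, hc⟩ := mk_const (wvl_mero R h σ) (C := C * 2) (by
    filter_upwards [h1] with z hz
    exact hz.trans (mul_le_mul_of_nonneg_left (hB z) hC))
  rw [← cl_const] at hc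
  have hev : ∀ᶠ z in codiscrete ℂ, wvl R σ φ z = c := cl_eq.1 hc
  refine ⟨c, fun z hz => ?_, fun z => ?_⟩
  · exact eq_of_codis hev (wvl_an R h hz).continuousAt continuousAt_const
  · have h2 : Tendsto (fun w => C * ‖fderiv ℝ φ w‖) (𝓝[≠] z) (𝓝 (C * ‖fderiv ℝ φ z‖)) := by
      have h3 : ContinuousAt (fderiv ℝ φ) z := h.hol.continuousAt_fderiv (mem_univ z)
      exact ((h3.norm.tendsto).const_mul C).mono_left nhdsWithin_le_nhds
    refine ge_of_tendsto h2 ?_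
    filter_upwards [codis_ev h1 z, codis_ev hev z] with w hw1 hw2
    rw [hw2] at hw1
    exact hw1

end Pool.Agent.L7h90.WR
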