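import Pool.Agent.L7h90.WR.Net2

/-! Nets given by powers. -/

set_option autoImplicit false

open FF Pool.Agent.W602.GT Pool.Agent.W603.LV

namespace Pool.Agent.L7h90.WR

variable {K : Type} [Field K] [Algebra ℂ K]

/-- There are `q` functions `w i` on the surfaces with function field `K` the `d`-th powers of which
belong to a space `ℂ + ℂ u + ℂ v` with algebraically independent `u`, `v`, any three of the powers
being linearly independent, where `q (1 - 2 / d) ≥ 3`. -/
def PowerNet (K : Type) [Field K] [Algebra ℂ K] : Prop :=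
  ∃ (u v : K) (q d : ℕ) (L : Fin q → Fin 3 → ℂ) (w : Fin q → K),
    AlgebraicIndependent ℂ ![u, v] ∧ 0 < d ∧ (∀ i, lin u v (L i) = w i ^ d) ∧
    (∀ i j k, i ≠ j → i ≠ k → j ≠ k → (Matrix.of ![L i, L j, L k]).det ≠ 0) ∧
    3 ≤ q * (1 - 2 / (d : ℚ))

theorem net_of_powers (h : PowerNet K) : MultipleNet K := by
  classical
  obtain ⟨u, v, q, d, L, w, hi, hd0, hw, hgen, hqd⟩ := h
  have hdQ : (0 : ℚ) < d := by exact_mod_cast hd0
  have hd2 : 2 ≤ d := by
    by_contra hcon
    have h1 : d = 1 := by omega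
    rw [h1] at hqd
    have : (0 : ℚ) ≤ q := by positivity
    norm_num at hqd
    linarith
  have hq : 3 ≤ q := by
    have h2 : 0 < 2 / (d : ℚ) := by positivity
    have h3 : (q : ℚ) * (1 - 2 / (d : ℚ)) ≤ q := by
      have : (0 : ℚ) ≤ q := by positivity
      nlinarith
    exact_mod_cast hqd.trans h3
  have hne : ∀ a, lin u v (L a) ≠ 0 := lin_ne hi hq hgen
  have hw0 : ∀ i, w i ≠ 0 := by
    intro i h0
    apply hne i
    rw [hw, h0, zero_pow hd0.ne']
  refine ⟨u, v, q, L, fun _ => d, hi, fun _ => hd2, hgen, fun p _ i => ?_, ?_⟩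
  · have hord : ∀ i, p.ord (lin u v (L i)) = d * p.ord (w i) := fun i => by
      rw [hw, p.ord_pow]
    obtain ⟨i0, hi0⟩ : ∃ i0, p.ord (lin u v (L i0)) ≤ min 0 (min (p.ord u) (p.ord v)) := by
      by_contra hcon
      push Not at hcon
      have h1 : ∀ l, Ge p (min 0 (min (p.ord u) (p.ord v)) + 1) (lin u v (L l)) := fun l =>
        Or.inr (hcon l)
      exact not_three hi p (hgen ⟨0, by omega⟩ ⟨1, by omega⟩ ⟨2, by omega⟩ (by simp [Fin.ext_iff])
        (by simp [Fin.ext_iff]) (by simp [Fin.ext_iff])) (h1 _) (h1 _) (h1 _)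
    have hge : ∀ l, min 0 (min (p.ord u) (p.ord v)) ≤ p.ord (lin u v (L l)) := by
      intro l
      have g1 := ge_x p (u := u) (v := v)
      have h1 : ∀ (s : ℂ) (y : K), y ∈ ({1, u, v} : Set K) →
          Ge p (min 0 (min (p.ord u) (p.ord v))) (algebraMap ℂ K s * y) := by
        intro s y hy
        have := (Ge.const (P := p) s).mul (g1 y hy)
        rwa [zero_add] at this
      have h2 : Ge p (min 0 (min (p.ord u) (p.ord v))) (lin u v (L l)) := by
        unfold lin
        have h3 := h1 (L l 0) 1 (by simp)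
        rw [mul_one] at h3
        exact (h3.add (h1 (L l 1) u (by simp))).add (h1 (L l 2) v (by simp))
      exact h2.resolve_left (hne l)
    have hμ : min 0 (min (p.ord u) (p.ord v)) = d * p.ord (w i0) := by
      rw [← hord]
      exact le_antisymm (hge i0) hi0
    have h4 := hge i
    rw [hμ, hord] at h4 ⊢
    have hdZ : (0 : ℤ) < d := by exact_mod_cast hd0
    have h5 : p.ord (w i0) ≤ p.ord (w i) := le_of_mul_le_mul_left h4 hdZ
    rcases h5.eq_or_lt with h6 | h6
    · left
      rw [h6]
    · right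
      nlinarith
  · rw [Finset.sum_const, Finset.card_univ, Fintype.card_fin, nsmul_eq_mul]
    exact hqd

end Pool.Agent.L7h90.WR
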