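import Pool.Agent.L7h90.WR.Net

/-! Nets with multiple lines give Wronskian differentials and pluricanonical forms. -/

set_option autoImplicit false

open FF Pool.Agent.W602.GT Pool.Agent.W603.LV

namespace Pool.Agent.L7h90.WR

variable {K : Type} [Field K] [Algebra ℂ K]

theorem ord_prod_zpow (p : Place ℂ K) {ι : Type} (s : Finset ι) {f : ι → K} (hf : ∀ i, f i ≠ 0)
    (e : ι → ℤ) : p.ord (∏ i ∈ s, f i ^ e i) = ∑ i ∈ s, e i * p.ord (f i) := by
  classical
  induction s using Finset.induction_on with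
  | empty => simp [p.ord_one]
  | insert a s ha ih =>
    rw [Finset.prod_insert ha, Finset.sum_insert ha, p.ord_mul (zpow_ne_zero _ (hf a))
      (Finset.prod_ne_zero_iff.2 fun t _ => zpow_ne_zero _ (hf t)), ih, p.ord_zpow]

section loc

variable {u v : K} {q : ℕ} {L : Fin q → Fin 3 → ℂ} {r : Fin q → ℕ}

theorem lin_zero (hi : AlgebraicIndependent ℂ ![u, v]) {a : Fin 3 → ℂ} (h : lin u v a = 0) :
    a = 0 := by
  rw [algebraicIndependent_iff] at hi
  have h1 := hi (MvPolynomial.C (a 0) + MvPolynomial.C (a 1) * MvPolynomial.X 0 +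
    MvPolynomial.C (a 2) * MvPolynomial.X 1) (by
      simp only [map_add, map_mul, MvPolynomial.aeval_C, MvPolynomial.aeval_X,
        Matrix.cons_val_zero, Matrix.cons_val_one]
      exact h)
  have h2 : ∀ x : Fin 2 → ℂ, a 0 + a 1 * x 0 + a 2 * x 1 = 0 := by
    intro x
    have := congrArg (MvPolynomial.eval x) h1
    simpa using this
  have e0 := h2 ![0, 0]
  have e1 := h2 ![1, 0]
  have e2 := h2 ![0, 1]
  simp only [Matrix.cons_val_zero, Matrix.cons_val_one, mul_zero, add_zero, mul_one] at e0 e1 e2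
  rw [e0, zero_add] at e1 e2
  funext i
  fin_cases i
  · exact e0
  · exact e1
  · exact e2

theorem lin_ne (hi : AlgebraicIndependent ℂ ![u, v]) (hq : 3 ≤ q)
    (hgen : ∀ i j k, i ≠ j → i ≠ k → j ≠ k → (Matrix.of ![L i, L j, L k]).det ≠ 0) (l : Fin q) :
    lin u v (L l) ≠ 0 := by
  classical
  intro h0
  have h1 := lin_zero hi h0
  have hc : 1 < (Finset.univ.erase l).card := by
    rw [Finset.card_erase_of_mem (Finset.mem_univ l), Finset.card_univ, Fintype.card_fin]
    omega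
  obtain ⟨j, hj, k, hk, hjk⟩ := Finset.one_lt_card.1 hc
  apply hgen l j k (Finset.ne_of_mem_erase hj).symm (Finset.ne_of_mem_erase hk).symm hjk
  rw [Matrix.det_fin_three, h1]
  simp

/-- the numbers -/
structure Num (q : ℕ) (r : Fin q → ℕ) (N M : ℕ) (e k : Fin q → ℕ) : Prop where
  q3 : 3 ≤ q
  Mpos : 0 < M
  Npos : 0 < N
  sum : ∑ i, (e i : ℤ) = N
  ksum : 3 * (M : ℤ) + 1 ≤ ∑ i, (k i : ℤ)
  le : ∀ i (m : ℤ), m = 0 ∨ (r i : ℤ) ≤ m → 3 * e i * m ≤ N * max 0 (m - 2)
  kle : ∀ i (m : ℤ), m = 0 ∨ (r i : ℤ) ≤ m → k i * m ≤ M * max 0 (m - 1)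

theorem exists_num (hr : ∀ i, 2 ≤ r i) (hsum : 3 ≤ ∑ i, (1 - 2 / (r i : ℚ))) :
    ∃ (N M : ℕ) (e k : Fin q → ℕ), Num q r N M e k := by
  classical
  have hr0 : ∀ i, (0 : ℚ) < r i := fun i => by
    have := hr i
    positivity
  set M : ℕ := ∏ i, r i with hM
  have hMpos : 0 < M := Finset.prod_pos fun i _ => by have := hr i; omega
  have hdvd : ∀ i, r i ∣ M := fun i => Finset.dvd_prod_of_mem _ (Finset.mem_univ i)
  have hsr : ∀ i, (M / r i) * r i = M := fun i => Nat.div_mul_cancel (hdvd i)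
  have hs1 : ∀ i, 1 ≤ M / r i := by
    intro i
    by_contra hcon
    have h0 : M / r i = 0 := Nat.lt_one_iff.1 (not_le.1 hcon)
    have := hsr i
    rw [h0, zero_mul] at this
    omega
  have h2s : ∀ i, 2 * (M / r i) ≤ M := by
    intro i
    calc 2 * (M / r i) ≤ r i * (M / r i) := Nat.mul_le_mul_right _ (hr i)
      _ = M := by rw [mul_comm, hsr]
  have hq3 : 3 < q := by
    have h1 : ∑ i : Fin q, (1 - 2 / (r i : ℚ)) < ∑ i : Fin q, (1 : ℚ) := by
      have hne : (Finset.univ : Finset (Fin q)).Nonempty := by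
        by_contra hcon
        rw [Finset.not_nonempty_iff_eq_empty] at hcon
        rw [hcon, Finset.sum_empty] at hsum
        norm_num at hsum
      apply Finset.sum_lt_sum_of_nonempty hne
      intro i _
      have := hr0 i
      have h2 : 0 < 2 / (r i : ℚ) := by positivity
      linarith
    rw [Finset.sum_const, Finset.card_univ, Fintype.card_fin, nsmul_eq_mul, mul_one] at h1
    have h2 : (3 : ℚ) < q := lt_of_le_of_lt hsum h1
    exact_mod_cast h2
  set e : Fin q → ℕ := fun i => M - 2 * (M / r i) with he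
  set k : Fin q → ℕ := fun i => M - M / r i with hk
  have heZ : ∀ i, (e i : ℤ) = M - 2 * ((M / r i : ℕ) : ℤ) := by
    intro i
    rw [he]
    beta_reduce
    rw [Nat.cast_sub (h2s i)]
    push_cast
    ring
  have hkZ : ∀ i, (k i : ℤ) = M - ((M / r i : ℕ) : ℤ) := by
    intro i
    rw [hk]
    beta_reduce
    rw [Nat.cast_sub (Nat.div_le_self _ _)]
  have hesum : 3 * (M : ℤ) ≤ ∑ i, (e i : ℤ) := by
    have h1 : ∑ i, ((e i : ℤ) : ℚ) = M * ∑ i, (1 - 2 / (r i : ℚ)) := by
      rw [Finset.mul_sum]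
      refine Finset.sum_congr rfl fun i _ => ?_
      have hri := (hr0 i).ne'
      have h2 : (((M / r i : ℕ) : ℤ) : ℚ) * (r i : ℚ) = M := by exact_mod_cast hsr i
      rw [heZ]
      push_cast
      push_cast at h2
      field_simp
      linear_combination (-2) * h2
    have h2 : 3 * (M : ℚ) ≤ ∑ i, ((e i : ℤ) : ℚ) := by
      rw [h1]
      have : (0 : ℚ) ≤ M := by positivity
      nlinarith
    exact_mod_cast h2
  have hsrZ : ∀ i, ((M / r i : ℕ) : ℤ) * (r i : ℤ) = M := fun i => by exact_mod_cast hsr i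
  have hsZ : ∀ i, (1 : ℤ) ≤ ((M / r i : ℕ) : ℤ) := fun i => by exact_mod_cast hs1 i
  have hMZ : (0 : ℤ) < M := by exact_mod_cast hMpos
  refine ⟨∑ i, e i, M, e, k, ⟨hq3.le, hMpos, ?_, by push_cast; rfl, ?_, ?_, ?_⟩⟩
  · have h1 : (0 : ℤ) < ∑ i, (e i : ℤ) := by linarith
    exact_mod_cast h1
  · have h1 : ∑ i, (k i : ℤ) = ∑ i, (e i : ℤ) + ∑ i, ((M / r i : ℕ) : ℤ) := by
      rw [← Finset.sum_add_distrib]
      refine Finset.sum_congr rfl fun i _ => ?_
      rw [hkZ, heZ]
      ring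
    have h2 : (1 : ℤ) ≤ ∑ i, ((M / r i : ℕ) : ℤ) := by
      have h3 := Finset.single_le_sum (f := fun i => ((M / r i : ℕ) : ℤ))
        (fun i _ => (by have := hsZ i; omega)) (Finset.mem_univ (⟨0, by omega⟩ : Fin q))
      exact (hsZ _).trans h3
    linarith
  · intro i m hm
    rcases hm with rfl | hm
    · simp
    have h2 : (2 : ℤ) ≤ r i := by exact_mod_cast hr i
    rw [max_eq_right (by omega)]
    have h3 := hsrZ i
    have h4 : (M : ℤ) ≤ ((M / r i : ℕ) : ℤ) * m := by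
      calc (M : ℤ) = ((M / r i : ℕ) : ℤ) * (r i : ℤ) := h3.symm
        _ ≤ _ := mul_le_mul_of_nonneg_left hm (by have := hsZ i; omega)
    have h5 : 3 * (M : ℤ) * (m - 2) ≤ ((∑ i, e i : ℕ) : ℤ) * (m - 2) := by
      apply mul_le_mul_of_nonneg_right _ (by omega)
      push_cast
      exact hesum
    rw [heZ]
    nlinarith
  · intro i m hm
    rcases hm with rfl | hm
    · simp
    have h2 : (2 : ℤ) ≤ r i := by exact_mod_cast hr i
    rw [max_eq_right (by omega)]
    have h3 := hsrZ i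
    have h4 : (M : ℤ) ≤ ((M / r i : ℕ) : ℤ) * m := by
      calc (M : ℤ) = ((M / r i : ℕ) : ℤ) * (r i : ℤ) := h3.symm
        _ ≤ _ := mul_le_mul_of_nonneg_left hm (by have := hsZ i; omega)
    rw [hkZ]
    nlinarith

/-- a sum over the lines through a point -/
theorem sum_three {w : Fin q → ℤ} {i j k : Fin q} (hij : i ≠ j) (hik : i ≠ k) (hjk : j ≠ k)
    (h : ∀ l, l ≠ i → l ≠ j → l ≠ k → w l = 0) : ∑ l, w l = w i + w j + w k := by
  classical
  rw [← Finset.sum_subset (Finset.subset_univ ({i, j, k} : Finset (Fin q)))]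
  · rw [Finset.sum_insert (by simp [hij, hik]), Finset.sum_insert (by simp [hjk]),
      Finset.sum_singleton]
    ring
  · intro l _ hl
    simp only [Finset.mem_insert, Finset.mem_singleton, not_or] at hl
    exact h l hl.1 hl.2.1 hl.2.2

/-- **The local estimates.** -/
theorem net_local {N M : ℕ} {e k : Fin q → ℕ} (hn : Num q r N M e k)
    (hi : AlgebraicIndependent ℂ ![u, v])
    (hgen : ∀ i j k, i ≠ j → i ≠ k → j ≠ k → (Matrix.of ![L i, L j, L k]).det ≠ 0)
    (p : Place ℂ K) (hm : ∀ i, p.ord (lin u v (L i)) = min 0 (min (p.ord u) (p.ord v)) ∨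
      min 0 (min (p.ord u) (p.ord v)) + r i ≤ p.ord (lin u v (L i))) :
    (∀ D : Derivation ℂ K K, DerReg p D → D u * D (D v) - D (D u) * D v ≠ 0 →
      ∑ l, 3 * (e l : ℤ) * p.ord (lin u v (L l)) ≤
        N * p.ord (D u * D (D v) - D (D u) * D v)) ∧
    (∀ D : Fin 2 → Derivation ℂ K K, (∀ l, DerReg p (D l)) → cJ D u v ≠ 0 →
      ∑ l, (k l : ℤ) * p.ord (lin u v (L l)) ≤
        min 0 (min (p.ord u) (p.ord v)) + M * p.ord (cJ D u v)) := by
  set μ : ℤ := min 0 (min (p.ord u) (p.ord v)) with hμ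
  have hμ0 : μ ≤ 0 := min_le_left _ _
  obtain ⟨i, j, l, hij, hil, hjl, hout⟩ := exists_three (L := L) hi p hn.q3 hgen
  obtain ⟨x, -, hx0, hxo⟩ := exists_x hi p
  rw [← hμ] at hxo
  set m : Fin q → ℤ := fun l => p.ord (lin u v (L l)) - μ with hmdef
  have hm' : ∀ l, m l = 0 ∨ (r l : ℤ) ≤ m l := by
    intro l
    rcases hm l with h | h
    · left
      rw [hmdef]
      beta_reduce
      omega
    · right
      rw [hmdef]
      beta_reduce
      omega
  have hm0 : ∀ l, 0 ≤ m l := by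
    intro l
    rcases hm' l with h | h
    · exact h.ge
    · exact (by positivity : (0 : ℤ) ≤ r l).trans h
  have hmz : ∀ a, a ≠ i → a ≠ j → a ≠ l → m a = 0 := by
    intro a h1 h2 h3
    have h4 := hout a h1 h2 h3
    have h5 := hm0 a
    rw [hmdef] at h5 ⊢
    beta_reduce at h5 ⊢
    omega
  have hne : ∀ a, lin u v (L a) ≠ 0 := lin_ne hi hn.q3 hgen
  have hord : ∀ a, p.ord (x⁻¹ * lin u v (L a)) = m a := by
    intro a
    rw [p.ord_mul (inv_ne_zero hx0) (hne a), p.ord_inv x, hxo, hmdef]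
    ring
  have hdet := hgen i j l hij hil hjl
  have hdet' : algebraMap ℂ K (Matrix.of ![L i, L j, L l]).det ≠ 0 := by
    rwa [Ne, map_eq_zero]
  have hge : ∀ a : Fin 3, Ge p (![m i, m j, m l] a) (![x⁻¹ * lin u v (L i), x⁻¹ * lin u v (L j),
      x⁻¹ * lin u v (L l)] a) := by
    intro a
    fin_cases a
    · exact Or.inr (hord i).ge
    · exact Or.inr (hord j).ge
    · exact Or.inr (hord l).ge
  have hge0 : ∀ a : Fin 3, 0 ≤ ![m i, m j, m l] a := by
    intro a
    fin_cases a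
    · exact hm0 i
    · exact hm0 j
    · exact hm0 l
  have hx3 : x⁻¹ ^ 3 ≠ 0 := pow_ne_zero _ (inv_ne_zero hx0)
  constructor
  · intro D hD hW
    set W := D u * D (D v) - D (D u) * D v with hWdef
    have h1 := ge_W3 hD hge0 hge
    change Ge p (max 0 (m i - 2) + max 0 (m j - 2) + max 0 (m l - 2)) (W3 D
      (x⁻¹ * lin u v (L i)) (x⁻¹ * lin u v (L j)) (x⁻¹ * lin u v (L l))) at h1
    rw [W3_smul, W3_lin, W3_one, ← hWdef] at h1
    have h2 := h1.resolve_left (mul_ne_zero hx3 (mul_ne_zero hdet' hW))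
    rw [p.ord_mul hx3 (mul_ne_zero hdet' hW), p.ord_mul hdet' hW, p.ord_const hdet, p.ord_pow,
      p.ord_inv x, hxo] at h2
    have h3 : ∑ a, 3 * (e a : ℤ) * p.ord (lin u v (L a)) =
        (3 * (e i : ℤ) * m i + 3 * (e j : ℤ) * m j + 3 * (e l : ℤ) * m l) + 3 * N * μ := by
      have h4 : ∀ a, 3 * (e a : ℤ) * p.ord (lin u v (L a)) =
          3 * (e a : ℤ) * m a + 3 * μ * (e a : ℤ) := by
        intro a
        rw [hmdef]
        ring
      rw [Finset.sum_congr rfl fun a _ => h4 a, Finset.sum_add_distrib, ← Finset.mul_sum, hn.sum,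
        sum_three hij hil hjl fun a k1 k2 k3 => by rw [hmz a k1 k2 k3, mul_zero]]
      ring
    rw [h3]
    have g1 := hn.le i _ (hm' i)
    have g2 := hn.le j _ (hm' j)
    have g3 := hn.le l _ (hm' l)
    have hN : (0 : ℤ) ≤ N := by positivity
    have h5 := mul_le_mul_of_nonneg_left h2 hN
    push_cast at h5
    linarith
  · intro D hD hW
    have h1 := ge_V3 hD hge0 hge
    change Ge p (max 0 (m i - 1) + max 0 (m j - 1) + max 0 (m l - 1)) (V3 D
      (x⁻¹ * lin u v (L i)) (x⁻¹ * lin u v (L j)) (x⁻¹ * lin u v (L l))) at h1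
    rw [V3_smul, V3_lin, V3_one] at h1
    have h2 := h1.resolve_left (mul_ne_zero hx3 (mul_ne_zero hdet' hW))
    rw [p.ord_mul hx3 (mul_ne_zero hdet' hW), p.ord_mul hdet' hW, p.ord_const hdet, p.ord_pow,
      p.ord_inv x, hxo] at h2
    have h3 : ∑ a, (k a : ℤ) * p.ord (lin u v (L a)) =
        ((k i : ℤ) * m i + (k j : ℤ) * m j + (k l : ℤ) * m l) + μ * ∑ a, (k a : ℤ) := by
      have h4 : ∀ a, (k a : ℤ) * p.ord (lin u v (L a)) =
          (k a : ℤ) * m a + μ * (k a : ℤ) := by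
        intro a
        rw [hmdef]
        ring
      rw [Finset.sum_congr rfl fun a _ => h4 a, Finset.sum_add_distrib, ← Finset.mul_sum,
        sum_three hij hil hjl fun a k1 k2 k3 => by rw [hmz a k1 k2 k3, mul_zero]]
    rw [h3]
    have g1 := hn.kle i _ (hm' i)
    have g2 := hn.kle j _ (hm' j)
    have g3 := hn.kle l _ (hm' l)
    have hM : (0 : ℤ) ≤ M := by positivity
    have h5 := mul_le_mul_of_nonneg_left h2 hM
    have h6 : μ * ∑ a, (k a : ℤ) ≤ μ * (3 * (M : ℤ) + 1) := mul_le_mul_of_nonpos_left hn.ksum hμ0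
    push_cast at h5
    linarith

end loc

/-- **Nets with multiple lines have regular Wronskian differentials.** -/
theorem wronskian_of_net (h : MultipleNet K) : HasWronskian K := by
  obtain ⟨u, v, q, L, r, hi, hr, hgen, hm, hsum⟩ := h
  obtain ⟨N, M, e, k, hn⟩ := exists_num hr hsum
  have hne : ∀ a, lin u v (L a) ≠ 0 := lin_ne hi hn.q3 hgen
  set H : K := ∏ i, lin u v (L i) ^ (-(3 * (e i : ℤ))) with hH
  have hH0 : H ≠ 0 := Finset.prod_ne_zero_iff.2 fun i _ => zpow_ne_zero _ (hne i)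
  refine ⟨⟨N, H, u, v⟩, hn.Npos, hH0, hi, fun p hp D hD => ?_⟩
  unfold WDif.val
  change p.Reg (H * (D u * D (D v) - D (D u) * D v) ^ N)
  by_cases hW : D u * D (D v) - D (D u) * D v = 0
  · rw [hW, zero_pow hn.Npos.ne', mul_zero]
    exact p.reg_zero
  rw [p.reg_iff (mul_ne_zero hH0 (pow_ne_zero _ hW)), p.ord_mul hH0 (pow_ne_zero _ hW), p.ord_pow,
    hH, ord_prod_zpow p _ hne]
  have h1 := (net_local hn hi hgen p (hm p hp)).1 D hD hW
  have h2 : ∑ i, -(3 * (e i : ℤ)) * p.ord (lin u v (L i)) =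
      - ∑ i, 3 * (e i : ℤ) * p.ord (lin u v (L i)) := by
    rw [← Finset.sum_neg_distrib]
    exact Finset.sum_congr rfl fun i _ => by ring
  rw [h2]
  linarith

/-- **Surfaces which have nets with multiple lines are of general type.** -/
theorem general_of_net (htr : Algebra.trdeg ℂ K = 2) (h : MultipleNet K) : GeneralType ℂ K 2 := by
  obtain ⟨u, v, q, L, r, hi, hr, hgen, hm, hsum⟩ := h
  obtain ⟨N, M, e, k, hn⟩ := exists_num hr hsum
  have hne : ∀ a, lin u v (L a) ≠ 0 := lin_ne hi hn.q3 hgen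
  obtain ⟨hu, hv⟩ := indep_ne hi
  set H : K := ∏ i, lin u v (L i) ^ (-(k i : ℤ)) with hH
  have hH0 : H ≠ 0 := Finset.prod_ne_zero_iff.2 fun i _ => zpow_ne_zero _ (hne i)
  set x : Fin 3 → K := ![1, u, v] with hx
  have hx0 : ∀ j, x j ≠ 0 := by
    intro j
    fin_cases j
    · exact one_ne_zero
    · exact hu
    · exact hv
  have hb : IsTranscendenceBasis ℂ ![u, v] := by
    apply hi.isTranscendenceBasis_of_trdeg_le_of_finite
    rw [htr, Cardinal.mk_fin]
    exact le_rfl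
  obtain ⟨D, hD⟩ := exists_dual hb
  have h1 : ∀ i j, D i (![u, v] j) = (1 : Matrix (Fin 2) (Fin 2) K) i j := fun i j => by
    rw [← hD]
    rfl
  have hJ : cJ D u v = 1 := by
    have e00 := h1 0 0
    have e01 := h1 0 1
    have e10 := h1 1 0
    have e11 := h1 1 1
    simp only [Matrix.cons_val_zero, Matrix.cons_val_one] at e00 e01 e10 e11
    unfold cJ
    rw [e00, e01, e10, e11]
    simp
  refine ⟨by rw [htr]; rfl, M, hn.Mpos, fun j E => x j * H * cJ E u v ^ M,
    fun j => cJ_pluri (x j * H) u v M, fun p hp j E hE => ?_, D, ?_, ?_⟩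
  · by_cases hW : cJ E u v = 0
    · change p.Reg (x j * H * cJ E u v ^ M)
      rw [hW, zero_pow hn.Mpos.ne', mul_zero]
      exact p.reg_zero
    change p.Reg (x j * H * cJ E u v ^ M)
    rw [p.reg_iff (mul_ne_zero (mul_ne_zero (hx0 j) hH0) (pow_ne_zero _ hW)),
      p.ord_mul (mul_ne_zero (hx0 j) hH0) (pow_ne_zero _ hW), p.ord_mul (hx0 j) hH0, p.ord_pow,
      hH, ord_prod_zpow p _ hne]
    have h2 := (net_local hn hi hgen p (hm p hp)).2 E hE hW
    have h3 : ∑ i, -(k i : ℤ) * p.ord (lin u v (L i)) =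
        - ∑ i, (k i : ℤ) * p.ord (lin u v (L i)) := by
      rw [← Finset.sum_neg_distrib]
      exact Finset.sum_congr rfl fun i _ => by ring
    have h4 : min 0 (min (p.ord u) (p.ord v)) ≤ p.ord (x j) := by
      have hmem : x j ∈ ({1, u, v} : Set K) := by
        fin_cases j
        · exact Or.inl rfl
        · exact Or.inr (Or.inl rfl)
        · exact Or.inr (Or.inr rfl)
      exact (ge_x p (x j) hmem).resolve_left (hx0 j)
    rw [h3]
    linarith
  · change x 0 * H * cJ D u v ^ M ≠ 0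
    rw [hJ, one_pow, mul_one]
    exact mul_ne_zero (hx0 0) hH0
  · have h2 : (fun i : Fin 2 => (x i.succ * H * cJ D u v ^ M) / (x 0 * H * cJ D u v ^ M)) =
        ![u, v] := by
      funext i
      rw [hJ, one_pow, mul_one, mul_one]
      have h3 : x 0 = 1 := rfl
      rw [h3, one_mul, mul_div_cancel_right₀ _ hH0]
      fin_cases i
      · rfl
      · rfl
    change AlgebraicIndependent ℂ (fun i : Fin 2 => (x i.succ * H * cJ D u v ^ M) /
      (x 0 * H * cJ D u v ^ M))
    rw [h2]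
    exact hi

end Pool.Agent.L7h90.WR
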