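import Pool.Agent.L7h90.WR.Lin
import Pool.Agent.L7h90.WR.Cnt
import Pool.Agent.L7h90.WR.Bnd
import Pool.Agent.N155.L.Tgt

/-! Classes of curves on which a Wronskian differential is a nonzero constant. -/

set_option autoImplicit false

open Filter Topology Set Metric MvPolynomial FF

namespace Pool.Agent.L7h90.WR

open Pool.Agent.N155 Pool.Agent.Y190.OP Pool.Agent.W602.GT Pool.Agent.TH143.GT

variable {n : ℕ} {K : Type} [Field K] [Algebra ℂ K] {y : Fin (n + 1) → K}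

theorem LBa.lbc {R : ∀ h : K, Frac y h} {M0 : Mat (n + 1)} (h : LBa R M0) :
    LBc R (fun _ => True) M0 := by
  obtain ⟨i, j, k, E, h1, h2, h3, h4⟩ := h
  exact ⟨i, j, k, E, h1, h2, h3, fun q hq => h4 q fun v hv _ hE => hq v hv trivial hE⟩

/-- classes of Zariski dense curves on which a Wronskian differential is a nonzero constant -/
structure WCls (R : ∀ h : K, Frac y h) (𝒞 : (ℂ → Mat (n + 1)) → Prop) (c0 : ℝ) (σ : WDif K)
    (c : ℂ) : Prop where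
  cls : Cls (TX y) c0 𝒞
  cv : ∀ φ, 𝒞 φ → Cv y φ
  seq : ∀ φ, 𝒞 φ → WEq R σ c φ
  lb : ∀ M ∈ TX y, LBa R M
  cne : c ≠ 0
  hne : σ.h ≠ 0
  npos : 0 < σ.N
  alg : AlgebraicIndependent ℂ ![σ.u, σ.v]
  reg : σ.Regular 2
  basis : ∃ (x : Fin 2 → K) (E : Fin 2 → Derivation ℂ K K), Dual x E
  forms : ∃ (N : ℕ) (ω0 ω1 : (Fin 2 → Derivation ℂ K K) → K) (D : Fin 2 → Derivation ℂ K K),
    0 < N ∧ IsPluri N ω0 ∧ IsPluri N ω1 ∧
    (∀ v : Place ℂ K, Divisorial 2 v → RegAt v ω0) ∧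
    (∀ v : Place ℂ K, Divisorial 2 v → RegAt v ω1) ∧ ω0 D ≠ 0 ∧
    Transcendental ℂ (ω1 D / ω0 D)

variable {R : ∀ h : K, Frac y h} {𝒞 : (ℂ → Mat (n + 1)) → Prop} {c0 : ℝ} {σ : WDif K}
    {c : ℂ}

theorem wdfo (h : WCls R 𝒞 c0 σ c) {𝓤 : Ultrafilter ℕ} {φ : ℂ → Mat (n + 1)}
    {P Q : ℕ → ℂ → Mat (n + 1)} {a κ : ℕ → ℂ} (d : Dat 𝒞 𝓤 φ P Q a κ) :
    Dfo y 𝓤 φ P Q (fun m z => κ m * Complex.exp (a m * z)) where
  cv := h.cv φ d.cφ
  hP := fun m => h.cls.hol _ (d.cP m)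
  hQ := fun m => h.cls.hol _ (d.cQ m)
  mP := fun m z => h.cls.mem _ (d.cP m) z
  mQ := fun m z => h.cls.mem _ (d.cQ m) z
  lP := d.lP
  lQ := d.lQ
  wd := fun m => by fun_prop
  bd := d.bd

theorem WCls.exists_mul (h : WCls R 𝒞 c0 σ c) {𝓤 : Ultrafilter ℕ} {φ : ℂ → Mat (n + 1)}
    {P Q : ℕ → ℂ → Mat (n + 1)} {a κ : ℕ → ℂ} (d : Dat 𝒞 𝓤 φ P Q a κ) :
    ∃ g : MK, ∀ k, (wdfo h d).del R k = g * MD ((wdfo h d).cv.emb R k) := by
  obtain ⟨x, E, hx⟩ := h.basis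
  obtain ⟨N, ω0, ω1, D, hN, hω0, hω1, hr0, hr1, hD, htr⟩ := h.forms
  obtain ⟨C, hC⟩ := d.tb
  apply Dfo.exists_mul R (wdfo h d) hx
  refine Dfo.W2_zero R (wdfo h d) (C0 := C) hC h.cls.isCompact_pts (fun z => ?_)
    (Cn := fun _ => True) ?_
    (h.cls.bd φ d.cφ) hN hω0 hω1 (fun v hv _ => hr0 v hv) (fun v hv _ => hr1 v hv) hD htr hx
  · exact ⟨_, h.cls.shift φ d.cφ z, by rw [add_zero]⟩
  · rintro M0 ⟨χ, hχ, rfl⟩
    exact (h.lb _ (h.cls.mem χ hχ 0)).lbc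

theorem WCls.rigA (h : WCls R 𝒞 c0 σ c) : RigA 𝒞 := by
  intro 𝓤 φ P Q a κ a0 d ha
  obtain ⟨g, hg⟩ := h.exists_mul d
  have h1 := wls R (wdfo h d) (a := a) (α := a0) (σ := σ) (c := c)
    (fun m z => exp_der (κ m) (a m) z) ha h.cne h.npos
    (fun m => h.seq _ (d.cP m)) (fun m => h.seq _ (d.cQ m)) (h.seq _ d.cφ) hg
  obtain ⟨h0, hm, rfl⟩ := MD_eq_mul h1
  refine ⟨h0, fun z z0 s hz hs hsw => ?_⟩
  exact Dfo.nd R (wdfo h d) (γ := fun z => h0 * Complex.exp (a0 * z)) (by fun_prop) hm hg hz hs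
    hsw

/-! ### the Jacobian -/

section jac

theorem cJ_pluri (h u v : K) (N : ℕ) :
    IsPluri N (fun E : Fin 2 → Derivation ℂ K K => h * cJ E u v ^ N) := by
  intro M D
  unfold cJ
  rw [Matrix.det_fin_two]
  simp only [Fin.sum_univ_two, Derivation.add_apply, Derivation.smul_apply, smul_eq_mul]
  have e : (M 0 0 * D 0 u + M 0 1 * D 1 u) * (M 1 0 * D 0 v + M 1 1 * D 1 v) -
      (M 1 0 * D 0 u + M 1 1 * D 1 u) * (M 0 0 * D 0 v + M 0 1 * D 1 v) =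
      (M 0 0 * M 1 1 - M 0 1 * M 1 0) * (D 0 u * D 1 v - D 1 u * D 0 v) := by ring
  rw [e, mul_pow]
  ring

theorem cJ_ne {x : Fin 2 → K} {E : Fin 2 → Derivation ℂ K K} (hx : Dual x E) {u v : K}
    (hi : AlgebraicIndependent ℂ ![u, v]) : cJ E u v ≠ 0 := by
  have htr : Algebra.trdeg ℂ K ≤ 2 := by
    have := hx.1.cardinalMk_eq_trdeg
    rw [← this, Cardinal.mk_fin]
    exact le_rfl
  have hb : IsTranscendenceBasis ℂ ![u, v] := by
    apply hi.isTranscendenceBasis_of_trdeg_le_of_finite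
    rw [Cardinal.mk_fin]
    exact htr
  obtain ⟨D, hD⟩ := exists_dual hb
  have h1 : ∀ i j, D i (![u, v] j) = (1 : Matrix (Fin 2) (Fin 2) K) i j := fun i j => by
    rw [← hD]
    rfl
  have h2 : cJ D u v ≠ 0 := by
    have e00 := h1 0 0
    have e01 := h1 0 1
    have e10 := h1 1 0
    have e11 := h1 1 1
    simp only [Matrix.cons_val_zero, Matrix.cons_val_one] at e00 e01 e10 e11
    unfold cJ
    rw [e00, e01, e10, e11]
    simp
  have h3 := pluri_ne (cJ_pluri 1 u v 1) hx (D := D) (by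
    simpa using h2)
  simpa using h3

end jac

/-! ### the class of curves -/

/-- the class of curves in `S` -/
structure KW (R : ∀ h : K, Frac y h) (S : Set (Mat (n + 1))) (σ : WDif K) (c : ℂ) (c0 : ℝ)
    (φ : ℂ → Mat (n + 1)) : Prop where
  hol : HolP univ φ
  mem : ∀ z, φ z ∈ TX y
  av : ∀ z, φ z ∈ S
  bd : ∀ z, ‖fderiv ℝ φ z‖ ≤ 2
  low : ∀ z, c0 ≤ ‖fderiv ℝ φ z‖
  seq : WEq R σ c φ

variable {S : Set (Mat (n + 1))} {φ : ℂ → Mat (n + 1)}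

theorem KW.shift (h : KW R S σ c c0 φ) (t : ℂ) : KW R S σ c c0 (fun w => φ (t + w)) where
  hol := holP_shift h.hol t
  mem := fun z => h.mem _
  av := fun z => h.av _
  bd := fun z => by rw [fderiv_shift]; exact h.bd _
  low := fun z => by rw [fderiv_shift]; exact h.low _
  seq := h.seq.shift R t

theorem KW.nc (h : KW R S σ c c0 φ) (hc0 : 0 < c0) : ∃ z, φ z ≠ φ 0 :=
  nc_of_fderiv (z := 0) fun h0 => by
    have := h.low 0
    rw [h0, norm_zero] at this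
    linarith

theorem KW.cls (hc0 : 0 < c0) (hS : IsClosed S) :
    Cls (TX y) c0 (KW R S σ c c0) where
  comp := isCompact_TX
  sub := TX_PM
  pos := hc0
  hol := fun φ h => h.hol
  mem := fun φ h => h.mem
  bd := fun φ h => h.bd
  low := fun φ h => h.low
  shift := fun φ h => h.shift
  lim := fun 𝓤 P hP => by
    obtain ⟨φ, h1, h2, h3, h4⟩ := exists_limit isCompact_TX TX_PM (𝓤 := 𝓤) (K := 2)
      (fun m => (hP m).hol) (fun m => (hP m).mem) (fun m => (hP m).bd)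
    have hbd : ∀ z, ‖fderiv ℝ φ z‖ ≤ 2 := fun z =>
      le_of_tendsto (h4 z).norm (Eventually.of_forall fun m => (hP m).bd z)
    have hlow : ∀ z, c0 ≤ ‖fderiv ℝ φ z‖ := fun z =>
      ge_of_tendsto (h4 z).norm (Eventually.of_forall fun m => (hP m).low z)
    refine ⟨φ, ⟨h1, h2, ?_, hbd, hlow, ?_⟩, h3⟩
    · exact fun z => hS.mem_of_tendsto (h3.pointwise (mem_univ z))
        (Eventually.of_forall fun m => (hP m).av z)
    · exact WEq.lim R h3 (fun m => (hP m).hol) h1 fun m => (hP m).seq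

end Pool.Agent.L7h90.WR
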