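import Pool.Agent.L7h90.WR.Gen
import Pool.Agent.L7h90.WR.Cls

/-! Rapidly oscillating deformations: boundedness. -/

set_option autoImplicit false

open Filter Topology Set Metric MvPolynomial FF

namespace Pool.Agent.L7h90.WR

open Pool.Agent.N155 Pool.Agent.Y190.OP Pool.Agent.W602.GT Pool.Agent.TH143.GT

variable {n : ℕ} {K : Type} [Field K] [Algebra ℂ K] {y : Fin (n + 1) → K}
  (R : ∀ h : K, Frac y h) {𝓤 : Ultrafilter ℕ} {φ : ℂ → Mat (n + 1)} {P Q : ℕ → ℂ → Mat (n + 1)}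
  {wt : ℕ → ℂ → ℂ}

theorem mul_codis (h : Dfo y 𝓤 φ P Q wt) {γ : ℂ → ℂ} {hγ : Meromorphic γ}
    (hδ : ∀ k, h.del R k = cl γ hγ * MD (h.cv.emb R k)) (k : K) :
    ∀ᶠ z in codiscrete ℂ, Dl R 𝓤 P Q wt k z = γ z * deriv (fun w => ev R k (φ w)) z := by
  have := hδ k
  unfold Dfo.del at this
  rw [Cv.emb_apply, MD_cl, cl_mul, cl_eq] at this
  exact this

theorem ev_ne_codis (h : Cv y φ) {k : K} (hk : k ≠ 0) :
    ∀ᶠ z in codiscrete ℂ, ev R k (φ z) ≠ 0 := by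
  apply mero_ne (h.mero R k)
  intro h0
  apply hk
  have h1 : h.emb R k = 0 := by
    rw [Cv.emb_apply, cl_eq_zero]
    exact h0
  exact (map_eq_zero_iff (h.emb R) (h.emb R).toRingHom.injective).1 h1

/-- the normal component is locally bounded -/
theorem lam_bdd {a κ : ℕ → ℂ} (h : Dfo y 𝓤 φ P Q (fun m z => κ m * Complex.exp (a m * z)))
    (hinf : ∀ C : ℝ, ∀ᶠ m in (𝓤 : Filter ℕ), C ≤ ‖a m‖)
    (hgr : ∀ z, ∀ᶠ p : ℕ × ℂ in (𝓤 : Filter ℕ) ×ˢ 𝓝 z,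
      Real.exp (‖a p.1‖ / 2) ≤ ‖κ p.1 * Complex.exp (a p.1 * p.2)‖)
    (cvP : ∀ m, Cv y (P m)) (cvQ : ∀ m, Cv y (Q m)) {σ : WDif K} {c : ℂ} (hc : c ≠ 0)
    (hN : 0 < σ.N) (hP : ∀ m, WEq R σ c (P m)) (hQ : ∀ m, WEq R σ c (Q m))
    (hφ : WEq R σ c φ) {E : Fin 2 → Derivation ℂ K K} {i j k : Fin (n + 1)}
    (hi : y i ≠ 0) (hx : Dual ![y j / y i, y k / y i] E) (hJ : cJ E σ.u σ.v ≠ 0)
    {γ : ℂ → ℂ} {hγ : Meromorphic γ} (hδ : ∀ k, h.del R k = cl γ hγ * MD (h.cv.emb R k))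
    {z0 : ℂ} (hz0 : nz (X i) (φ z0)) :
    ∃ C : ℝ, ∀ᶠ z in 𝓝[≠] z0,
      ‖3 * γ z * XE R E σ i j k φ z / ev R (cJ E σ.u σ.v) (φ z)‖ ≤ C := by
  set G : Set ℂ := {z | cgood R E σ i (φ z) ∧ good R (y j / y i) (φ z) ∧
    good R (y k / y i) (φ z) ∧ AnalyticAt ℂ γ z ∧
    Dl R 𝓤 P Q (fun m z => κ m * Complex.exp (a m * z)) (y j / y i) z =
      γ z * deriv (fun w => ev R (y j / y i) (φ w)) z ∧
    Dl R 𝓤 P Q (fun m z => κ m * Complex.exp (a m * z)) (y k / y i) z =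
      γ z * deriv (fun w => ev R (y k / y i) (φ w)) z ∧
    ev R (cJ E σ.u σ.v) (φ z) ≠ 0} with hG
  have hGc : G ∈ codiscrete ℂ := by
    filter_upwards [cgood_codis R h.cv E σ hi, h.cv.good R (y j / y i), h.cv.good R (y k / y i),
      mero_an hγ, mul_codis R h hδ (y j / y i), mul_codis R h hδ (y k / y i),
      ev_ne_codis R h.cv hJ] with z k1 k2 k3 k4 k5 k6 k7 using ⟨k1, k2, k3, k4, k5, k6, k7⟩
  have hlim : ∀ z ∈ G, Tendsto (fun p : ℕ × ℂ => a p.1 *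
      NN i j k P Q (fun m z => κ m * Complex.exp (a m * z)) p.1 p.2) ((𝓤 : Filter ℕ) ×ˢ 𝓝 z)
      (𝓝 (3 * γ z * XE R E σ i j k φ z / ev R (cJ E σ.u σ.v) (φ z))) := by
    intro z hz
    have hzn := codis_nhds hGc hz
    obtain ⟨k1, k2, k3, k4, -, -, k7⟩ := hz
    exact nn_lim R h hinf (hgr z) cvP cvQ hc hN hP hQ hφ hi hx k1 k2 k3 k4
      (by filter_upwards [hzn] with w hw using hw.2.2.2.2.1)
      (by filter_upwards [hzn] with w hw using hw.2.2.2.2.2.1) k7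
  have hU : IsOpen {w | nz (X i) (φ w)} := (isOpen_nz _).preimage h.cont
  have h1 : ∀ᶠ z in 𝓝 z0, z ∈ ({z0} : Set ℂ)ᶜ → z ∈ G :=
    eventually_nhdsWithin_iff.1 (codis_punct hGc z0)
  obtain ⟨ε, hε, hsub⟩ := Metric.mem_nhds_iff.1 (inter_mem h1 (hU.mem_nhds hz0))
  have hρ : 0 < ε / 2 := by positivity
  have hcl : ∀ z ∈ closedBall z0 (ε / 2), (z ≠ z0 → z ∈ G) ∧ nz (X i) (φ z) := by
    intro z hz
    have h2 := hsub (closedBall_subset_ball (by linarith) hz)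
    exact ⟨fun hne => h2.1 hne, h2.2⟩
  obtain ⟨C, hC⟩ := seq_max (l := (𝓤 : Filter ℕ)) (F := fun m z => a m *
      NN i j k P Q (fun m z => κ m * Complex.exp (a m * z)) m z) hρ (by
    intro z hz
    have hzG : z ∈ G := (hcl z (sphere_subset_closedBall hz)).1 (ne_of_mem_sphere hz hρ.ne')
    have h3 := (hlim z hzG).norm.eventually_lt_const (lt_add_one _)
    rw [eventually_prod_iff] at h3
    obtain ⟨pa, hpa, pb, hpb, hab⟩ := h3
    refine ⟨{w | pb w}, hpb, ‖3 * γ z * XE R E σ i j k φ z / ev R (cJ E σ.u σ.v) (φ z)‖ + 1, ?_⟩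
    filter_upwards [hpa] with m hm w hw
    exact (hab hm hw).le) (by
    intro z hz
    obtain ⟨V, hV, hd⟩ := diff_NN h i j k (hcl z hz).2
    refine ⟨V, hV, ?_⟩
    filter_upwards [hd] with m hm
    exact hm.const_mul _)
  refine ⟨C, ?_⟩
  have h4 : ∀ᶠ z in 𝓝[≠] z0, z ∈ closedBall z0 (ε / 2) :=
    nhdsWithin_le_nhds (closedBall_mem_nhds z0 hρ)
  filter_upwards [h4, self_mem_nhdsWithin] with z hz hne
  have h5 := at_z (hlim z ((hcl z hz).1 hne))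
  refine le_of_tendsto h5.norm ?_
  filter_upwards [hC] with m hm
  exact hm z hz

omit [Field K] [Algebra ℂ K] in
/-- the derivative of the curve is bounded by the derivatives of the coordinates -/
theorem fderiv_le (hol : HolP univ φ) {i : Fin (n + 1)} {O : Set (Mat (n + 1))} {C : ℝ}
    (hC : 0 ≤ C) {z : ℂ} (hO : O ∈ 𝓝 (φ z))
    (hL : ∀ P ∈ O ∩ PM, ∀ Q ∈ O ∩ PM, nz (X i) P ∧ nz (X i) Q ∧
      ‖P - Q‖ ≤ C * ∑ j, ‖qv (X j) (X i) P - qv (X j) (X i) Q‖) :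
    ‖fderiv ℝ φ z‖ ≤ C * ∑ j, ‖deriv (fun w => qv (X j) (X i) (φ w)) z‖ := by
  have hcont : ContinuousAt φ z := hol.continuousAt (mem_univ z)
  have hPM : ∀ w, φ w ∈ PM := fun w => hol.mem_PM (mem_univ w)
  have hnz : nz (X i) (φ z) := (hL _ ⟨mem_of_mem_nhds hO, hPM z⟩ _ ⟨mem_of_mem_nhds hO, hPM z⟩).1
  have hφd := (hol.differentiableAt (mem_univ z)).hasFDerivAt
  have key : ∀ ε > 0, ‖fderiv ℝ φ z‖ ≤
      C * ∑ j, (‖deriv (fun w => qv (X j) (X i) (φ w)) z‖ + ε) := by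
    intro ε hε
    refine hφd.le_of_lip' (mul_nonneg hC (Finset.sum_nonneg fun j _ => by positivity)) ?_
    have h1 : ∀ᶠ w in 𝓝 z, ∀ j : Fin (n + 1), ‖qv (X j) (X i) (φ w) - qv (X j) (X i) (φ z)‖ ≤
        (‖deriv (fun w => qv (X j) (X i) (φ w)) z‖ + ε) * ‖w - z‖ := by
      refine eventually_all.2 fun j => ?_
      have h2 := (an_qv hol (mem_univ z) (isHomogeneous_X ℂ j) (isHomogeneous_X ℂ i)
        hnz).differentiableAt.hasDerivAt
      filter_upwards [(hasDerivAt_iff_isLittleO.1 h2).def hε] with w hw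
      have h3 : qv (X j) (X i) (φ w) - qv (X j) (X i) (φ z) =
          (qv (X j) (X i) (φ w) - qv (X j) (X i) (φ z) -
            (w - z) • deriv (fun w => qv (X j) (X i) (φ w)) z) +
          (w - z) • deriv (fun w => qv (X j) (X i) (φ w)) z := by ring
      rw [h3]
      refine (norm_add_le _ _).trans ?_
      rw [norm_smul]
      linarith
    filter_upwards [h1, hcont.eventually hO] with w k1 k2
    refine (hL _ ⟨k2, hPM w⟩ _ ⟨mem_of_mem_nhds hO, hPM z⟩).2.2.trans ?_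
    rw [mul_assoc, Finset.sum_mul]
    exact mul_le_mul_of_nonneg_left (Finset.sum_le_sum fun j _ => k1 j) hC
  have h1 : Tendsto (fun ε : ℝ => C * ∑ j, (‖deriv (fun w => qv (X j) (X i) (φ w)) z‖ + ε))
      (𝓝[>] 0) (𝓝 (C * ∑ j, (‖deriv (fun w => qv (X j) (X i) (φ w)) z‖ + 0))) := by
    apply Tendsto.mono_left _ nhdsWithin_le_nhds
    exact (tendsto_finsetSum _ fun j _ => tendsto_id.const_add _).const_mul _
  simp only [add_zero] at h1
  refine ge_of_tendsto h1 ?_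
  filter_upwards [self_mem_nhdsWithin] with ε hε
  exact key ε hε

/-- the deformation is bounded by the coordinates -/
theorem dl_le (h : Dfo y 𝓤 φ P Q wt) {B : ℝ} (hB : ∀ L : ℝ, ∀ᶠ m in (𝓤 : Filter ℕ),
      ∀ z ∈ closedBall (0 : ℂ) L, ‖Q m z - P m z‖ * ‖wt m z‖ ≤ B) {i j : Fin (n + 1)}
    (hi : y i ≠ 0) {O : Set (Mat (n + 1))} {z : ℂ} (hO : O ∈ 𝓝 (φ z)) {C : ℝ} (hC : 0 ≤ C)
    (hL : ∀ M ∈ O, ∀ M' ∈ O, ‖qv (X j) (X i) M - qv (X j) (X i) M'‖ ≤ C * ‖M - M'‖)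
    (hnz : nz (X i) (φ z)) (hg : N155.good R (y j / y i) (φ z)) :
    ‖Dl R 𝓤 P Q wt (y j / y i) z‖ ≤ C * B := by
  refine le_of_tendsto (h.tendsto R hg).norm ?_
  obtain ⟨V, -, hzV, -, hm⟩ := h.ev_mem (inter_mem hO ((isOpen_nz (X i)).mem_nhds hnz))
  obtain ⟨V', -, hzV', hm'⟩ := h.ev_good R hg
  filter_upwards [hm, hm', hB ‖z‖] with m h1 h2 h3
  obtain ⟨p1, p2⟩ := h1 z hzV
  obtain ⟨q1, q2⟩ := h2 z hzV'
  unfold dqf
  rw [ev_ratio R j hi (h.mQ m z) q2 p2.2, ev_ratio R j hi (h.mP m z) q1 p1.2, norm_mul]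
  calc ‖qv (X j) (X i) (Q m z) - qv (X j) (X i) (P m z)‖ * ‖wt m z‖ ≤
        (C * ‖Q m z - P m z‖) * ‖wt m z‖ :=
          mul_le_mul_of_nonneg_right (hL _ p2.1 _ p1.1) (norm_nonneg _)
    _ = C * (‖Q m z - P m z‖ * ‖wt m z‖) := by ring
    _ ≤ C * B := mul_le_mul_of_nonneg_left (h3 z (by rw [mem_closedBall_zero_iff])) hC

/-- **The deformation has constant speed.** -/
theorem gam_const (h : Dfo y 𝓤 φ P Q wt) {B : ℝ} (hB : ∀ L : ℝ, ∀ᶠ m in (𝓤 : Filter ℕ),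
      ∀ z ∈ closedBall (0 : ℂ) L, ‖Q m z - P m z‖ * ‖wt m z‖ ≤ B) {c0 : ℝ} (hc0 : 0 < c0)
    (hlow : ∀ z, c0 ≤ ‖fderiv ℝ φ z‖) {g : MK}
    (hδ : ∀ k, h.del R k = g * MD (h.cv.emb R k)) : ∃ c : ℂ, g = algebraMap ℂ MK c := by
  obtain ⟨γ, hγ, rfl⟩ := cl_surj g
  have hloc : ∃ C : ℝ, ∀ᶠ z in codiscrete ℂ, φ z ∈ TX y → ‖γ z‖ ≤ C := by
    refine (isCompact_TX (y := y)).induction_on (p := fun S => ∃ C : ℝ, ∀ᶠ z in codiscrete ℂ,
      φ z ∈ S → ‖γ z‖ ≤ C) ?_ ?_ ?_ ?_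
    · exact ⟨0, Eventually.of_forall fun z hz => absurd hz (by simp)⟩
    · rintro S S' hSS ⟨C, h⟩
      exact ⟨C, h.mono fun z hz hzS => hz (hSS hzS)⟩
    · rintro S S' ⟨C, h⟩ ⟨C', h'⟩
      refine ⟨max C C', ?_⟩
      filter_upwards [h, h'] with z hz hz' hzS
      rcases hzS with hzS | hzS
      · exact (hz hzS).trans (le_max_left _ _)
      · exact (hz' hzS).trans (le_max_right _ _)
    · intro M0 hM0
      have hPM : M0 ∈ PM := TX_PM hM0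
      obtain ⟨i, hi⟩ := PM.exists_diag hPM
      have hnz0 : nz (X i) M0 := nz_of_diag hPM hi
      have hyi : y i ≠ 0 := by
        intro h0
        obtain ⟨u, hu, hφu⟩ := hM0
        have h1 := hu.2 (X i) ⟨1, isHomogeneous_X _ _⟩ (by rw [val_X', h0])
        rw [val_eval, eval_X] at h1
        rw [hφu, nz_Phi (isHomogeneous_X _ _) hu.1, eval_X] at hnz0
        exact hnz0 h1
      obtain ⟨C4, O4, hC4, hO4, hL4⟩ := chart_lip hPM hnz0
      have hq : ∀ j : Fin (n + 1), ∃ (C : ℝ) (O : Set (Mat (n + 1))), 0 ≤ C ∧ O ∈ 𝓝 M0 ∧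
          ∀ M ∈ O, ∀ M' ∈ O, ‖qv (X j) (X i) M - qv (X j) (X i) M'‖ ≤ C * ‖M - M'‖ := fun j =>
        lip_qv (G1 := X j) hnz0
      choose C O hC hO hL using hq
      have hOs : (⋂ j, O j) ∈ 𝓝 M0 := (Filter.iInter_mem).2 hO
      obtain ⟨W, hWs, hW, hMW⟩ := _root_.mem_nhds_iff.1 (inter_mem hOs (inter_mem hO4
        ((isOpen_nz (X i)).mem_nhds hnz0)))
      refine ⟨W, mem_nhdsWithin_of_mem_nhds (hW.mem_nhds hMW), C4 * (∑ j, C j * B) / c0, ?_⟩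
      have h1 : ∀ᶠ z in codiscrete ℂ, ∀ j : Fin (n + 1), good R (y j / y i) (φ z) ∧
          Dl R 𝓤 P Q wt (y j / y i) z = γ z * deriv (fun w => ev R (y j / y i) (φ w)) z :=
        eventually_all.2 fun j => (h.cv.good R _).and (mul_codis R h hδ _)
      filter_upwards [h1] with z hz hzW
      have hWz : W ∈ 𝓝 (φ z) := hW.mem_nhds hzW
      have hnz : nz (X i) (φ z) := (hWs hzW).2.2
      have h2 : ∀ j, ‖γ z‖ * ‖deriv (fun w => qv (X j) (X i) (φ w)) z‖ ≤ C j * B := by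
        intro j
        have h3 := dl_le R h hB hyi hWz (hC j) (fun M hM M' hM' => hL j M
          (mem_iInter.1 (hWs hM).1 j) M' (mem_iInter.1 (hWs hM').1 j)) hnz (hz j).1
        rw [(hz j).2, norm_mul] at h3
        have h4 : deriv (fun w => ev R (y j / y i) (φ w)) z =
            deriv (fun w => qv (X j) (X i) (φ w)) z := by
          apply EventuallyEq.deriv_eq
          filter_upwards [(h.isOpen_good R (y j / y i)).mem_nhds (hz j).1,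
            ((isOpen_nz (X i)).preimage h.cont).mem_nhds hnz] with w m1 m2
          exact ev_ratio R j hyi (h.cv.mem w) m1 m2
        rwa [h4] at h3
      have h5 := fderiv_le h.cv.hol hC4 (mem_of_superset hWz fun M hM => (hWs hM).2.1) hL4
      rw [le_div_iff₀ hc0]
      calc ‖γ z‖ * c0 ≤ ‖γ z‖ * (C4 * ∑ j, ‖deriv (fun w => qv (X j) (X i) (φ w)) z‖) :=
            mul_le_mul_of_nonneg_left ((hlow z).trans h5) (norm_nonneg _)
        _ = C4 * ∑ j, ‖γ z‖ * ‖deriv (fun w => qv (X j) (X i) (φ w)) z‖ := by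
            rw [← Finset.mul_sum]
            ring
        _ ≤ C4 * ∑ j, C j * B := mul_le_mul_of_nonneg_left
            (Finset.sum_le_sum fun j _ => h2 j) hC4
  obtain ⟨C, hC⟩ := hloc
  obtain ⟨c, hc⟩ := mk_const hγ (C := C) (by
    filter_upwards [hC] with z hz using hz (h.cv.mem z))
  exact ⟨c, hc⟩

end Pool.Agent.L7h90.WR
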