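import Pool.Agent.L7h90.WR.Crv

/-! The linearised equation of a Wronskian differential. -/

set_option autoImplicit false

open Filter Topology Set Metric MvPolynomial FF

namespace Pool.Agent.L7h90.WR

open Pool.Agent.N155 Pool.Agent.Y190.OP Pool.Agent.W602.GT Pool.Agent.TH143.GT

/-- the first two derivatives of a normalised difference -/
theorem dq_derivs {p q wt : ℂ → ℂ} {a z : ℂ} (hp : AnalyticAt ℂ p z) (hq : AnalyticAt ℂ q z)
    (hwt : ∀ z, HasDerivAt wt (a * wt z) z) :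
    (deriv q z - deriv p z) * wt z = deriv (fun w => (q w - p w) * wt w) z -
      a * ((q z - p z) * wt z) ∧
    (deriv (deriv q) z - deriv (deriv p) z) * wt z =
      deriv (deriv fun w => (q w - p w) * wt w) z -
      2 * a * deriv (fun w => (q w - p w) * wt w) z + a ^ 2 * ((q z - p z) * wt z) := by
  have h1 : ∀ w, AnalyticAt ℂ p w → AnalyticAt ℂ q w →
      deriv (fun w => (q w - p w) * wt w) w =
        (deriv q w - deriv p w) * wt w + (q w - p w) * (a * wt w) := by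
    intro w hpw hqw
    exact ((hqw.differentiableAt.hasDerivAt.sub hpw.differentiableAt.hasDerivAt).mul (hwt w)).deriv
  have h2 : deriv (fun w => (q w - p w) * wt w) =ᶠ[𝓝 z] fun w =>
      (deriv q w - deriv p w) * wt w + (q w - p w) * (a * wt w) := by
    filter_upwards [hp.eventually_analyticAt, hq.eventually_analyticAt] with w k1 k2
    exact h1 w k1 k2
  have h3 := h1 z hp hq
  have h4 : deriv (deriv fun w => (q w - p w) * wt w) z =
      (deriv (deriv q) z - deriv (deriv p) z) * wt z + (deriv q z - deriv p z) * (a * wt z) +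
        ((deriv q z - deriv p z) * (a * wt z) + (q z - p z) * (a * (a * wt z))) := by
    rw [h2.deriv_eq]
    have k1 := (hq.deriv.differentiableAt.hasDerivAt.sub hp.deriv.differentiableAt.hasDerivAt).mul
      (hwt z)
    have k2 := (hq.differentiableAt.hasDerivAt.sub hp.differentiableAt.hasDerivAt).mul
      ((hwt z).const_mul a)
    exact (k1.add k2).deriv
  rw [h4, h3]
  constructor
  · ring
  · ring

section DQ

variable {𝓤 : Ultrafilter ℕ} {w : ℕ → ℂ} {z A B : ℂ}

theorem DQ.pow' {x x' : ℕ → ℂ} {X : ℂ → ℂ} {k : ℕ} (h : DQ 𝓤 w z A B x x' X k) (N : ℕ) :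
    DQ 𝓤 w z A B (fun m => x m ^ N) (fun m => x' m ^ N) (fun z => X z ^ N) (N * k) := by
  induction N with
  | zero =>
    simp only [pow_zero, zero_mul]
    refine ⟨0, hasDerivAt_const _ _, tendsto_const_nhds, tendsto_const_nhds, ?_⟩
    simp only [sub_self, zero_mul, Nat.cast_zero, mul_zero, add_zero]
    exact tendsto_const_nhds
  | succ N ih =>
    simp only [pow_succ]
    rw [Nat.succ_mul]
    exact ih.mul h

end DQ

variable {n : ℕ} {K : Type} [Field K] [Algebra ℂ K] {y : Fin (n + 1) → K}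
  (R : ∀ h : K, Frac y h) {𝓤 : Ultrafilter ℕ} {φ : ℂ → Mat (n + 1)} {P Q : ℕ → ℂ → Mat (n + 1)}
  {wt : ℕ → ℂ → ℂ}

/-- a normalised difference and its derivatives -/
theorem dl_two (h : Dfo y 𝓤 φ P Q wt) {k : K} {z : ℂ} (hz : good R k (φ z)) :
    Tendsto (fun p : ℕ × ℂ => dqf (ev R k) P Q wt p.1 p.2) ((𝓤 : Filter ℕ) ×ˢ 𝓝 z)
      (𝓝 (Dl R 𝓤 P Q wt k z)) ∧
    Tendsto (fun p : ℕ × ℂ => deriv (dqf (ev R k) P Q wt p.1) p.2) ((𝓤 : Filter ℕ) ×ˢ 𝓝 z)
      (𝓝 (deriv (Dl R 𝓤 P Q wt k) z)) ∧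
    Tendsto (fun p : ℕ × ℂ => deriv (deriv (dqf (ev R k) P Q wt p.1)) p.2)
      ((𝓤 : Filter ℕ) ×ˢ 𝓝 z) (𝓝 (deriv (deriv (Dl R 𝓤 P Q wt k)) z)) :=
  cc_two (h.isOpen_good R k) (h.conv R k) (fun _ hz => h.diff_dq R hz) hz

/-- **The linearised equation.** -/
theorem wls (h : Dfo y 𝓤 φ P Q wt) {a : ℕ → ℂ} {α : ℂ}
    (hwt : ∀ m z, HasDerivAt (wt m) (a m * wt m z) z) (ha : Tendsto a 𝓤 (𝓝 α)) {σ : WDif K}
    {c : ℂ} (hc : c ≠ 0) (hN : 0 < σ.N) (hP : ∀ m, WEq R σ c (P m)) (hQ : ∀ m, WEq R σ c (Q m))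
    (hφ : WEq R σ c φ) {g : MK} (hδ : ∀ k, h.del R k = g * MD (h.cv.emb R k)) :
    MD g = algebraMap ℂ MK α * g := by
  obtain ⟨γ, hγ, rfl⟩ := cl_surj g
  rw [MD_cl, ← cl_const, cl_mul, cl_eq]
  have hk : ∀ k : K, ∀ᶠ z in codiscrete ℂ, Dl R 𝓤 P Q wt k z =
      γ z * deriv (fun w => ev R k (φ w)) z := by
    intro k
    have := hδ k
    unfold Dfo.del at this
    rw [Cv.emb_apply, MD_cl, cl_mul, cl_eq] at this
    exact this
  have hW : ∀ᶠ z in codiscrete ℂ, AnalyticAt ℂ γ z ∧ wgood R σ (φ z) ∧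
      Dl R 𝓤 P Q wt σ.h z = γ z * deriv (fun w => ev R σ.h (φ w)) z ∧
      Dl R 𝓤 P Q wt σ.u z = γ z * deriv (fun w => ev R σ.u (φ w)) z ∧
      Dl R 𝓤 P Q wt σ.v z = γ z * deriv (fun w => ev R σ.v (φ w)) z := by
    filter_upwards [mero_an hγ, wgood_codis R h.cv σ, hk σ.h, hk σ.u, hk σ.v]
      with z k1 k2 k3 k4 k5 using ⟨k1, k2, k3, k4, k5⟩
  filter_upwards [hW] with z hz
  have hzn := codis_nhds hW hz
  obtain ⟨hz1, hz2, hz3, -, -⟩ := hz
  rw [Pi.mul_apply]
  set A : ℂ := deriv γ z - α * γ z with hA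
  set B : ℂ := γ z with hB
  have hhj : DQ 𝓤 (fun m => wt m z) z A B (fun m => ev R σ.h (P m z))
      (fun m => ev R σ.h (Q m z)) (fun w => ev R σ.h (φ w)) 0 := by
    refine ⟨_, (h.cv.an R hz2.1).differentiableAt.hasDerivAt,
      (continuousAt_qv hz2.1).tendsto.comp (h.lP.pointwise (mem_univ z)),
      (continuousAt_qv hz2.1).tendsto.comp (h.lQ.pointwise (mem_univ z)), ?_⟩
    have h1 := h.tendsto R hz2.1
    rw [hz3] at h1
    have e1 : γ z * deriv (fun w => ev R σ.h (φ w)) z =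
        ((0 : ℕ) : ℂ) * A * ev R σ.h (φ z) + B * deriv (fun w => ev R σ.h (φ w)) z := by
      rw [hB, Nat.cast_zero]
      ring
    rw [e1] at h1
    exact h1
  -- the derivatives of `u` and `v`
  have hf : ∀ f : K, good R f (φ z) → (∀ᶠ w in 𝓝 z, Dl R 𝓤 P Q wt f w =
      γ w * deriv (fun w => ev R f (φ w)) w) →
      Tendsto (fun m => (deriv (fun w => ev R f (Q m w)) z - deriv (fun w => ev R f (P m w)) z) *
        wt m z) 𝓤 (𝓝 (A * deriv (fun w => ev R f (φ w)) z +
          B * deriv (deriv fun w => ev R f (φ w)) z)) ∧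
      Tendsto (fun m => (deriv (deriv fun w => ev R f (Q m w)) z -
        deriv (deriv fun w => ev R f (P m w)) z) * wt m z) 𝓤
        (𝓝 ((deriv (deriv γ) z - 2 * α * deriv γ z + α ^ 2 * γ z) *
          deriv (fun w => ev R f (φ w)) z + 2 * A * deriv (deriv fun w => ev R f (φ w)) z +
          B * deriv (deriv (deriv fun w => ev R f (φ w))) z)) := by
    intro f hg hD
    obtain ⟨d0, d1, d2⟩ := dl_two R h hg
    have d0' := at_z d0
    have d1' := at_z d1
    have d2' := at_z d2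
    have han := h.cv.an R hg
    set f1 := deriv fun w => ev R f (φ w) with hf1
    have e0 : Dl R 𝓤 P Q wt f z = γ z * f1 z := hD.self_of_nhds
    have e1 : ∀ w, AnalyticAt ℂ γ w → AnalyticAt ℂ f1 w →
        deriv (fun w => γ w * f1 w) w = deriv γ w * f1 w + γ w * deriv f1 w := fun w k1 k2 =>
      (k1.differentiableAt.hasDerivAt.mul k2.differentiableAt.hasDerivAt).deriv
    have hD1 : deriv (Dl R 𝓤 P Q wt f) =ᶠ[𝓝 z] fun w => deriv γ w * f1 w + γ w * deriv f1 w := by
      filter_upwards [hD.eventually_nhds, hz1.eventually_analyticAt,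
        han.deriv.eventually_analyticAt] with w k1 k2 k3
      rw [(show Dl R 𝓤 P Q wt f =ᶠ[𝓝 w] fun w => γ w * f1 w from k1).deriv_eq]
      exact e1 w k2 k3
    have e2 : deriv (Dl R 𝓤 P Q wt f) z = deriv γ z * f1 z + γ z * deriv f1 z := hD1.self_of_nhds
    have e3 : deriv (deriv (Dl R 𝓤 P Q wt f)) z = deriv (deriv γ) z * f1 z +
        2 * deriv γ z * deriv f1 z + γ z * deriv (deriv f1) z := by
      rw [hD1.deriv_eq]
      have k1 := (hz1.deriv.differentiableAt.hasDerivAt.mul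
        han.deriv.differentiableAt.hasDerivAt).add (hz1.differentiableAt.hasDerivAt.mul
        han.deriv.deriv.differentiableAt.hasDerivAt)
      refine k1.deriv.trans ?_
      ring
    rw [e0] at d0'
    rw [e2] at d1'
    rw [e3] at d2'
    have hev : ∀ᶠ m in (𝓤 : Filter ℕ),
        AnalyticAt ℂ (fun w => ev R f (P m w)) z ∧ AnalyticAt ℂ (fun w => ev R f (Q m w)) z := by
      obtain ⟨V, hV, hzV, hm⟩ := h.ev_good R hg
      filter_upwards [hm] with m hm
      exact ⟨an_qv (h.hP m) (mem_univ z) (R f).h1 (R f).h0 (hm z hzV).1,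
        an_qv (h.hQ m) (mem_univ z) (R f).h1 (R f).h0 (hm z hzV).2⟩
    constructor
    · have k1 := d1'.sub (ha.mul d0')
      have k2 : deriv γ z * f1 z + γ z * deriv f1 z - α * (γ z * f1 z) =
          A * f1 z + B * deriv f1 z := by
        rw [hA, hB]
        ring
      rw [k2] at k1
      refine k1.congr' ?_
      filter_upwards [hev] with m hm
      exact (dq_derivs hm.1 hm.2 (hwt m)).1.symm
    · have k1 := (d2'.sub ((ha.const_mul 2).mul d1')).add ((ha.pow 2).mul d0')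
      have k2 : deriv (deriv γ) z * f1 z + 2 * deriv γ z * deriv f1 z + γ z * deriv (deriv f1) z -
          2 * α * (deriv γ z * f1 z + γ z * deriv f1 z) + α ^ 2 * (γ z * f1 z) =
          (deriv (deriv γ) z - 2 * α * deriv γ z + α ^ 2 * γ z) * f1 z + 2 * A * deriv f1 z +
            B * deriv (deriv f1) z := by
        rw [hA, hB]
        ring
      rw [k2] at k1
      refine k1.congr' ?_
      filter_upwards [hev] with m hm
      exact (dq_derivs hm.1 hm.2 (hwt m)).2.symm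
  obtain ⟨u1, u2⟩ := hf σ.u hz2.2.1 (by filter_upwards [hzn] with w hw using hw.2.2.2.1)
  obtain ⟨v1, v2⟩ := hf σ.v hz2.2.2 (by filter_upwards [hzn] with w hw using hw.2.2.2.2)
  obtain ⟨-, pu1, pu2⟩ := ev_two R h.lP h.hP h.cv.hol hz2.2.1
  obtain ⟨-, pv1, pv2⟩ := ev_two R h.lP h.hP h.cv.hol hz2.2.2
  obtain ⟨-, qu1, qu2⟩ := ev_two R h.lQ h.hQ h.cv.hol hz2.2.1
  obtain ⟨-, qv1, qv2⟩ := ev_two R h.lQ h.hQ h.cv.hol hz2.2.2
  have hau := h.cv.an R hz2.2.1
  have hav := h.cv.an R hz2.2.2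
  have hW3 : DQ 𝓤 (fun m => wt m z) z A B
      (fun m => cw (fun w => ev R σ.u (P m w)) (fun w => ev R σ.v (P m w)) z)
      (fun m => cw (fun w => ev R σ.u (Q m w)) (fun w => ev R σ.v (Q m w)) z)
      (cw (fun w => ev R σ.u (φ w)) (fun w => ev R σ.v (φ w))) 3 := by
    set U1 := deriv fun w => ev R σ.u (φ w) with hU1
    set V1 := deriv fun w => ev R σ.v (φ w) with hV1
    refine ⟨U1 z * deriv (deriv V1) z - deriv (deriv U1) z * V1 z, ?_, ?_, ?_, ?_⟩
    · have k1 := (hau.deriv.differentiableAt.hasDerivAt.mul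
        hav.deriv.deriv.differentiableAt.hasDerivAt).sub
        (hau.deriv.deriv.differentiableAt.hasDerivAt.mul hav.deriv.differentiableAt.hasDerivAt)
      refine k1.congr_deriv ?_
      ring
    · exact ((at_z pu1).mul (at_z pv2)).sub ((at_z pu2).mul (at_z pv1))
    · exact ((at_z qu1).mul (at_z qv2)).sub ((at_z qu2).mul (at_z qv1))
    · have k1 := ((u1.mul (at_z qv2)).add ((at_z pu1).mul v2)).sub
        ((u2.mul (at_z qv1)).add ((at_z pu2).mul v1))
      have k2 : (A * U1 z + B * deriv U1 z) * deriv V1 z +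
          U1 z * ((deriv (deriv γ) z - 2 * α * deriv γ z + α ^ 2 * γ z) * V1 z +
            2 * A * deriv V1 z + B * deriv (deriv V1) z) -
          (((deriv (deriv γ) z - 2 * α * deriv γ z + α ^ 2 * γ z) * U1 z +
            2 * A * deriv U1 z + B * deriv (deriv U1) z) * V1 z +
            deriv U1 z * (A * V1 z + B * deriv V1 z)) =
          ((3 : ℕ) : ℂ) * A * cw (fun w => ev R σ.u (φ w)) (fun w => ev R σ.v (φ w)) z +
            B * (U1 z * deriv (deriv V1) z - deriv (deriv U1) z * V1 z) := by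
        unfold cw
        rw [← hU1, ← hV1]
        push_cast
        ring
      rw [k2] at k1
      refine k1.congr fun m => ?_
      unfold cw
      ring
  have hall := hhj.mul (DQ.pow' hW3 σ.N)
  obtain ⟨X1, k1, -, -, k4⟩ := hall
  have hXc : (fun w => ev R σ.h (φ w) *
      cw (fun w => ev R σ.u (φ w)) (fun w => ev R σ.v (φ w)) w ^ σ.N) =ᶠ[𝓝 z] fun _ => c := by
    filter_upwards [hzn] with w hw
    exact hφ w hw.2.1
  have hX1 : X1 = 0 := k1.unique ((hasDerivAt_const z c).congr_of_eventuallyEq hXc)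
  have hXz : ev R σ.h (φ z) *
      cw (fun w => ev R σ.u (φ w)) (fun w => ev R σ.v (φ w)) z ^ σ.N = c := hφ z hz2
  rw [hX1, mul_zero, add_zero] at k4
  beta_reduce at k4
  rw [hXz] at k4
  have hev : ∀ᶠ m in (𝓤 : Filter ℕ), wgood R σ (P m z) ∧ wgood R σ (Q m z) := by
    have hn := (isOpen_wgood R σ).mem_nhds hz2
    exact ((h.lP.pointwise (mem_univ z)).eventually hn).and
      ((h.lQ.pointwise (mem_univ z)).eventually hn)
  have k5 : Tendsto (fun _ : ℕ => (0 : ℂ)) 𝓤 (𝓝 (((0 + σ.N * 3 : ℕ) : ℂ) * A * c)) := by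
    refine k4.congr' ?_
    filter_upwards [hev] with m hm
    have e1 := hP m z hm.1
    have e2 := hQ m z hm.2
    unfold wvl at e1 e2
    rw [e1, e2, sub_self, zero_mul]
  have k6 := tendsto_nhds_unique k5 tendsto_const_nhds
  have k7 : A = 0 := by
    rcases mul_eq_zero.1 k6 with k8 | k8
    · rcases mul_eq_zero.1 k8 with k9 | k9
      · have : (0 + σ.N * 3 : ℕ) = 0 := by exact_mod_cast k9
        omega
      · exact k9
    · exact absurd k8 hc
  exact sub_eq_zero.1 k7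

end Pool.Agent.L7h90.WR
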