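import Pool.Agent.L7h90.WR.Tan
import Pool.Agent.L7h90.GL.Web2

/-! Surfaces of general type with Wronskian differentials: towers. -/

set_option autoImplicit false

open Filter Topology Set Metric MvPolynomial FF LinearAlgebra.Projectivization

namespace Pool.Agent.L7h90.WR

open Pool.Agent.Y190.OP Pool.Agent.W602.GT
open Pool.Agent.N155 (Cv TX TX_PM isCompact_TX nc_of_fderiv ev good nz Frac fr)
open Pool.Agent.N154.GG (SmoothVariety HolMap holP_of holMap_of projDist toProj toProj_Phi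
  Phi_rep_mk Phi_rep_toProj proj_ext)
open Pool.Agent.N154.TB
open Pool.Agent.L7h90.GL
open scoped LinearAlgebra.Projectivization

/-- The smooth projective surfaces with function field `K` have a nonzero regular Wronskian
differential `h * (u' v'' - u'' v') ^ N`. -/
def HasWronskian (K : Type) [Field K] [Algebra ℂ K] : Prop :=
  ∃ σ : WDif K, 0 < σ.N ∧ σ.h ≠ 0 ∧ AlgebraicIndependent ℂ ![σ.u, σ.v] ∧ σ.Regular 2

section smooth

variable {n : ℕ} {ι : Type} {F : ι → MvPolynomial (Fin (n + 1)) ℂ} {K : Type} [Field K]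
  [Algebra ℂ K] {y : Fin (n + 1) → K} {V : Set (ℙ ℂ (Fin (n + 1) → ℂ))}

/-- **Brody curves in closed subsets of surfaces of general type with Wronskian differentials.** -/
theorem wr_curves (hX : SmoothVariety F 2 y) (hgt : GeneralType ℂ K 2) (hW : HasWronskian K)
    (hVX : ∀ p ∈ V, p.rep ∈ Cone F) (hVc : IsClosedProj V)
    (hdeg : ∀ g : ℂ → ℙ ℂ (Fin (n + 1) → ℂ), CurveIn (Cone F) g → ¬ IsConst g → (∀ z, g z ∈ V) →
      Nondeg y g) {g : ℂ → ℙ ℂ (Fin (n + 1) → ℂ)} (hg : CurveIn (Cone F) g) (hne : ¬ IsConst g)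
    (hgV : ∀ z, g z ∈ V) (hgB : IsBrody g) : False := by
  have hnd : ∀ ψ : ℂ → Mat (n + 1), HolP univ ψ → (∀ z, ψ z ∈ TV V) → (∃ z, ψ z ≠ ψ 0) →
      Cv y ψ := by
    intro ψ h1 h2 h3
    obtain ⟨h4, h5, h6⟩ := curve_of hX hVX h1 h2
    refine ⟨h1, fun z => TV_sub hX hVX (h2 z), fun G hG hGy => ?_⟩
    have h7 := hdeg _ h6 (nc_iff.2 (by
      obtain ⟨z, hz⟩ := h3
      refine ⟨z, ?_⟩
      rw [congrFun h4 z, congrFun h4 0]
      exact hz)) h5
    by_contra hcon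
    push Not at hcon
    refine hGy (h7 G hG fun z => ?_)
    by_contra h0
    apply hcon z
    rw [← congrFun h4 z]
    exact (nz_rep hG _).2 h0
  have hol := holP_of hg.1
  have hST : ∀ z, Phi (g z).rep ∈ TV V := fun z => ⟨_, hgV z, rfl⟩
  have hnc := nc_iff.1 hne
  obtain ⟨C, hC⟩ := hgB
  have hB : ∀ z, ‖fderiv ℝ (fun z => Phi (g z).rep) z‖ ≤ (Real.toNNReal C : ℝ) := fun z =>
    norm_fderiv_le_of_lipschitz ℝ (LipschitzWith.of_dist_le_mul fun z w => by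
      rw [dist_eq_norm, dist_eq_norm]
      exact (hC z w).trans (mul_le_mul_of_nonneg_right (Real.le_coe_toNNReal C) (norm_nonneg _)))
  obtain ⟨σ, h1, h2, h3, h4⟩ := hW
  exact wr_all hX hgt (TV_closed hX hVX hVc) (TV_sub hX hVX) hnd hol hST hB hnc
    (fr hX.sub.gen) h1 h2 h3 h4

end smooth

variable {n n₁ n' : ℕ} {ι ι₁ ι' : Type} {F : ι → MvPolynomial (Fin (n + 1)) ℂ}
  {F₁ : ι₁ → MvPolynomial (Fin (n₁ + 1)) ℂ} {F' : ι' → MvPolynomial (Fin (n' + 1)) ℂ}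
  {K K' : Type} [Field K] [Algebra ℂ K] [Field K'] [Algebra ℂ K'] {y : Fin (n + 1) → K}
  {y' : Fin (n' + 1) → K'} {P : Fin (n₁ + 1) → MvPolynomial (Fin (n' + 1)) ℂ}
  {Q : Fin (n + 1) → MvPolynomial (Fin (n₁ + 1)) ℂ} {D : MvPolynomial (Fin (n + 1)) ℂ}

/-- **Entire curves and Wronskian differentials.** -/
theorem tower_wr (h : Tower F' y' P F₁ Q D F y) (hW : HasWronskian K')
    {V : Set (ℙ ℂ (Fin (n + 1) → ℂ))} (hVc : IsClosedProj V)
    (hf : ∃ f, CurveIn (Cone F) f ∧ ¬ IsConst f ∧ ∀ z, f z ∈ V) :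
    ∃ g, CurveIn (Cone F) g ∧ ¬ IsConst g ∧ (∀ z, g z ∈ V) ∧ EllipticClosure g := by
  by_contra hE
  push Not at hE
  set V' : Set (ℙ ℂ (Fin (n' + 1) → ℂ)) := {q | q.rep ∈ Cone F' ∧ img Q (img P q) ∈ V} with hV'
  have hV'X : ∀ p ∈ V', p.rep ∈ Cone F' := fun p hp => hp.1
  have hV'c : IsClosedProj V' := by
    intro p hp
    have hpc : p.rep ∈ Cone F' := mem_cone_of_close h.smooth.form fun ε hε => by
      obtain ⟨q, hq, hd⟩ := hp ε hε
      exact ⟨q, hq.1, hd⟩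
    refine ⟨hpc, hVc _ fun ε hε => ?_⟩
    obtain ⟨δ, hδ, h1⟩ := h.cont hpc hε
    obtain ⟨q, hq, hd⟩ := hp δ hδ
    exact ⟨_, hq.2, h1 q hq.1 hd⟩
  have hdeg : ∀ g' : ℂ → ℙ ℂ (Fin (n' + 1) → ℂ), CurveIn (Cone F') g' → ¬ IsConst g' →
      (∀ z, g' z ∈ V') → Nondeg y' g' := by
    intro g' hg' hgn hgV G hG h0
    by_contra hGy
    have h1 : EllipticClosure g' := elliptic_of_degenerate h.smooth.sub h.smooth.irred
      (holP_of hg'.1) hg'.2 (nonconst_pair hgn) hG hGy h0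
    obtain ⟨h2, h3⟩ := h.push hg' hgn
    exact hE _ h2 h3 (fun z => (hgV z).2) (h.push_ell hg' hgn h1)
  obtain ⟨f, hf, hne, hfV⟩ := hf
  have hD : ∃ z, val (f z).rep D ≠ 0 := by
    by_contra hD
    push Not at hD
    exact hE f hf hne hfV (h.degenerate hf hne hD)
  obtain ⟨f', hf', hff⟩ := h.lift hf hD
  have hne' : ¬ IsConst f' := fun hc => hne fun z w => by rw [hff z, hff w, hc z w]
  obtain ⟨g', hg', hgn, hgV, hgB⟩ := exists_brody h.smooth (V := V') hV'X hV'c hf'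
    (fun z => ⟨hf'.2 z, by rw [← hff z]; exact hfV z⟩) hne'
  exact wr_curves h.smooth h.general hW hV'X hV'c hdeg hg' hgn hgV hgB

/-- **Hyperbolicity.** -/
theorem tower_wr_hyp (h : Tower F' y' P F₁ Q D F y) (hW : HasWronskian K')
    (hell : NoElliptic F) : BrodyHyp (Cone F) := by
  intro f hf
  by_contra hne
  obtain ⟨g, hg, -, -, hge⟩ := tower_wr h hW h.closed_all ⟨f, hf, hne, fun z => hf.2 z⟩
  exact hell.of_closure h.form hg.2 hge

end Pool.Agent.L7h90.WR
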