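import Pool.Agent.L7h90.WR.Def
import Pool.Agent.N155.L.SFin

/-! Wronskian differentials along curves. -/

set_option autoImplicit false

open Filter Topology Set Metric MvPolynomial FF

namespace Pool.Agent.L7h90.WR

open Pool.Agent.N155 Pool.Agent.Y190.OP Pool.Agent.W602.GT Pool.Agent.TH143.GT

/-! ### convergence of derivatives -/

/-- continuous convergence of the derivatives -/
theorem cc_deriv {l : Filter ℕ} [l.NeBot] {U : Set ℂ} (hU : IsOpen U) {h : ℕ → ℂ → ℂ} {H : ℂ → ℂ}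
    (hc : CConv l U h H) (hd : ∀ z ∈ U, ∃ V ∈ 𝓝 z, ∀ᶠ n in l, DifferentiableOn ℂ (h n) V) :
    CConv l U (fun n => deriv (h n)) (deriv H) ∧
      ∀ z ∈ U, ∃ V ∈ 𝓝 z, ∀ᶠ n in l, DifferentiableOn ℂ (deriv (h n)) V := by
  constructor
  · intro z hz
    have hcont : ContinuousAt (deriv H) z := (CConv.an hc hU hz (hd z hz)).1.deriv.continuousAt
    obtain ⟨V, hV, hd'⟩ := hd z hz
    obtain ⟨W, hWV, hW, hzW⟩ := _root_.mem_nhds_iff.1 (inter_mem hV (hU.mem_nhds hz))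
    have h1 : CConv l W h H := fun w hw => hc w (hWV hw).2
    have h2 : ∀ᶠ n in l, DifferentiableOn ℂ (h n) W := by
      filter_upwards [hd'] with n hn
      exact hn.mono fun w hw => (hWV hw).1
    have h3 := (h1.locUnif hW).deriv h2 hW
    rw [Metric.tendstoLocallyUniformlyOn_iff] at h3
    rw [Metric.tendsto_nhds]
    intro ε hε
    obtain ⟨t, ht, h8⟩ := h3 (ε / 2) (by positivity) z hzW
    rw [IsOpen.nhdsWithin_eq hW hzW] at ht
    have h7 := Metric.tendsto_nhds.1 hcont (ε / 2) (by positivity)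
    rw [eventually_prod_iff]
    refine ⟨_, h8, fun w => w ∈ t ∧ dist (deriv H w) (deriv H z) < ε / 2, ?_, ?_⟩
    · exact (show ∀ᶠ w in 𝓝 z, w ∈ t from ht).and h7
    · rintro n hn w ⟨hw1, hw2⟩
      have h9 := hn w hw1
      simp only [Function.comp_apply] at h9
      rw [dist_comm] at h9
      have h10 := dist_triangle (deriv (h n) w) (deriv H w) (deriv H z)
      change dist (deriv (h n) w) (deriv H z) < ε
      linarith
  · intro z hz
    obtain ⟨V, hV, hd'⟩ := hd z hz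
    obtain ⟨W, hWV, hW, hzW⟩ := _root_.mem_nhds_iff.1 hV
    refine ⟨W, hW.mem_nhds hzW, ?_⟩
    filter_upwards [hd'] with n hn
    exact (hn.mono hWV).deriv hW

/-- the first two derivatives -/
theorem cc_two {l : Filter ℕ} [l.NeBot] {U : Set ℂ} (hU : IsOpen U) {h : ℕ → ℂ → ℂ} {H : ℂ → ℂ}
    (hc : CConv l U h H) (hd : ∀ z ∈ U, ∃ V ∈ 𝓝 z, ∀ᶠ n in l, DifferentiableOn ℂ (h n) V) {z : ℂ}
    (hz : z ∈ U) : Tendsto (fun p : ℕ × ℂ => h p.1 p.2) (l ×ˢ 𝓝 z) (𝓝 (H z)) ∧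
      Tendsto (fun p : ℕ × ℂ => deriv (h p.1) p.2) (l ×ˢ 𝓝 z) (𝓝 (deriv H z)) ∧
      Tendsto (fun p : ℕ × ℂ => deriv (deriv (h p.1)) p.2) (l ×ˢ 𝓝 z) (𝓝 (deriv (deriv H) z)) := by
  obtain ⟨h1, h2⟩ := cc_deriv hU hc hd
  exact ⟨hc z hz, h1 z hz, (cc_deriv hU h1 h2).1 z hz⟩

theorem at_z {E : Type*} [TopologicalSpace E] {l : Filter ℕ} {h : ℕ × ℂ → E} {z : ℂ} {L : E}
    (hc : Tendsto h (l ×ˢ 𝓝 z) (𝓝 L)) : Tendsto (fun n => h (n, z)) l (𝓝 L) := by
  have h1 : Tendsto (fun n : ℕ => (n, z)) l (l ×ˢ 𝓝 z) := tendsto_id.prodMk tendsto_const_nhds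
  exact hc.comp h1

/-! ### Wronskians of functions -/

/-- the Wronskian of the derivatives -/
noncomputable def cw (a b : ℂ → ℂ) (z : ℂ) : ℂ :=
  deriv a z * deriv (deriv b) z - deriv (deriv a) z * deriv b z

theorem cw_an {a b : ℂ → ℂ} {z : ℂ} (ha : AnalyticAt ℂ a z) (hb : AnalyticAt ℂ b z) :
    AnalyticAt ℂ (cw a b) z :=
  (ha.deriv.mul hb.deriv.deriv).sub (ha.deriv.deriv.mul hb.deriv)

theorem cw_mero {a b : ℂ → ℂ} (ha : Meromorphic a) (hb : Meromorphic b) : Meromorphic (cw a b) :=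
  (ha.deriv.mul hb.deriv.deriv).sub (ha.deriv.deriv.mul hb.deriv)

theorem cw_codis {a b a' b' : ℂ → ℂ} (h1 : ∀ᶠ z in codiscrete ℂ, a z = a' z)
    (h2 : ∀ᶠ z in codiscrete ℂ, b z = b' z) : ∀ᶠ z in codiscrete ℂ, cw a b z = cw a' b' z := by
  filter_upwards [deriv_codis h1, deriv_codis h2, deriv_codis (deriv_codis h1),
    deriv_codis (deriv_codis h2)] with z k1 k2 k3 k4
  unfold cw
  rw [k1, k2, k3, k4]

variable {n : ℕ} {K : Type} [Field K] [Algebra ℂ K] {y : Fin (n + 1) → K}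
  (R : ∀ h : K, Frac y h)

/-- the value of the Wronskian differential on the curve -/
noncomputable def wvl (σ : WDif K) (φ : ℂ → Mat (n + 1)) (z : ℂ) : ℂ :=
  ev R σ.h (φ z) * cw (fun w => ev R σ.u (φ w)) (fun w => ev R σ.v (φ w)) z ^ σ.N

/-- the coefficients of the Wronskian differential are defined -/
def wgood (σ : WDif K) (M : Mat (n + 1)) : Prop := good R σ.h M ∧ good R σ.u M ∧ good R σ.v M

/-- the differential equation -/
def WEq (σ : WDif K) (c : ℂ) (φ : ℂ → Mat (n + 1)) : Prop :=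
  ∀ z, wgood R σ (φ z) → wvl R σ φ z = c

theorem isOpen_wgood (σ : WDif K) : IsOpen {M : Mat (n + 1) | wgood R σ M} := by
  have h1 : {M : Mat (n + 1) | wgood R σ M} = {M | good R σ.h M} ∩ ({M | good R σ.u M} ∩
      {M | good R σ.v M}) := by
    ext M
    simp only [mem_inter_iff]
    rfl
  rw [h1]
  exact (isOpen_good R _).inter ((isOpen_good R _).inter (isOpen_good R _))

variable {φ : ℂ → Mat (n + 1)}

theorem wgood_codis (h : Cv y φ) (σ : WDif K) : ∀ᶠ z in codiscrete ℂ, wgood R σ (φ z) := by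
  filter_upwards [h.good R σ.h, h.good R σ.u, h.good R σ.v] with z h1 h2 h3 using ⟨h1, h2, h3⟩

theorem WEq.shift {σ : WDif K} {c : ℂ} (h : WEq R σ c φ) (t : ℂ) :
    WEq R σ c (fun w => φ (t + w)) := by
  intro z hz
  have h1 := h (t + z) hz
  unfold wvl cw at h1 ⊢
  rw [← h1]
  have h2 : ∀ f : ℂ → ℂ, deriv (fun w => f (t + w)) = fun w => deriv f (t + w) := fun f =>
    funext fun w => deriv_comp_const_add f t w
  have e1 := h2 fun w => ev R σ.u (φ w)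
  have e2 := h2 fun w => ev R σ.v (φ w)
  simp only [e1, e2]
  have e3 := congrFun (h2 (deriv fun w => ev R σ.u (φ w))) z
  have e4 := congrFun (h2 (deriv fun w => ev R σ.v (φ w))) z
  rw [e3, e4]

theorem wvl_aff (σ : WDif K) (φ : ℂ → Mat (n + 1)) (ρ : ℝ) (z : ℂ) :
    wvl R σ (fun w => φ (aff 0 ρ w)) z = ((ρ : ℂ) ^ 3) ^ σ.N * wvl R σ φ (aff 0 ρ z) := by
  unfold wvl cw
  have h2 : ∀ f : ℂ → ℂ, deriv (fun w => f (aff 0 ρ w)) = fun w => ρ * deriv f (aff 0 ρ w) := by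
    intro f
    funext w
    have h3 := deriv_comp_mul_left (ρ : ℂ) f w
    unfold aff
    simp only [zero_add]
    rw [h3, smul_eq_mul]
  have h4 : ∀ f : ℂ → ℂ, deriv (fun w => (ρ : ℂ) * deriv f (aff 0 ρ w)) z =
      ρ ^ 2 * deriv (deriv f) (aff 0 ρ z) := by
    intro f
    rw [deriv_const_mul_field, congrFun (h2 (deriv f)) z]
    ring
  have e1 := h2 fun w => ev R σ.u (φ w)
  have e2 := h2 fun w => ev R σ.v (φ w)
  simp only [e1, e2, h4]
  set u1 := deriv (fun w => ev R σ.u (φ w)) (aff 0 ρ z)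
  set v1 := deriv (fun w => ev R σ.v (φ w)) (aff 0 ρ z)
  set u2 := deriv (deriv fun w => ev R σ.u (φ w)) (aff 0 ρ z)
  set v2 := deriv (deriv fun w => ev R σ.v (φ w)) (aff 0 ρ z)
  have e : (ρ : ℂ) * u1 * (ρ ^ 2 * v2) - ρ ^ 2 * u2 * (ρ * v1) = ρ ^ 3 * (u1 * v2 - u2 * v1) := by
    ring
  rw [e, mul_pow]
  ring

theorem wvl_mero (h : Cv y φ) (σ : WDif K) : Meromorphic (wvl R σ φ) := fun z =>
  (h.mero R σ.h z).mul ((cw_mero (h.mero R σ.u) (h.mero R σ.v) z).pow σ.N)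

theorem wvl_an (h : Cv y φ) {σ : WDif K} {z : ℂ} (hz : wgood R σ (φ z)) :
    AnalyticAt ℂ (wvl R σ φ) z :=
  (h.an R hz.1).mul ((cw_an (h.an R hz.2.1) (h.an R hz.2.2)).pow σ.N)

/-! ### limits -/

/-- a function along converging curves -/
theorem ev_two {l : Filter ℕ} [l.NeBot] {P : ℕ → ℂ → Mat (n + 1)}
    (hc : CConv l univ P φ) (hP : ∀ m, HolP univ (P m)) (hφ : HolP univ φ) {k : K} {z : ℂ}
    (hz : good R k (φ z)) :
    Tendsto (fun p : ℕ × ℂ => ev R k (P p.1 p.2)) (l ×ˢ 𝓝 z) (𝓝 (ev R k (φ z))) ∧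
    Tendsto (fun p : ℕ × ℂ => deriv (fun w => ev R k (P p.1 w)) p.2) (l ×ˢ 𝓝 z)
      (𝓝 (deriv (fun w => ev R k (φ w)) z)) ∧
    Tendsto (fun p : ℕ × ℂ => deriv (deriv fun w => ev R k (P p.1 w)) p.2) (l ×ˢ 𝓝 z)
      (𝓝 (deriv (deriv fun w => ev R k (φ w)) z)) := by
  have hcont : Continuous φ := continuous_iff_continuousAt.2 fun _ => hφ.continuousAt (mem_univ _)
  have hU : IsOpen {w | nz (R k).G0 (φ w)} := (isOpen_nz _).preimage hcont
  exact cc_two hU (cc_qv hc) (fun z hz => cc_diff hc hP (R k).h1 (R k).h0 hz) hz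

/-- a coordinate along converging curves -/
theorem qv_two {l : Filter ℕ} [l.NeBot] {P : ℕ → ℂ → Mat (n + 1)}
    (hc : CConv l univ P φ) (hP : ∀ m, HolP univ (P m)) (hφ : HolP univ φ) {i j : Fin (n + 1)}
    {z : ℂ} (hz : nz (X i) (φ z)) :
    Tendsto (fun p : ℕ × ℂ => qv (X j) (X i) (P p.1 p.2)) (l ×ˢ 𝓝 z) (𝓝 (qv (X j) (X i) (φ z))) ∧
    Tendsto (fun p : ℕ × ℂ => deriv (fun w => qv (X j) (X i) (P p.1 w)) p.2) (l ×ˢ 𝓝 z)
      (𝓝 (deriv (fun w => qv (X j) (X i) (φ w)) z)) ∧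
    Tendsto (fun p : ℕ × ℂ => deriv (deriv fun w => qv (X j) (X i) (P p.1 w)) p.2) (l ×ˢ 𝓝 z)
      (𝓝 (deriv (deriv fun w => qv (X j) (X i) (φ w)) z)) := by
  have hcont : Continuous φ := continuous_iff_continuousAt.2 fun _ => hφ.continuousAt (mem_univ _)
  have hU : IsOpen {w | nz (X i) (φ w)} := (isOpen_nz _).preimage hcont
  exact cc_two hU (cc_qv hc) (fun z hz => cc_diff hc hP (isHomogeneous_X _ _)
    (isHomogeneous_X _ _) hz) hz

/-- the differential equation is closed -/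
theorem WEq.lim {l : Filter ℕ} [l.NeBot] {P : ℕ → ℂ → Mat (n + 1)}
    (hc : CConv l univ P φ) (hP : ∀ m, HolP univ (P m)) (hφ : HolP univ φ) {σ : WDif K} {c : ℂ}
    (h : ∀ m, WEq R σ c (P m)) : WEq R σ c φ := by
  intro z hz
  obtain ⟨hz1, hz2, hz3⟩ := hz
  have hh := at_z (ev_two R hc hP hφ hz1).1
  obtain ⟨-, u1, u2⟩ := ev_two R hc hP hφ hz2
  obtain ⟨-, v1, v2⟩ := ev_two R hc hP hφ hz3
  have h3 : Tendsto (fun m => wvl R σ (P m) z) l (𝓝 (wvl R σ φ z)) :=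
    hh.mul ((((at_z u1).mul (at_z v2)).sub ((at_z u2).mul (at_z v1))).pow σ.N)
  have h4 : ∀ᶠ m in l, wgood R σ (P m z) :=
    (hc.pointwise (mem_univ z)).eventually ((isOpen_wgood R σ).mem_nhds ⟨hz1, hz2, hz3⟩)
  have h5 : Tendsto (fun _ : ℕ => c) l (𝓝 (wvl R σ φ z)) := by
    refine h3.congr' ?_
    filter_upwards [h4] with m hm
    exact h m z hm
  exact tendsto_nhds_unique h5 tendsto_const_nhds

/-! ### the chain rule -/

/-- the Wronskian in local coordinates -/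
noncomputable def XX (J a0 a1 a2 a3 a b : ℂ → ℂ) (z : ℂ) : ℂ :=
  J z * cw a b z + a0 z * deriv a z ^ 3 + a1 z * (deriv a z ^ 2 * deriv b z) +
    a2 z * (deriv a z * deriv b z ^ 2) + a3 z * deriv b z ^ 3

theorem emb_wr (h : Cv y φ) {x : Fin 2 → K} {E : Fin 2 → Derivation ℂ K K} (hx : Dual x E)
    (u v : K) : MD (h.emb R u) * MD (MD (h.emb R v)) - MD (MD (h.emb R u)) * MD (h.emb R v) =
    h.emb R (cJ E u v) * (MD (h.emb R (x 0)) * MD (MD (h.emb R (x 1))) -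
      MD (MD (h.emb R (x 0))) * MD (h.emb R (x 1))) +
    h.emb R (c0 E u v) * MD (h.emb R (x 0)) ^ 3 +
    h.emb R (c1 E u v) * (MD (h.emb R (x 0)) ^ 2 * MD (h.emb R (x 1))) +
    h.emb R (c2 E u v) * (MD (h.emb R (x 0)) * MD (h.emb R (x 1)) ^ 2) +
    h.emb R (c3 E u v) * MD (h.emb R (x 1)) ^ 3 := by
  set e := h.emb R with he
  have hder : IsDer e (fun k => MD (e k)) := h.isDer R
  have hch : ∀ f : K, MD (e f) = MD (e (x 0)) * e (E 0 f) + MD (e (x 1)) * e (E 1 f) := by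
    intro f
    have := hder.chain hx f
    rwa [Fin.sum_univ_two] at this
  have hch2 : ∀ f : K, MD (MD (e f)) = MD (MD (e (x 0))) * e (E 0 f) + MD (MD (e (x 1))) *
      e (E 1 f) + MD (e (x 0)) * (MD (e (x 0)) * e (E 0 (E 0 f)) + MD (e (x 1)) * e (E 1 (E 0 f))) +
      MD (e (x 1)) * (MD (e (x 0)) * e (E 0 (E 1 f)) + MD (e (x 1)) * e (E 1 (E 1 f))) := by
    intro f
    rw [hch f, MD_add, MD_mul, MD_mul, hch (E 0 f), hch (E 1 f)]
    ring
  rw [hch2 u, hch2 v, hch u, hch v, wr_expand]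
  unfold cJ c0 c1 c2 c3
  simp only [map_sub, map_add, map_mul]

/-- the Wronskian in local coordinates, as functions -/
theorem cw_eq_XX (h : Cv y φ) {i j k : Fin (n + 1)} (hi : y i ≠ 0)
    {E : Fin 2 → Derivation ℂ K K} (hx : Dual ![y j / y i, y k / y i] E) (u v : K) :
    ∀ᶠ z in codiscrete ℂ, cw (fun w => ev R u (φ w)) (fun w => ev R v (φ w)) z =
      XX (fun z => ev R (cJ E u v) (φ z)) (fun z => ev R (c0 E u v) (φ z))
        (fun z => ev R (c1 E u v) (φ z)) (fun z => ev R (c2 E u v) (φ z))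
        (fun z => ev R (c3 E u v) (φ z)) (fun z => qv (X j) (X i) (φ z))
        (fun z => qv (X k) (X i) (φ z)) z := by
  have h1 := emb_wr R h hx u v
  have hq : ∀ l : Fin (n + 1), ∀ᶠ z in codiscrete ℂ, ev R (y l / y i) (φ z) =
      qv (X l) (X i) (φ z) := by
    intro l
    have h2 : ∀ᶠ z in codiscrete ℂ, nz (X i) (φ z) :=
      h.nz ⟨1, isHomogeneous_X _ _⟩ (by rwa [val_X'])
    filter_upwards [h.good R (y l / y i), h2] with z z1 z2
    exact ev_ratio R l hi (h.mem z) z1 z2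
  simp only [Cv.emb_apply, Matrix.cons_val_zero, Matrix.cons_val_one, MD_cl, pow_succ, pow_zero,
    one_mul, cl_mul] at h1
  have hsub : ∀ {f g : ℂ → ℂ} (hf : Meromorphic f) (hg : Meromorphic g),
      cl f hf - cl g hg = cl (f - g) (hf.sub hg) := fun hf hg => rfl
  simp only [hsub, cl_mul, cl_add] at h1
  have h2 := cl_eq.1 h1
  filter_upwards [h2, deriv_codis (hq j), deriv_codis (hq k), deriv_codis (deriv_codis (hq j)),
    deriv_codis (deriv_codis (hq k))] with z z0 z1 z2 z3 z4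
  simp only [Pi.sub_apply, Pi.mul_apply, Pi.add_apply] at z0
  unfold XX cw
  rw [← z1, ← z2, ← z3, ← z4]
  rw [z0]
  ring

end Pool.Agent.L7h90.WR
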