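import Pool.Agent.N155.L.Sym
import Pool.Agent.N155.L.Loc2
import Pool.Agent.W603.LV.Ord

/-! Wronskian differentials of second order, and their local coefficients. -/

set_option autoImplicit false

open Filter Topology Set Metric MvPolynomial FF

namespace Pool.Agent.L7h90.WR

open Pool.Agent.N155 Pool.Agent.Y190.OP Pool.Agent.W602.GT Pool.Agent.TH143.GT
open Pool.Agent.W603.LV (Ge)

/-- A Wronskian differential on the field `K`: the expression `h * (u' v'' - u'' v') ^ N`, with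
rational functions `h`, `u`, `v`. -/
structure WDif (K : Type) where
  N : ℕ
  h : K
  u : K
  v : K

variable {K : Type} [Field K] [Algebra ℂ K]

/-- The value of a Wronskian differential on a vector field. -/
noncomputable def WDif.val (σ : WDif K) (D : Derivation ℂ K K) : K :=
  σ.h * (D σ.u * D (D σ.v) - D (D σ.u) * D σ.v) ^ σ.N

/-- The Wronskian differential is regular on the smooth projective models of `K`, of dimension `w`:
at the discrete valuation ring of a prime divisor its values on the regular vector fields are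
regular. -/
def WDif.Regular (w : ℕ) (σ : WDif K) : Prop :=
  ∀ p : Place ℂ K, Divisorial w p → ∀ D : Derivation ℂ K K, DerReg p D → p.Reg (σ.val D)

/-! ### the coefficients in local coordinates -/

section coeff

variable (E : Fin 2 → Derivation ℂ K K) (u v : K)

/-- the Jacobian -/
noncomputable def cJ : K := E 0 u * E 1 v - E 1 u * E 0 v

/-- the coefficients of the cubic part -/
noncomputable def c0 : K := E 0 u * E 0 (E 0 v) - E 0 (E 0 u) * E 0 v

noncomputable def c1 : K := E 0 u * (E 1 (E 0 v) + E 0 (E 1 v)) + E 1 u * E 0 (E 0 v) -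
  (E 1 (E 0 u) + E 0 (E 1 u)) * E 0 v - E 0 (E 0 u) * E 1 v

noncomputable def c2 : K := E 0 u * E 1 (E 1 v) + E 1 u * (E 1 (E 0 v) + E 0 (E 1 v)) -
  E 1 (E 1 u) * E 0 v - (E 1 (E 0 u) + E 0 (E 1 u)) * E 1 v

noncomputable def c3 : K := E 1 u * E 1 (E 1 v) - E 1 (E 1 u) * E 1 v

end coeff

/-- the chain rule for Wronskians -/
theorem wr_expand {A : Type} [CommRing A] (a1 b1 a2 b2 u0 u1 u00 u01 u10 u11 v0 v1 v00 v01 v10
    v11 : A) :
    (a1 * u0 + b1 * u1) * (a2 * v0 + b2 * v1 + a1 * (a1 * v00 + b1 * v10) +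
        b1 * (a1 * v01 + b1 * v11)) -
      (a2 * u0 + b2 * u1 + a1 * (a1 * u00 + b1 * u10) + b1 * (a1 * u01 + b1 * u11)) *
        (a1 * v0 + b1 * v1) =
    (u0 * v1 - u1 * v0) * (a1 * b2 - a2 * b1) + (u0 * v00 - u00 * v0) * a1 ^ 3 +
      (u0 * (v10 + v01) + u1 * v00 - (u10 + u01) * v0 - u00 * v1) * (a1 ^ 2 * b1) +
      (u0 * v11 + u1 * (v10 + v01) - u11 * v0 - (u10 + u01) * v1) * (a1 * b1 ^ 2) +
      (u1 * v11 - u11 * v1) * b1 ^ 3 := by
  ring

/-- the values on the vector fields `s * E 0 + (t + r * a) * E 1` -/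
theorem val_comb (σ : WDif K) {x : Fin 2 → K} {E : Fin 2 → Derivation ℂ K K} (hx : Dual x E)
    (s t r : ℕ) :
    σ.val ((s : K) • E 0 + ((t : K) + r * x 0) • E 1) = σ.h * (cJ E σ.u σ.v * (s * (r * s)) +
      c0 E σ.u σ.v * s ^ 3 + c1 E σ.u σ.v * (s ^ 2 * (t + r * x 0)) +
      c2 E σ.u σ.v * (s * (t + r * x 0) ^ 2) + c3 E σ.u σ.v * (t + r * x 0) ^ 3) ^ σ.N := by
  have hcast : ∀ (D : Derivation ℂ K K) (m : ℕ), D (m : K) = 0 := fun D m => by
    rw [Derivation.map_natCast]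
  have h00 : E 0 (x 0) = 1 := by have := hx.2 0 0; rwa [if_pos rfl] at this
  have h10 : E 1 (x 0) = 0 := by
    have := hx.2 1 0
    rwa [if_neg (by decide)] at this
  set D : Derivation ℂ K K := (s : K) • E 0 + ((t : K) + r * x 0) • E 1 with hD
  have hDf : ∀ f, D f = s * E 0 f + (t + r * x 0) * E 1 f := fun f => by
    rw [hD, Derivation.add_apply, Derivation.smul_apply, Derivation.smul_apply, smul_eq_mul,
      smul_eq_mul]
  have hDs : D ((t : K) + r * x 0) = r * s := by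
    rw [map_add, hcast, D.leibniz, hcast, hDf, h00, h10]
    simp
  have hDD : ∀ f, D (D f) = 0 * E 0 f + (r * s) * E 1 f +
      s * (s * E 0 (E 0 f) + (t + r * x 0) * E 1 (E 0 f)) +
      (t + r * x 0) * (s * E 0 (E 1 f) + (t + r * x 0) * E 1 (E 1 f)) := by
    intro f
    rw [hDf f, map_add, D.leibniz, D.leibniz, hcast, hDs, hDf (E 0 f), hDf (E 1 f)]
    simp only [smul_eq_mul]
    ring
  unfold WDif.val
  congr 2
  rw [hDD σ.u, hDD σ.v, hDf σ.u, hDf σ.v, wr_expand]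
  unfold cJ c0 c1 c2 c3
  ring

/-! ### regular coefficients -/

/-- `h * x ^ N` is regular -/
def RN (p : Place ℂ K) (h : K) (N : ℕ) (x : K) : Prop := p.Reg (h * x ^ N)

theorem RN.iff {p : Place ℂ K} {h : K} (hh : h ≠ 0) {N : ℕ} (hN : 0 < N) {x : K} :
    RN p h N x ↔ x = 0 ∨ -p.ord h ≤ N * p.ord x := by
  unfold RN
  by_cases hx : x = 0
  · rw [hx, zero_pow hN.ne', mul_zero]
    exact ⟨fun _ => Or.inl rfl, fun _ => p.reg_zero⟩
  · rw [p.reg_iff (mul_ne_zero hh (pow_ne_zero _ hx)), p.ord_mul hh (pow_ne_zero _ hx), p.ord_pow]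
    constructor
    · intro h1
      right
      linarith
    · intro h1
      have := h1.resolve_left hx
      linarith

theorem RN.add {p : Place ℂ K} {h : K} (hh : h ≠ 0) {N : ℕ} (hN : 0 < N) {x x' : K}
    (h1 : RN p h N x) (h2 : RN p h N x') : RN p h N (x + x') := by
  rw [RN.iff hh hN] at h1 h2 ⊢
  by_cases hx : x = 0
  · rwa [hx, zero_add]
  by_cases hx' : x' = 0
  · rwa [hx', add_zero]
  by_cases h3 : x + x' = 0
  · exact Or.inl h3
  right
  have h4 := h1.resolve_left hx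
  have h5 := h2.resolve_left hx'
  have h6 := p.ord_add hx hx' h3
  have hN' : (0 : ℤ) < N := by exact_mod_cast hN
  rcases min_le_iff.1 h6 with h7 | h7
  · exact h4.trans (mul_le_mul_of_nonneg_left h7 hN'.le)
  · exact h5.trans (mul_le_mul_of_nonneg_left h7 hN'.le)

theorem RN.mul {p : Place ℂ K} {h : K} {N : ℕ} {x y : K}
    (h1 : RN p h N x) (h2 : p.Reg y) : RN p h N (x * y) := by
  unfold RN at h1 ⊢
  rw [mul_pow, ← mul_assoc]
  refine p.reg_mul h1 ?_
  have := (show Ge p 0 y from h2).pow N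
  rw [mul_zero] at this
  exact this

theorem RN.neg {p : Place ℂ K} {h : K} {N : ℕ} {x : K} (h1 : RN p h N x) : RN p h N (-x) := by
  have h2 : p.Reg (-1 : K) := p.reg_neg p.reg_one
  have := h1.mul h2
  rwa [mul_neg_one] at this

theorem RN.sub {p : Place ℂ K} {h : K} (hh : h ≠ 0) {N : ℕ} (hN : 0 < N) {x x' : K}
    (h1 : RN p h N x) (h2 : RN p h N x') : RN p h N (x - x') := by
  rw [sub_eq_add_neg]
  exact h1.add hh hN h2.neg

theorem derReg_comb' {p : Place ℂ K} {E : Fin 2 → Derivation ℂ K K} (hE : ∀ l, DerReg p (E l))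
    {f g : K} (hf : p.Reg f) (hg : p.Reg g) : DerReg p (f • E 0 + g • E 1) := by
  intro q hq
  rw [Derivation.add_apply, Derivation.smul_apply, Derivation.smul_apply, smul_eq_mul, smul_eq_mul]
  exact p.reg_add (p.reg_mul hf (hE 0 q hq)) (p.reg_mul hg (hE 1 q hq))

/-- **The coefficients are regular.** -/
theorem reg_coeff {σ : WDif K} (hh : σ.h ≠ 0) (hN : 0 < σ.N) {p : Place ℂ K}
    (hreg : ∀ D : Derivation ℂ K K, DerReg p D → p.Reg (σ.val D)) {x : Fin 2 → K}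
    {E : Fin 2 → Derivation ℂ K K} (hx : Dual x E) (hE : ∀ l, DerReg p (E l))
    (hx0 : p.Reg (x 0)) :
    RN p σ.h σ.N (cJ E σ.u σ.v) ∧ RN p σ.h σ.N (c0 E σ.u σ.v) ∧ RN p σ.h σ.N (c1 E σ.u σ.v) ∧
      RN p σ.h σ.N (c2 E σ.u σ.v) ∧ RN p σ.h σ.N (c3 E σ.u σ.v) := by
  have hnat : ∀ m : ℕ, p.Reg (m : K) := fun m => Ge.natCast (P := p) m
  have key : ∀ s t r : ℕ, RN p σ.h σ.N (cJ E σ.u σ.v * (s * (r * s)) +
      c0 E σ.u σ.v * s ^ 3 + c1 E σ.u σ.v * (s ^ 2 * (t + r * x 0)) +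
      c2 E σ.u σ.v * (s * (t + r * x 0) ^ 2) + c3 E σ.u σ.v * (t + r * x 0) ^ 3) := by
    intro s t r
    unfold RN
    rw [← val_comb σ hx s t r]
    exact hreg _ (derReg_comb' hE (hnat s) (p.reg_add (hnat t) (p.reg_mul (hnat r) hx0)))
  set J := cJ E σ.u σ.v
  set a0 := c0 E σ.u σ.v
  set a1 := c1 E σ.u σ.v
  set a2 := c2 E σ.u σ.v
  set a3 := c3 E σ.u σ.v
  have k0 : RN p σ.h σ.N a0 := by
    have := key 1 0 0
    push_cast at this
    have e : J * (1 * (0 * 1)) + a0 * 1 ^ 3 + a1 * (1 ^ 2 * (0 + 0 * x 0)) +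
      a2 * (1 * (0 + 0 * x 0) ^ 2) + a3 * (0 + 0 * x 0) ^ 3 = a0 := by ring
    rwa [e] at this
  have k3 : RN p σ.h σ.N a3 := by
    have := key 0 1 0
    push_cast at this
    have e : J * (0 * (0 * 0)) + a0 * 0 ^ 3 + a1 * (0 ^ 2 * (1 + 0 * x 0)) +
      a2 * (0 * (1 + 0 * x 0) ^ 2) + a3 * (1 + 0 * x 0) ^ 3 = a3 := by ring
    rwa [e] at this
  have k12 : RN p σ.h σ.N (a1 + a2) := by
    have h1 := ((key 1 1 0).sub hh hN k0).sub hh hN k3
    push_cast at h1
    have e : J * (1 * (0 * 1)) + a0 * 1 ^ 3 + a1 * (1 ^ 2 * (1 + 0 * x 0)) +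
      a2 * (1 * (1 + 0 * x 0) ^ 2) + a3 * (1 + 0 * x 0) ^ 3 - a0 - a3 = a1 + a2 := by ring
    rwa [e] at h1
  obtain ⟨κ, hκ, hκr⟩ : ∃ κ : K, 2 * κ = 1 ∧ p.Reg κ := by
    refine ⟨algebraMap ℂ K (1 / 2), ?_, p.reg_const _⟩
    have h4 : (2 : K) = algebraMap ℂ K 2 := (map_ofNat (algebraMap ℂ K) 2).symm
    rw [h4, ← map_mul]
    norm_num
  have k2 : RN p σ.h σ.N a2 := by
    have h1 := (((key 1 2 0).sub hh hN k0).sub hh hN (k3.mul (hnat 8))).sub hh hN
      (k12.mul (hnat 2))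
    have h2 := h1.mul hκr
    push_cast at h2
    have e : (J * (1 * (0 * 1)) + a0 * 1 ^ 3 + a1 * (1 ^ 2 * (2 + 0 * x 0)) +
      a2 * (1 * (2 + 0 * x 0) ^ 2) + a3 * (2 + 0 * x 0) ^ 3 - a0 - a3 * 8 - (a1 + a2) * 2) *
      κ = a2 := by
      linear_combination a2 * hκ
    rwa [e] at h2
  have k1 : RN p σ.h σ.N a1 := by
    have := k12.sub hh hN k2
    rwa [add_sub_cancel_right] at this
  have kJ : RN p σ.h σ.N J := by
    have h1 := ((((key 1 0 1).sub hh hN k0).sub hh hN (k1.mul hx0)).sub hh hN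
      (k2.mul (p.reg_mul hx0 hx0))).sub hh hN (k3.mul (p.reg_mul (p.reg_mul hx0 hx0) hx0))
    push_cast at h1
    have e : J * (1 * (1 * 1)) + a0 * 1 ^ 3 + a1 * (1 ^ 2 * (0 + 1 * x 0)) +
      a2 * (1 * (0 + 1 * x 0) ^ 2) + a3 * (0 + 1 * x 0) ^ 3 - a0 - a1 * x 0 - a2 * (x 0 * x 0) -
      a3 * (x 0 * x 0 * x 0) = J := by ring
    rwa [e] at h1
  exact ⟨kJ, k0, k1, k2, k3⟩

/-! ### local boundedness -/

variable {n : ℕ} {ι : Type} {F : ι → MvPolynomial (Fin (n + 1)) ℂ} {y : Fin (n + 1) → K}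

/-- local boundedness at `M0` of the functions which are regular at the prime divisors with centre
in an affine chart -/
def LBa (R : ∀ h : K, Frac y h) (M0 : Mat (n + 1)) : Prop :=
  ∃ (i j k : Fin (n + 1)) (E : Fin 2 → Derivation ℂ K K),
  y i ≠ 0 ∧ nz (X i) M0 ∧ Dual ![y j / y i, y k / y i] E ∧
  ∀ q : K, (∀ v : Place ℂ K, Divisorial 2 v → (∀ l, v.Reg (y l / y i)) →
    (∀ l, DerReg v (E l)) → v.Reg q) →
    ∃ O ∈ 𝓝 M0, ∃ C : ℝ, ∀ M ∈ O ∩ TX y, good R q M → ‖ev R q M‖ ≤ C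

theorem lba_of_graph (hy : SubVar F K 2 y) (hF : ∀ i, IsForm (F i))
    (hirr : Cone F ⊆ VarPts ℂ y) (hs : ∀ x ∈ Cone F, GraphAt (Cone F) x) (R : ∀ h : K, Frac y h)
    {M0 : Mat (n + 1)} (hM0 : M0 ∈ TX y) : LBa R M0 := by
  classical
  obtain ⟨x0, hx0, rfl⟩ := hM0
  have hx0C : x0 ∈ Cone F := ⟨hx0.1, fun a => hx0.2 _ (hF a) (hy.mem a)⟩
  set S : Finset (Fin (n + 1)) := Finset.univ.filter fun l => x0 l ≠ 0 with hS
  set G : MvPolynomial (Fin (n + 1)) ℂ := ∏ l ∈ S, X l with hG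
  have hGh : G.IsHomogeneous S.card := by
    have := MvPolynomial.IsHomogeneous.prod S (fun l => (X l : MvPolynomial (Fin (n + 1)) ℂ))
      (fun _ => 1) fun l _ => isHomogeneous_X ℂ l
    rwa [Finset.sum_const, smul_eq_mul, mul_one] at this
  have hG0 : eval x0 G ≠ 0 := by
    rw [hG, map_prod]
    refine Finset.prod_ne_zero_iff.2 fun l hl => ?_
    rw [eval_X]
    exact (Finset.mem_filter.1 hl).2
  obtain ⟨i, j, k, E, h1, h2, h3, h4⟩ := lbp_of_graph hy hF hirr hGh hx0 hG0 (hs x0 hx0C) R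
  refine ⟨i, j, k, E, h1, h2, h3, fun q hq => h4 q fun v hv hc hE => hq v hv (fun l => ?_) hE⟩
  obtain ⟨i', hi', hvG, hreg, hreg'⟩ := hc
  have hxi : x0 i ≠ 0 := by
    have := (nz_Phi (isHomogeneous_X _ _) hx0.1).1 h2
    rwa [eval_X] at this
  have hiS : i ∈ S := Finset.mem_filter.2 ⟨Finset.mem_univ i, hxi⟩
  have hvG' : val y G = ∏ l ∈ S, y l := by
    unfold val
    rw [hG, map_prod]
    exact Finset.prod_congr rfl fun l _ => aeval_X _ _
  have hyS : ∀ l ∈ S, y l ≠ 0 := by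
    intro l hl h0
    apply hvG
    rw [hvG']
    exact Finset.prod_eq_zero hl h0
  have h5 : v.Reg (y i' / y i) := by
    have h6 : y i' / y i = y i' ^ S.card / val y G * ∏ l ∈ S.erase i, (y l / y i') := by
      rw [hvG', Finset.prod_div_distrib, Finset.prod_const, Finset.card_erase_of_mem hiS,
        ← Finset.mul_prod_erase S y hiS]
      have h7 : ∏ l ∈ S.erase i, y l ≠ 0 :=
        Finset.prod_ne_zero_iff.2 fun l hl => hyS l (Finset.mem_of_mem_erase hl)
      have h8 : 0 < S.card := Finset.card_pos.2 ⟨i, hiS⟩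
      obtain ⟨m, hm⟩ : ∃ m, S.card = m + 1 := ⟨S.card - 1, by omega⟩
      rw [hm]
      simp only [Nat.add_sub_cancel]
      have h9 := hyS i hiS
      field_simp
      ring
    rw [h6]
    refine v.reg_mul hreg' ?_
    have := Ge.prod (P := v) (S.erase i) (fun l => y l / y i') (fun _ => 0) fun l _ => hreg l
    rw [Finset.sum_const_zero] at this
    exact this
  have h6 : y l / y i = y l / y i' * (y i' / y i) := by
    field_simp
  rw [h6]
  exact v.reg_mul (hreg l) h5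

end Pool.Agent.L7h90.WR
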