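import Mathlib

/-! The second order term of a rapidly oscillating deformation. -/

set_option autoImplicit false

open Filter Topology Set Metric

namespace Pool.Agent.L7h90.WR

section

variable {ι : Type} {F : Filter ι} {α w : ι → ℂ}
  {a1P a1Q a2P a2Q b1P b1Q b2P b2Q Da Da1 Da2 Db Db1 Db2 : ι → ℂ}
  {a1 a2 b1 b2 γ γ' da2 db2 : ℂ}

/-- the difference of the Wronskians -/
theorem cw_lim (hα : Tendsto (fun p => (α p)⁻¹) F (𝓝 0)) (hα0 : ∀ᶠ p in F, α p ≠ 0)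
    (hw0 : ∀ᶠ p in F, w p ≠ 0) (hw1 : Tendsto (fun p => α p * (w p)⁻¹) F (𝓝 0))
    (hw2 : Tendsto (fun p => α p ^ 2 * (w p)⁻¹) F (𝓝 0))
    (ha1P : Tendsto a1P F (𝓝 a1))
    (ha2P : Tendsto a2P F (𝓝 a2))
    (hb1Q : Tendsto b1Q F (𝓝 b1))
    (hb2Q : Tendsto b2Q F (𝓝 b2))
    (hDa : Tendsto Da F (𝓝 (γ * a1))) (hDa1 : Tendsto Da1 F (𝓝 (γ' * a1 + γ * a2)))
    (hDa2 : Tendsto Da2 F (𝓝 da2)) (hDb : Tendsto Db F (𝓝 (γ * b1)))
    (hDb1 : Tendsto Db1 F (𝓝 (γ' * b1 + γ * b2))) (hDb2 : Tendsto Db2 F (𝓝 db2))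
    (e1 : ∀ᶠ p in F, (a1Q p - a1P p) * w p = Da1 p - α p * Da p)
    (e2 : ∀ᶠ p in F, (a2Q p - a2P p) * w p = Da2 p - 2 * α p * Da1 p + α p ^ 2 * Da p)
    (e3 : ∀ᶠ p in F, (b1Q p - b1P p) * w p = Db1 p - α p * Db p)
    (e4 : ∀ᶠ p in F, (b2Q p - b2P p) * w p = Db2 p - 2 * α p * Db1 p + α p ^ 2 * Db p) :
    Tendsto (fun p => ((a1Q p * b2Q p - a2Q p * b1Q p) - (a1P p * b2P p - a2P p * b1P p)) * w p *
      (α p)⁻¹ - α p * (a1P p * Db p - b1P p * Da p)) F (𝓝 (-3 * γ * (a1 * b2 - a2 * b1))) := by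
  have h1 : Tendsto (fun p => -(Da p * b2Q p) - 2 * (a1P p * Db1 p) + 2 * (Da1 p * b1Q p) +
      a2P p * Db p + (α p)⁻¹ * (Da1 p * b2Q p + a1P p * Db2 p - Da2 p * b1Q p - a2P p * Db1 p) -
      α p * (w p)⁻¹ * (Da p * Db1 p) + α p ^ 2 * (w p)⁻¹ * (Da p * Db p)) F
      (𝓝 (-(γ * a1 * b2) - 2 * (a1 * (γ' * b1 + γ * b2)) + 2 * ((γ' * a1 + γ * a2) * b1) +
        a2 * (γ * b1) + 0 * ((γ' * a1 + γ * a2) * b2 + a1 * db2 - da2 * b1 -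
          a2 * (γ' * b1 + γ * b2)) - 0 * (γ * a1 * (γ' * b1 + γ * b2)) +
          0 * (γ * a1 * (γ * b1)))) :=
    (((((((hDa.mul hb2Q).neg).sub ((ha1P.mul hDb1).const_mul 2)).add
      ((hDa1.mul hb1Q).const_mul 2)).add (ha2P.mul hDb)).add
      (hα.mul ((((hDa1.mul hb2Q).add (ha1P.mul hDb2)).sub (hDa2.mul hb1Q)).sub
        (ha2P.mul hDb1)))).sub (hw1.mul (hDa.mul hDb1))).add (hw2.mul (hDa.mul hDb))
  have h2 : -(γ * a1 * b2) - 2 * (a1 * (γ' * b1 + γ * b2)) + 2 * ((γ' * a1 + γ * a2) * b1) +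
        a2 * (γ * b1) + 0 * ((γ' * a1 + γ * a2) * b2 + a1 * db2 - da2 * b1 -
          a2 * (γ' * b1 + γ * b2)) - 0 * (γ * a1 * (γ' * b1 + γ * b2)) +
          0 * (γ * a1 * (γ * b1)) = -3 * γ * (a1 * b2 - a2 * b1) := by ring
  rw [h2] at h1
  refine h1.congr' ?_
  filter_upwards [hα0, hw0, e1, e2, e3, e4] with p k1 k2 k3 k4 k5 k6
  have g1 : a1Q p = a1P p + (Da1 p - α p * Da p) * (w p)⁻¹ := by
    field_simp
    linear_combination k3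
  have g3 : b1Q p = b1P p + (Db1 p - α p * Db p) * (w p)⁻¹ := by
    field_simp
    linear_combination k5
  have hαα : α p * (α p)⁻¹ = 1 := mul_inv_cancel₀ k1
  have hww : w p * (w p)⁻¹ = 1 := mul_inv_cancel₀ k2
  -- the difference as a combination
  have g5 : ((a1Q p * b2Q p - a2Q p * b1Q p) - (a1P p * b2P p - a2P p * b1P p)) * w p =
      (Da1 p - α p * Da p) * b2Q p + a1P p * (Db2 p - 2 * α p * Db1 p + α p ^ 2 * Db p) -
      (Da2 p - 2 * α p * Da1 p + α p ^ 2 * Da p) * b1Q p - a2P p * (Db1 p - α p * Db p) := by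
    rw [← k3, ← k4, ← k5, ← k6]
    ring
  rw [g5]
  have g6 : α p ^ 2 * Da p * b1Q p = α p ^ 2 * Da p * b1P p + α p ^ 2 * Da p *
      ((Db1 p - α p * Db p) * (w p)⁻¹) := by
    rw [g3]
    ring
  have g7 : ((Da1 p - α p * Da p) * b2Q p + a1P p * (Db2 p - 2 * α p * Db1 p + α p ^ 2 * Db p) -
      (Da2 p - 2 * α p * Da1 p + α p ^ 2 * Da p) * b1Q p - a2P p * (Db1 p - α p * Db p)) =
      (Da1 p - α p * Da p) * b2Q p + a1P p * (Db2 p - 2 * α p * Db1 p + α p ^ 2 * Db p) -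
      (Da2 p - 2 * α p * Da1 p) * b1Q p - (α p ^ 2 * Da p * b1P p + α p ^ 2 * Da p *
      ((Db1 p - α p * Db p) * (w p)⁻¹)) - a2P p * (Db1 p - α p * Db p) := by
    rw [← g6]
    ring
  rw [g7]
  set u := (α p)⁻¹
  set v := (w p)⁻¹
  set A := α p
  linear_combination (-(Da p * b2Q p) - 2 * (a1P p * Db1 p) + a1P p * Db p * A + 2 * (Da1 p * b1Q p) -
    b1P p * Da p * A + a2P p * Db p - A * Da p * Db1 p * v + A ^ 2 * Da p * Db p * v) * (-hαα)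

/-- the difference of the Wronskian differentials -/
theorem key_lim {JP JQ kP kQ lP lQ mP mQ nP nQ : ι → ℂ} {J k l m n dJ dk dl dm dn : ℂ}
    (hα : Tendsto (fun p => (α p)⁻¹) F (𝓝 0)) (hα0 : ∀ᶠ p in F, α p ≠ 0)
    (hw0 : ∀ᶠ p in F, w p ≠ 0) (hw1 : Tendsto (fun p => α p * (w p)⁻¹) F (𝓝 0))
    (hw2 : Tendsto (fun p => α p ^ 2 * (w p)⁻¹) F (𝓝 0))
    (ha1P : Tendsto a1P F (𝓝 a1)) (ha1Q : Tendsto a1Q F (𝓝 a1))
    (ha2P : Tendsto a2P F (𝓝 a2))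
    (hb1P : Tendsto b1P F (𝓝 b1)) (hb1Q : Tendsto b1Q F (𝓝 b1))
    (hb2P : Tendsto b2P F (𝓝 b2)) (hb2Q : Tendsto b2Q F (𝓝 b2))
    (hDa : Tendsto Da F (𝓝 (γ * a1))) (hDa1 : Tendsto Da1 F (𝓝 (γ' * a1 + γ * a2)))
    (hDa2 : Tendsto Da2 F (𝓝 da2)) (hDb : Tendsto Db F (𝓝 (γ * b1)))
    (hDb1 : Tendsto Db1 F (𝓝 (γ' * b1 + γ * b2))) (hDb2 : Tendsto Db2 F (𝓝 db2))
    (e1 : ∀ᶠ p in F, (a1Q p - a1P p) * w p = Da1 p - α p * Da p)
    (e2 : ∀ᶠ p in F, (a2Q p - a2P p) * w p = Da2 p - 2 * α p * Da1 p + α p ^ 2 * Da p)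
    (e3 : ∀ᶠ p in F, (b1Q p - b1P p) * w p = Db1 p - α p * Db p)
    (e4 : ∀ᶠ p in F, (b2Q p - b2P p) * w p = Db2 p - 2 * α p * Db1 p + α p ^ 2 * Db p)
    (hJQ : Tendsto JQ F (𝓝 J)) (hkQ : Tendsto kQ F (𝓝 k)) (hlQ : Tendsto lQ F (𝓝 l))
    (hmQ : Tendsto mQ F (𝓝 m)) (hnQ : Tendsto nQ F (𝓝 n))
    (hdJ : Tendsto (fun p => (JQ p - JP p) * w p) F (𝓝 dJ))
    (hdk : Tendsto (fun p => (kQ p - kP p) * w p) F (𝓝 dk))
    (hdl : Tendsto (fun p => (lQ p - lP p) * w p) F (𝓝 dl))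
    (hdm : Tendsto (fun p => (mQ p - mP p) * w p) F (𝓝 dm))
    (hdn : Tendsto (fun p => (nQ p - nP p) * w p) F (𝓝 dn))
    {XP XQ : ι → ℂ}
    (hXP : ∀ p, XP p = JP p * (a1P p * b2P p - a2P p * b1P p) + kP p * a1P p ^ 3 +
      lP p * (a1P p ^ 2 * b1P p) + mP p * (a1P p * b1P p ^ 2) + nP p * b1P p ^ 3)
    (hXQ : ∀ p, XQ p = JQ p * (a1Q p * b2Q p - a2Q p * b1Q p) + kQ p * a1Q p ^ 3 +
      lQ p * (a1Q p ^ 2 * b1Q p) + mQ p * (a1Q p * b1Q p ^ 2) + nQ p * b1Q p ^ 3) :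
    Tendsto (fun p => (XQ p - XP p) * w p * (α p)⁻¹ -
      JQ p * (α p * (a1P p * Db p - b1P p * Da p))) F
      (𝓝 (-3 * γ * (J * (a1 * b2 - a2 * b1) + k * a1 ^ 3 + l * (a1 ^ 2 * b1) +
        m * (a1 * b1 ^ 2) + n * b1 ^ 3))) := by
  have h0 := cw_lim hα hα0 hw0 hw1 hw2 ha1P ha2P hb1Q hb2Q hDa hDa1 hDa2 hDb hDb1 hDb2
    e1 e2 e3 e4
  -- the normalised differences of the first derivatives
  have hea : Tendsto (fun p => (a1Q p - a1P p) * w p * (α p)⁻¹) F (𝓝 (-(γ * a1))) := by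
    have h1 := (hDa1.mul hα).sub hDa
    rw [mul_zero, zero_sub] at h1
    refine h1.congr' ?_
    filter_upwards [hα0, e1] with p k1 k2
    rw [k2]
    field_simp
  have heb : Tendsto (fun p => (b1Q p - b1P p) * w p * (α p)⁻¹) F (𝓝 (-(γ * b1))) := by
    have h1 := (hDb1.mul hα).sub hDb
    rw [mul_zero, zero_sub] at h1
    refine h1.congr' ?_
    filter_upwards [hα0, e3] with p k1 k2
    rw [k2]
    field_simp
  have hcP : Tendsto (fun p => a1P p * b2P p - a2P p * b1P p) F (𝓝 (a1 * b2 - a2 * b1)) :=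
    (ha1P.mul hb2P).sub (ha2P.mul hb1P)
  set ea : ι → ℂ := fun p => (a1Q p - a1P p) * w p * (α p)⁻¹ with hea'
  set eb : ι → ℂ := fun p => (b1Q p - b1P p) * w p * (α p)⁻¹ with heb'
  have h1 := ((((((((hJQ.mul h0).add ((hdJ.mul hα).mul hcP)).add
    ((hkQ.mul (hea.mul (((ha1Q.pow 2).add (ha1Q.mul ha1P)).add (ha1P.pow 2)))).add
      ((hdk.mul hα).mul (ha1P.pow 3)))).add
    ((hlQ.mul (((hea.mul (ha1Q.add ha1P)).mul hb1Q).add ((ha1P.pow 2).mul heb))).add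
      ((hdl.mul hα).mul ((ha1P.pow 2).mul hb1P)))).add
    ((hmQ.mul ((hea.mul (hb1Q.pow 2)).add (ha1P.mul (heb.mul (hb1Q.add hb1P))))).add
      ((hdm.mul hα).mul (ha1P.mul (hb1P.pow 2))))).add
    ((hnQ.mul (heb.mul (((hb1Q.pow 2).add (hb1Q.mul hb1P)).add (hb1P.pow 2)))).add
      ((hdn.mul hα).mul (hb1P.pow 3))))))
  have h2 : J * (-3 * γ * (a1 * b2 - a2 * b1)) + dJ * 0 * (a1 * b2 - a2 * b1) +
      (k * (-(γ * a1) * (a1 ^ 2 + a1 * a1 + a1 ^ 2)) + dk * 0 * a1 ^ 3) +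
      (l * (-(γ * a1) * (a1 + a1) * b1 + a1 ^ 2 * -(γ * b1)) + dl * 0 * (a1 ^ 2 * b1)) +
      (m * (-(γ * a1) * b1 ^ 2 + a1 * (-(γ * b1) * (b1 + b1))) + dm * 0 * (a1 * b1 ^ 2)) +
      (n * (-(γ * b1) * (b1 ^ 2 + b1 * b1 + b1 ^ 2)) + dn * 0 * b1 ^ 3) =
      -3 * γ * (J * (a1 * b2 - a2 * b1) + k * a1 ^ 3 + l * (a1 ^ 2 * b1) +
        m * (a1 * b1 ^ 2) + n * b1 ^ 3) := by ring
  rw [h2] at h1
  refine h1.congr fun p => ?_
  rw [hXP, hXQ, hea', heb']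
  ring

end

/-- powers of converging functions -/
theorem pow_lim {ι : Type} {F : Filter ι} {XP XQ HP HQ w u : ι → ℂ} {X H c dH : ℂ} {N : ℕ}
    (hN : 0 < N) (hc : c ≠ 0) (hXP : Tendsto XP F (𝓝 X)) (hXQ : Tendsto XQ F (𝓝 X))
    (hHP : Tendsto HP F (𝓝 H)) (hHQ : Tendsto HQ F (𝓝 H)) (hu : Tendsto u F (𝓝 0))
    (hd : Tendsto (fun p => (HQ p - HP p) * w p) F (𝓝 dH))
    (eP : ∀ᶠ p in F, HP p * XP p ^ N = c) (eQ : ∀ᶠ p in F, HQ p * XQ p ^ N = c)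
    (e : H * X ^ N = c) : Tendsto (fun p => (XQ p - XP p) * w p * u p) F (𝓝 0) := by
  have hH : H ≠ 0 := by
    rintro rfl
    exact hc (by rw [← e, zero_mul])
  have hX : X ≠ 0 := by
    rintro rfl
    exact hc (by rw [← e, zero_pow hN.ne', mul_zero])
  have h1 : Tendsto (fun p => ∑ i ∈ Finset.range N, XQ p ^ i * XP p ^ (N - 1 - i)) F
      (𝓝 (∑ i ∈ Finset.range N, X ^ i * X ^ (N - 1 - i))) :=
    tendsto_finsetSum _ fun i _ => (hXQ.pow i).mul (hXP.pow _)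
  have h2 : ∑ i ∈ Finset.range N, X ^ i * X ^ (N - 1 - i) = N * X ^ (N - 1) := by
    have : ∀ i ∈ Finset.range N, X ^ i * X ^ (N - 1 - i) = X ^ (N - 1) := by
      intro i hi
      rw [← pow_add]
      congr 1
      have := Finset.mem_range.1 hi
      omega
    rw [Finset.sum_congr rfl this, Finset.sum_const, Finset.card_range, nsmul_eq_mul]
  have h3 : ∑ i ∈ Finset.range N, X ^ i * X ^ (N - 1 - i) ≠ 0 := by
    rw [h2]
    exact mul_ne_zero (by exact_mod_cast hN.ne') (pow_ne_zero _ hX)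
  have h4 : Tendsto (fun p => -c * ((HQ p - HP p) * w p) / (HQ p * HP p) * u p /
      ∑ i ∈ Finset.range N, XQ p ^ i * XP p ^ (N - 1 - i)) F
      (𝓝 (-c * dH / (H * H) * 0 / ∑ i ∈ Finset.range N, X ^ i * X ^ (N - 1 - i))) :=
    (((hd.const_mul (-c)).div (hHQ.mul hHP) (mul_ne_zero hH hH)).mul hu).div h1 h3
  rw [mul_zero, zero_div] at h4
  refine h4.congr' ?_
  filter_upwards [eP, eQ, hHP.eventually_ne hH, hHQ.eventually_ne hH, h1.eventually_ne h3]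
    with p k1 k2 k3 k4 k5
  rw [div_eq_iff k5]
  have h6 := (Commute.all (XQ p) (XP p)).geom_sum₂_mul N
  have h7 : (XQ p - XP p) * w p * u p * ∑ i ∈ Finset.range N, XQ p ^ i * XP p ^ (N - 1 - i) =
      (XQ p ^ N - XP p ^ N) * w p * u p := by
    rw [← h6]
    ring
  rw [h7]
  have h8 : XQ p ^ N = c / HQ p := by
    rw [eq_div_iff k4, mul_comm]
    exact k2
  have h9 : XP p ^ N = c / HP p := by
    rw [eq_div_iff k3, mul_comm]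
    exact k1
  rw [h8, h9]
  field_simp
  ring

end Pool.Agent.L7h90.WR
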