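import Pool.Agent.L7h90.WR.Gro
import Pool.Agent.L7h90.WR.Key

/-! Rapidly oscillating deformations at the generic points. -/

set_option autoImplicit false

open Filter Topology Set Metric MvPolynomial FF

namespace Pool.Agent.L7h90.WR

open Pool.Agent.N155 Pool.Agent.Y190.OP Pool.Agent.W602.GT Pool.Agent.TH143.GT

variable {n : ℕ} {K : Type} [Field K] [Algebra ℂ K] {y : Fin (n + 1) → K}
  (R : ∀ h : K, Frac y h) {𝓤 : Ultrafilter ℕ} {φ : ℂ → Mat (n + 1)} {P Q : ℕ → ℂ → Mat (n + 1)}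
  {wt : ℕ → ℂ → ℂ}

/-- the coefficients of the Wronskian differential in the coordinates are defined -/
def cgood (E : Fin 2 → Derivation ℂ K K) (σ : WDif K) (i : Fin (n + 1)) (M : Mat (n + 1)) : Prop :=
  good R σ.h M ∧ good R (cJ E σ.u σ.v) M ∧ good R (c0 E σ.u σ.v) M ∧ good R (c1 E σ.u σ.v) M ∧
    good R (c2 E σ.u σ.v) M ∧ good R (c3 E σ.u σ.v) M ∧ nz (X i) M

theorem isOpen_cgood (E : Fin 2 → Derivation ℂ K K) (σ : WDif K) (i : Fin (n + 1)) :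
    IsOpen {M : Mat (n + 1) | cgood R E σ i M} := by
  have h1 : {M : Mat (n + 1) | cgood R E σ i M} = {M | good R σ.h M} ∩
      ({M | good R (cJ E σ.u σ.v) M} ∩ ({M | good R (c0 E σ.u σ.v) M} ∩
      ({M | good R (c1 E σ.u σ.v) M} ∩ ({M | good R (c2 E σ.u σ.v) M} ∩
      ({M | good R (c3 E σ.u σ.v) M} ∩ {M | nz (X i) M}))))) := by
    ext M
    simp only [mem_inter_iff]
    rfl
  rw [h1]
  exact (isOpen_good R _).inter ((isOpen_good R _).inter ((isOpen_good R _).inter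
    ((isOpen_good R _).inter ((isOpen_good R _).inter ((isOpen_good R _).inter (isOpen_nz _))))))

theorem cgood_codis (h : Cv y φ) (E : Fin 2 → Derivation ℂ K K) (σ : WDif K) {i : Fin (n + 1)}
    (hi : y i ≠ 0) : ∀ᶠ z in codiscrete ℂ, cgood R E σ i (φ z) := by
  have h2 : ∀ᶠ z in codiscrete ℂ, nz (X i) (φ z) :=
    h.nz ⟨1, isHomogeneous_X _ _⟩ (by rwa [val_X'])
  filter_upwards [h.good R σ.h, h.good R (cJ E σ.u σ.v), h.good R (c0 E σ.u σ.v),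
    h.good R (c1 E σ.u σ.v), h.good R (c2 E σ.u σ.v), h.good R (c3 E σ.u σ.v), h2]
    with z k1 k2 k3 k4 k5 k6 k7 using ⟨k1, k2, k3, k4, k5, k6, k7⟩

/-- the Wronskian in the coordinates along a curve -/
noncomputable def XE (E : Fin 2 → Derivation ℂ K K) (σ : WDif K) (i j k : Fin (n + 1))
    (φ : ℂ → Mat (n + 1)) (z : ℂ) : ℂ :=
  XX (fun z => ev R (cJ E σ.u σ.v) (φ z)) (fun z => ev R (c0 E σ.u σ.v) (φ z))
        (fun z => ev R (c1 E σ.u σ.v) (φ z)) (fun z => ev R (c2 E σ.u σ.v) (φ z))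
        (fun z => ev R (c3 E σ.u σ.v) (φ z)) (fun z => qv (X j) (X i) (φ z))
        (fun z => qv (X k) (X i) (φ z)) z

theorem XE_an (h : Cv y φ) {E : Fin 2 → Derivation ℂ K K} {σ : WDif K} {i : Fin (n + 1)}
    (j k : Fin (n + 1)) {z : ℂ} (hz : cgood R E σ i (φ z)) : AnalyticAt ℂ (XE R E σ i j k φ) z := by
  obtain ⟨k1, k2, k3, k4, k5, k6, k7⟩ := hz
  have ha : AnalyticAt ℂ (fun z => qv (X j) (X i) (φ z)) z :=
    an_qv h.hol (mem_univ z) (isHomogeneous_X _ _) (isHomogeneous_X _ _) k7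
  have hb : AnalyticAt ℂ (fun z => qv (X k) (X i) (φ z)) z :=
    an_qv h.hol (mem_univ z) (isHomogeneous_X _ _) (isHomogeneous_X _ _) k7
  unfold XE
  exact (((((h.an R k2).mul (cw_an ha hb)).add ((h.an R k3).mul (ha.deriv.pow 3))).add
    ((h.an R k4).mul ((ha.deriv.pow 2).mul hb.deriv))).add
    ((h.an R k5).mul (ha.deriv.mul (hb.deriv.pow 2)))).add ((h.an R k6).mul (hb.deriv.pow 3))

/-- the differential equation in the coordinates -/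
theorem xe_eq (h : Cv y φ) {E : Fin 2 → Derivation ℂ K K} {σ : WDif K} {i j k : Fin (n + 1)}
    (hi : y i ≠ 0) (hx : Dual ![y j / y i, y k / y i] E) {c : ℂ} (hw : WEq R σ c φ) {z : ℂ}
    (hz : cgood R E σ i (φ z)) : ev R σ.h (φ z) * XE R E σ i j k φ z ^ σ.N = c := by
  have h1 : ∀ᶠ z in codiscrete ℂ, ev R σ.h (φ z) * XE R E σ i j k φ z ^ σ.N = c := by
    filter_upwards [cw_eq_XX R h hi hx σ.u σ.v, wgood_codis R h σ] with w k1 k2
    have k3 := hw w k2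
    unfold wvl at k3
    rw [k1] at k3
    exact k3
  exact eq_of_codis h1 (((h.an R hz.1).mul ((XE_an R h j k hz).pow σ.N)).continuousAt)
    continuousAt_const

/-- the normal component of the deformation -/
noncomputable def NN (i j k : Fin (n + 1)) (P Q : ℕ → ℂ → Mat (n + 1)) (wt : ℕ → ℂ → ℂ) (m : ℕ)
    (z : ℂ) : ℂ :=
  deriv (fun w => qv (X j) (X i) (P m w)) z * dqf (qv (X k) (X i)) P Q wt m z -
    deriv (fun w => qv (X k) (X i) (P m w)) z * dqf (qv (X j) (X i)) P Q wt m z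

omit R in
/-- a coordinate is differentiable -/
theorem diff_dqq (h : Dfo y 𝓤 φ P Q wt) (i j : Fin (n + 1)) {z : ℂ} (hz : nz (X i) (φ z)) :
    ∃ V ∈ 𝓝 z, ∀ᶠ m in (𝓤 : Filter ℕ), DifferentiableOn ℂ (dqf (qv (X j) (X i)) P Q wt m) V := by
  obtain ⟨V, hV, hzV, -, hm⟩ := h.ev_mem ((isOpen_nz (X i)).mem_nhds hz)
  refine ⟨V, hV.mem_nhds hzV, ?_⟩
  filter_upwards [hm] with m h1 w hw
  apply DifferentiableAt.differentiableWithinAt
  unfold dqf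
  apply DifferentiableAt.mul _ ((h.wd m) w)
  apply DifferentiableAt.sub
  · exact (an_qv (h.hQ m) (mem_univ w) (isHomogeneous_X _ _) (isHomogeneous_X _ _)
      (h1 w hw).2).differentiableAt
  · exact (an_qv (h.hP m) (mem_univ w) (isHomogeneous_X _ _) (isHomogeneous_X _ _)
      (h1 w hw).1).differentiableAt

omit R in
theorem diff_NN (h : Dfo y 𝓤 φ P Q wt) (i j k : Fin (n + 1)) {z : ℂ} (hz : nz (X i) (φ z)) :
    ∃ V ∈ 𝓝 z, ∀ᶠ m in (𝓤 : Filter ℕ), DifferentiableOn ℂ (NN i j k P Q wt m) V := by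
  obtain ⟨V1, hV1, h1⟩ := diff_dqq h i j hz
  obtain ⟨V2, hV2, h2⟩ := diff_dqq h i k hz
  obtain ⟨V3, hV3, hzV3, -, h3⟩ := h.ev_mem ((isOpen_nz (X i)).mem_nhds hz)
  refine ⟨V1 ∩ V2 ∩ V3, inter_mem (inter_mem hV1 hV2) (hV3.mem_nhds hzV3), ?_⟩
  filter_upwards [h1, h2, h3] with m k1 k2 k3
  have k4 : ∀ l : Fin (n + 1), DifferentiableOn ℂ (deriv fun w => qv (X l) (X i) (P m w))
      (V1 ∩ V2 ∩ V3) := fun l w hw =>
    (an_qv (h.hP m) (mem_univ w) (isHomogeneous_X _ _) (isHomogeneous_X _ _)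
      (k3 w hw.2).1).deriv.differentiableAt.differentiableWithinAt
  unfold NN
  exact ((k4 j).mul (k2.mono fun w hw => hw.1.2)).sub ((k4 k).mul (k1.mono fun w hw => hw.1.1))

/-- a normalised difference of the coordinates and its derivatives -/
theorem dqq_two (h : Dfo y 𝓤 φ P Q wt) {i j : Fin (n + 1)} (hi : y i ≠ 0) {z : ℂ}
    (hg : good R (y j / y i) (φ z)) (hz : nz (X i) (φ z)) {γ : ℂ → ℂ} (hγ : AnalyticAt ℂ γ z)
    (hD : ∀ᶠ w in 𝓝 z, Dl R 𝓤 P Q wt (y j / y i) w =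
      γ w * deriv (fun w => ev R (y j / y i) (φ w)) w) :
    Tendsto (fun p : ℕ × ℂ => dqf (qv (X j) (X i)) P Q wt p.1 p.2) ((𝓤 : Filter ℕ) ×ˢ 𝓝 z)
      (𝓝 (γ z * deriv (fun w => qv (X j) (X i) (φ w)) z)) ∧
    Tendsto (fun p : ℕ × ℂ => deriv (dqf (qv (X j) (X i)) P Q wt p.1) p.2)
      ((𝓤 : Filter ℕ) ×ˢ 𝓝 z) (𝓝 (deriv γ z * deriv (fun w => qv (X j) (X i) (φ w)) z +
        γ z * deriv (deriv fun w => qv (X j) (X i) (φ w)) z)) ∧
    ∃ d : ℂ, Tendsto (fun p : ℕ × ℂ => deriv (deriv (dqf (qv (X j) (X i)) P Q wt p.1)) p.2)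
      ((𝓤 : Filter ℕ) ×ˢ 𝓝 z) (𝓝 d) := by
  have hU : IsOpen {w | nz (X i) (φ w)} := (isOpen_nz _).preimage h.cont
  have hconv := h.dqf_conv (F := qv (X j) (X i)) (U := {w | nz (X i) (φ w)})
    (fun _ hz => contDiffAt_qv hz) (fun w hw => diff_dqq h i j hw)
  obtain ⟨t0, t1, t2⟩ := cc_two hU hconv (fun w hw => diff_dqq h i j hw) hz
  set L : ℂ → ℂ := fun z => ulim 𝓤 (fun m => dqf (qv (X j) (X i)) P Q wt m z) with hL
  have hLz : L =ᶠ[𝓝 z] fun w => γ w * deriv (fun w => qv (X j) (X i) (φ w)) w := by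
    have hg' : ∀ᶠ w in 𝓝 z, good R (y j / y i) (φ w) := (h.isOpen_good R _).mem_nhds hg
    have hn' : ∀ᶠ w in 𝓝 z, nz (X i) (φ w) := hU.mem_nhds hz
    filter_upwards [hD, hg'.eventually_nhds, hn'.eventually_nhds] with w k1 k2 k3
    have k4 : deriv (fun w => ev R (y j / y i) (φ w)) w =
        deriv (fun w => qv (X j) (X i) (φ w)) w := by
      apply EventuallyEq.deriv_eq
      filter_upwards [k2, k3] with w' m1 m2
      exact ev_ratio R j hi (h.cv.mem w') m1 m2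
    rw [← k4, ← k1]
    have k5 := hconv.pointwise (show w ∈ {w | nz (X i) (φ w)} from k3.self_of_nhds)
    refine tendsto_nhds_unique k5 ((h.tendsto R k2.self_of_nhds).congr' ?_)
    obtain ⟨V, hV, hzV, hm⟩ := h.ev_good R k2.self_of_nhds
    obtain ⟨V', hV', hzV', -, hm'⟩ := h.ev_mem ((isOpen_nz (X i)).mem_nhds k3.self_of_nhds)
    filter_upwards [hm, hm'] with m m1 m2
    unfold dqf
    rw [ev_ratio R j hi (h.mQ m w) (m1 w hzV).2 (m2 w hzV').2,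
      ev_ratio R j hi (h.mP m w) (m1 w hzV).1 (m2 w hzV').1]
  have ha : AnalyticAt ℂ (fun w => qv (X j) (X i) (φ w)) z :=
    an_qv h.cv.hol (mem_univ z) (isHomogeneous_X _ _) (isHomogeneous_X _ _) hz
  refine ⟨?_, ?_, ⟨_, t2⟩⟩
  · have h4 : Tendsto (fun p : ℕ × ℂ => dqf (qv (X j) (X i)) P Q wt p.1 p.2)
        ((𝓤 : Filter ℕ) ×ˢ 𝓝 z) (𝓝 (L z)) := t0
    rw [hLz.self_of_nhds] at h4
    exact h4
  · have h3 : deriv L z = deriv γ z * deriv (fun w => qv (X j) (X i) (φ w)) z +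
        γ z * deriv (deriv fun w => qv (X j) (X i) (φ w)) z := by
      rw [hLz.deriv_eq]
      exact (hγ.differentiableAt.hasDerivAt.mul ha.deriv.differentiableAt.hasDerivAt).deriv
    rw [h3] at t1
    exact t1

/-- **The normal component.** -/
theorem nn_lim {a κ : ℕ → ℂ} (h : Dfo y 𝓤 φ P Q (fun m z => κ m * Complex.exp (a m * z)))
    (hinf : ∀ C : ℝ, ∀ᶠ m in (𝓤 : Filter ℕ), C ≤ ‖a m‖) {z : ℂ}
    (hgr : ∀ᶠ p : ℕ × ℂ in (𝓤 : Filter ℕ) ×ˢ 𝓝 z,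
      Real.exp (‖a p.1‖ / 2) ≤ ‖κ p.1 * Complex.exp (a p.1 * p.2)‖)
    (cvP : ∀ m, Cv y (P m)) (cvQ : ∀ m, Cv y (Q m)) {σ : WDif K} {c : ℂ} (hc : c ≠ 0)
    (hN : 0 < σ.N) (hP : ∀ m, WEq R σ c (P m)) (hQ : ∀ m, WEq R σ c (Q m))
    (hφ : WEq R σ c φ) {E : Fin 2 → Derivation ℂ K K} {i j k : Fin (n + 1)}
    (hi : y i ≠ 0) (hx : Dual ![y j / y i, y k / y i] E) (hz : cgood R E σ i (φ z))
    (hgj : good R (y j / y i) (φ z)) (hgk : good R (y k / y i) (φ z)) {γ : ℂ → ℂ}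
    (hγ : AnalyticAt ℂ γ z)
    (hDj : ∀ᶠ w in 𝓝 z, Dl R 𝓤 P Q (fun m z => κ m * Complex.exp (a m * z)) (y j / y i) w =
      γ w * deriv (fun w => ev R (y j / y i) (φ w)) w)
    (hDk : ∀ᶠ w in 𝓝 z, Dl R 𝓤 P Q (fun m z => κ m * Complex.exp (a m * z)) (y k / y i) w =
      γ w * deriv (fun w => ev R (y k / y i) (φ w)) w)
    (hJ : ev R (cJ E σ.u σ.v) (φ z) ≠ 0) :
    Tendsto (fun p : ℕ × ℂ => a p.1 * NN i j k P Q (fun m z => κ m * Complex.exp (a m * z))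
      p.1 p.2) ((𝓤 : Filter ℕ) ×ˢ 𝓝 z)
      (𝓝 (3 * γ z * XE R E σ i j k φ z / ev R (cJ E σ.u σ.v) (φ z))) := by
  obtain ⟨l1, l2, l3, l4, l5⟩ := wt_lims hinf hgr
  have hzn : nz (X i) (φ z) := hz.2.2.2.2.2.2
  obtain ⟨da0, da1, dda, da2⟩ := dqq_two R h hi hgj hzn hγ hDj
  obtain ⟨db0, db1, ddb, db2⟩ := dqq_two R h hi hgk hzn hγ hDk
  obtain ⟨pa0, pa1, pa2⟩ := qv_two (j := j) h.lP h.hP h.cv.hol hzn
  obtain ⟨pb0, pb1, pb2⟩ := qv_two (j := k) h.lP h.hP h.cv.hol hzn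
  obtain ⟨qa0, qa1, qa2⟩ := qv_two (j := j) h.lQ h.hQ h.cv.hol hzn
  obtain ⟨qb0, qb1, qb2⟩ := qv_two (j := k) h.lQ h.hQ h.cv.hol hzn
  have hnP : ∀ᶠ p : ℕ × ℂ in (𝓤 : Filter ℕ) ×ˢ 𝓝 z, cgood R E σ i (P p.1 p.2) :=
    (h.lP z (mem_univ z)).eventually ((isOpen_cgood R E σ i).mem_nhds hz)
  have hnQ : ∀ᶠ p : ℕ × ℂ in (𝓤 : Filter ℕ) ×ˢ 𝓝 z, cgood R E σ i (Q p.1 p.2) :=
    (h.lQ z (mem_univ z)).eventually ((isOpen_cgood R E σ i).mem_nhds hz)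
  have hdq : ∀ l : Fin (n + 1), ∀ᶠ p : ℕ × ℂ in (𝓤 : Filter ℕ) ×ˢ 𝓝 z,
      (deriv (fun w => qv (X l) (X i) (Q p.1 w)) p.2 -
        deriv (fun w => qv (X l) (X i) (P p.1 w)) p.2) * (κ p.1 * Complex.exp (a p.1 * p.2)) =
        deriv (dqf (qv (X l) (X i)) P Q (fun m z => κ m * Complex.exp (a m * z)) p.1) p.2 -
        a p.1 * dqf (qv (X l) (X i)) P Q (fun m z => κ m * Complex.exp (a m * z)) p.1 p.2 ∧
      (deriv (deriv fun w => qv (X l) (X i) (Q p.1 w)) p.2 -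
        deriv (deriv fun w => qv (X l) (X i) (P p.1 w)) p.2) *
          (κ p.1 * Complex.exp (a p.1 * p.2)) =
        deriv (deriv (dqf (qv (X l) (X i)) P Q (fun m z => κ m * Complex.exp (a m * z)) p.1)) p.2 -
        2 * a p.1 *
          deriv (dqf (qv (X l) (X i)) P Q (fun m z => κ m * Complex.exp (a m * z)) p.1) p.2 +
        a p.1 ^ 2 * dqf (qv (X l) (X i)) P Q (fun m z => κ m * Complex.exp (a m * z)) p.1 p.2 := by
    intro l
    filter_upwards [hnP, hnQ] with p k1 k2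
    exact dq_derivs (an_qv (h.hP p.1) (mem_univ p.2) (isHomogeneous_X _ _) (isHomogeneous_X _ _)
      k1.2.2.2.2.2.2) (an_qv (h.hQ p.1) (mem_univ p.2) (isHomogeneous_X _ _)
      (isHomogeneous_X _ _) k2.2.2.2.2.2.2) (fun z => exp_der (κ p.1) (a p.1) z)
  obtain ⟨g1, g2, g3, g4, g5, g6, g7⟩ := hz
  obtain ⟨rJ, -, -⟩ := dl_two R h g2
  obtain ⟨r0, -, -⟩ := dl_two R h g3
  obtain ⟨r1, -, -⟩ := dl_two R h g4
  obtain ⟨r2, -, -⟩ := dl_two R h g5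
  obtain ⟨r3, -, -⟩ := dl_two R h g6
  obtain ⟨rh, -, -⟩ := dl_two R h g1
  have qJ := (ev_two R h.lQ h.hQ h.cv.hol g2).1
  have q0 := (ev_two R h.lQ h.hQ h.cv.hol g3).1
  have q1 := (ev_two R h.lQ h.hQ h.cv.hol g4).1
  have q2 := (ev_two R h.lQ h.hQ h.cv.hol g5).1
  have q3 := (ev_two R h.lQ h.hQ h.cv.hol g6).1
  have qh := (ev_two R h.lQ h.hQ h.cv.hol g1).1
  have pJ := (ev_two R h.lP h.hP h.cv.hol g2).1
  have p0 := (ev_two R h.lP h.hP h.cv.hol g3).1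
  have p1 := (ev_two R h.lP h.hP h.cv.hol g4).1
  have p2 := (ev_two R h.lP h.hP h.cv.hol g5).1
  have p3 := (ev_two R h.lP h.hP h.cv.hol g6).1
  have ph := (ev_two R h.lP h.hP h.cv.hol g1).1
  have key := key_lim (F := (𝓤 : Filter ℕ) ×ˢ 𝓝 z) (α := fun p => a p.1)
    (w := fun p => κ p.1 * Complex.exp (a p.1 * p.2)) l1 l2 l3 l4 l5 pa1 qa1 pa2 pb1 qb1 pb2 qb2
    da0 da1 da2 db0 db1 db2 ((hdq j).mono fun _ h => h.1) ((hdq j).mono fun _ h => h.2)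
    ((hdq k).mono fun _ h => h.1) ((hdq k).mono fun _ h => h.2) qJ q0 q1 q2 q3 rJ r0 r1 r2 r3
    (XP := fun p => XE R E σ i j k (P p.1) p.2) (XQ := fun p => XE R E σ i j k (Q p.1) p.2)
    (fun p => rfl) (fun p => rfl)
  have hXP : Tendsto (fun p : ℕ × ℂ => XE R E σ i j k (P p.1) p.2) ((𝓤 : Filter ℕ) ×ˢ 𝓝 z)
      (𝓝 (XE R E σ i j k φ z)) :=
    ((((pJ.mul ((pa1.mul pb2).sub (pa2.mul pb1))).add (p0.mul (pa1.pow 3))).add
      (p1.mul ((pa1.pow 2).mul pb1))).add (p2.mul (pa1.mul (pb1.pow 2)))).add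
      (p3.mul (pb1.pow 3))
  have hXQ : Tendsto (fun p : ℕ × ℂ => XE R E σ i j k (Q p.1) p.2) ((𝓤 : Filter ℕ) ×ˢ 𝓝 z)
      (𝓝 (XE R E σ i j k φ z)) :=
    ((((qJ.mul ((qa1.mul qb2).sub (qa2.mul qb1))).add (q0.mul (qa1.pow 3))).add
      (q1.mul ((qa1.pow 2).mul qb1))).add (q2.mul (qa1.mul (qb1.pow 2)))).add
      (q3.mul (qb1.pow 3))
  have hpow := pow_lim (w := fun p : ℕ × ℂ => κ p.1 * Complex.exp (a p.1 * p.2))
    (u := fun p : ℕ × ℂ => (a p.1)⁻¹) hN hc hXP hXQ ph qh l1 rh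
    (by filter_upwards [hnP] with p k1 using xe_eq R (cvP p.1) hi hx (hP p.1) k1)
    (by filter_upwards [hnQ] with p k1 using xe_eq R (cvQ p.1) hi hx (hQ p.1) k1)
    (xe_eq R h.cv hi hx hφ ⟨g1, g2, g3, g4, g5, g6, g7⟩)
  have h5 := hpow.sub key
  have h6 := h5.div qJ hJ
  have h7 : (0 - -3 * γ z * XE R E σ i j k φ z) / ev R (cJ E σ.u σ.v) (φ z) =
      3 * γ z * XE R E σ i j k φ z / ev R (cJ E σ.u σ.v) (φ z) := by
    ring
  have h8 : (0 - -3 * γ z * (ev R (cJ E σ.u σ.v) (φ z) *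
      (deriv (fun w => qv (X j) (X i) (φ w)) z * deriv (deriv fun w => qv (X k) (X i) (φ w)) z -
        deriv (deriv fun w => qv (X j) (X i) (φ w)) z * deriv (fun w => qv (X k) (X i) (φ w)) z) +
      ev R (c0 E σ.u σ.v) (φ z) * deriv (fun w => qv (X j) (X i) (φ w)) z ^ 3 +
      ev R (c1 E σ.u σ.v) (φ z) * (deriv (fun w => qv (X j) (X i) (φ w)) z ^ 2 *
        deriv (fun w => qv (X k) (X i) (φ w)) z) +
      ev R (c2 E σ.u σ.v) (φ z) * (deriv (fun w => qv (X j) (X i) (φ w)) z *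
        deriv (fun w => qv (X k) (X i) (φ w)) z ^ 2) +
      ev R (c3 E σ.u σ.v) (φ z) * deriv (fun w => qv (X k) (X i) (φ w)) z ^ 3)) /
        ev R (cJ E σ.u σ.v) (φ z) =
      3 * γ z * XE R E σ i j k φ z / ev R (cJ E σ.u σ.v) (φ z) := h7
  rw [h8] at h6
  refine h6.congr' ?_
  filter_upwards [qJ.eventually_ne hJ] with p k1
  rw [Pi.div_apply, div_eq_iff k1]
  unfold NN
  ring

end Pool.Agent.L7h90.WR
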