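import Pool.Agent.L7h90.WR.Lin
import Pool.Agent.N155.L.Tgt

/-! Rapidly oscillating deformations: the growth of the weights, and the maximum principle. -/

set_option autoImplicit false

open Filter Topology Set Metric MvPolynomial FF

namespace Pool.Agent.L7h90.WR

open Pool.Agent.N155 Pool.Agent.Y190.OP Pool.Agent.W602.GT Pool.Agent.TH143.GT

/-- the maximum principle for sequences -/
theorem seq_max {l : Filter ℕ} {F : ℕ → ℂ → ℂ} {z0 : ℂ} {ρ : ℝ} (hρ : 0 < ρ)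
    (hs : ∀ z ∈ sphere z0 ρ, ∃ V ∈ 𝓝 z, ∃ C : ℝ, ∀ᶠ m in l, ∀ w ∈ V, ‖F m w‖ ≤ C)
    (hd : ∀ z ∈ closedBall z0 ρ, ∃ V ∈ 𝓝 z, ∀ᶠ m in l, DifferentiableOn ℂ (F m) V) :
    ∃ C : ℝ, ∀ᶠ m in l, ∀ z ∈ closedBall z0 ρ, ‖F m z‖ ≤ C := by
  have h1 : ∃ C : ℝ, ∀ᶠ m in l, ∀ z ∈ sphere z0 ρ, ‖F m z‖ ≤ C := by
    refine (isCompact_sphere z0 ρ).induction_on
      (p := fun S => ∃ C : ℝ, ∀ᶠ m in l, ∀ z ∈ S, ‖F m z‖ ≤ C) ?_ ?_ ?_ ?_
    · exact ⟨0, Eventually.of_forall fun m z hz => absurd hz (notMem_empty z)⟩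
    · rintro S S' hSS ⟨C, h⟩
      exact ⟨C, h.mono fun m hm z hz => hm z (hSS hz)⟩
    · rintro S S' ⟨C, h⟩ ⟨C', h'⟩
      refine ⟨max C C', ?_⟩
      filter_upwards [h, h'] with m hm hm' z hz
      rcases hz with hz | hz
      · exact (hm z hz).trans (le_max_left _ _)
      · exact (hm' z hz).trans (le_max_right _ _)
    · intro z hz
      obtain ⟨V, hV, C, h⟩ := hs z hz
      exact ⟨V, mem_nhdsWithin_of_mem_nhds hV, C, h⟩
  have h2 : ∀ᶠ m in l, ∀ z ∈ closedBall z0 ρ, DifferentiableAt ℂ (F m) z := by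
    refine (isCompact_closedBall z0 ρ).induction_on
      (p := fun S => ∀ᶠ m in l, ∀ z ∈ S, DifferentiableAt ℂ (F m) z) ?_ ?_ ?_ ?_
    · exact Eventually.of_forall fun m z hz => absurd hz (notMem_empty z)
    · intro S S' hSS h
      exact h.mono fun m hm z hz => hm z (hSS hz)
    · intro S S' h h'
      filter_upwards [h, h'] with m hm hm' z hz
      rcases hz with hz | hz
      · exact hm z hz
      · exact hm' z hz
    · intro z hz
      obtain ⟨V, hV, h⟩ := hd z hz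
      obtain ⟨W, hWV, hW, hzW⟩ := _root_.mem_nhds_iff.1 hV
      refine ⟨W, mem_nhdsWithin_of_mem_nhds (hW.mem_nhds hzW), ?_⟩
      filter_upwards [h] with m hm w hw
      exact (hm w (hWV hw)).differentiableAt (mem_of_superset (hW.mem_nhds hw) hWV)
  obtain ⟨C, hC⟩ := h1
  refine ⟨C, ?_⟩
  filter_upwards [hC, h2] with m k1 k2 z hz
  refine Complex.norm_le_of_forall_mem_frontier_norm_le (U := ball z0 ρ) isBounded_ball ?_ ?_ ?_
  · have h3 : DifferentiableOn ℂ (F m) (closedBall z0 ρ) := fun w hw =>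
      (k2 w hw).differentiableWithinAt
    exact h3.diffContOnCl_ball (subset_refl _)
  · intro w hw
    rw [frontier_ball z0 hρ.ne'] at hw
    exact k1 w hw
  · rwa [closure_ball z0 hρ.ne']

variable {n : ℕ} {K : Type} [Field K] [Algebra ℂ K] {y : Fin (n + 1) → K}
  {R : ∀ h : K, Frac y h} {𝓤 : Ultrafilter ℕ} {φ : ℂ → Mat (n + 1)} {P Q : ℕ → ℂ → Mat (n + 1)}
  {wt : ℕ → ℂ → ℂ}

/-- weights which are bounded near a point -/
theorem zero_of_bdd (h : Dfo y 𝓤 φ P Q wt) {x : Fin 2 → K} (hx : AlgebraicIndependent ℂ x)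
    {g : MK} (hδ : ∀ k, h.del R k = g * MD (h.cv.emb R k)) {O : Set ℂ} (hO : IsOpen O)
    (hne : O.Nonempty) (hb : ∀ z ∈ O, ∀ᶠ m in (𝓤 : Filter ℕ), ‖wt m z‖ ≤ 1) : g = 0 := by
  have hx0 : Transcendental ℂ (x 0) := hx.transcendental 0
  have hne2 : MD (h.cv.emb R (x 0)) ≠ 0 := by
    intro h0
    obtain ⟨c, hc⟩ := MD_eq_zero h0
    apply hx0
    have h2 : x 0 = algebraMap ℂ K c := (h.cv.emb R).toRingHom.injective (by
      change h.cv.emb R _ = h.cv.emb R _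
      rw [hc, (h.cv.emb R).commutes])
    rw [h2]
    exact isAlgebraic_algebraMap _
  obtain ⟨z1, hz1⟩ := hne
  have h1 : ∀ᶠ z in 𝓝[≠] z1, Dl R 𝓤 P Q wt (x 0) z = 0 := by
    filter_upwards [codis_ev (h.cv.good R (x 0)) z1, nhdsWithin_le_nhds (hO.mem_nhds hz1)]
      with z k1 k2
    have k3 := h.tendsto R k1
    refine tendsto_nhds_unique k3 ?_
    have k4 : Tendsto (fun m => ev R (x 0) (Q m z) - ev R (x 0) (P m z)) 𝓤 (𝓝 0) := by
      have e0 : ContinuousAt (ev R (x 0)) (φ z) := continuousAt_qv k1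
      have e1 := e0.tendsto.comp (h.lQ.pointwise (mem_univ z))
      have e2 := e0.tendsto.comp (h.lP.pointwise (mem_univ z))
      have e3 := e1.sub e2
      rw [sub_self] at e3
      exact e3
    refine k4.zero_mul_isBoundedUnder_le ?_
    exact isBoundedUnder_of_eventually_le (a := 1) (hb z k2)
  have h2 : h.del R (x 0) = 0 := by
    unfold Dfo.del
    rw [cl_eq_zero]
    exact mero_id (h.mero R (x 0)) h1.frequently
  rw [hδ] at h2
  exact (mul_eq_zero.1 h2).resolve_right hne2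

/-- the growth of the weights -/
theorem growth {a κ : ℕ → ℂ} (h : Dfo y 𝓤 φ P Q (fun m z => κ m * Complex.exp (a m * z)))
    (hinf : ∀ C : ℝ, ∀ᶠ m in (𝓤 : Filter ℕ), C ≤ ‖a m‖) {x : Fin 2 → K}
    (hx : AlgebraicIndependent ℂ x) {g : MK} (hg : g ≠ 0)
    (hδ : ∀ k, h.del R k = g * MD (h.cv.emb R k)) (z : ℂ) :
    ∀ᶠ p : ℕ × ℂ in (𝓤 : Filter ℕ) ×ˢ 𝓝 z,
      Real.exp (‖a p.1‖ / 2) ≤ ‖κ p.1 * Complex.exp (a p.1 * p.2)‖ := by
  rcases 𝓤.em (fun m => Real.exp ‖a m‖ ≤ ‖κ m * Complex.exp (a m * z)‖) with h1 | h1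
  · rw [eventually_prod_iff]
    refine ⟨_, h1, fun w => w ∈ ball z (1 / 2), ball_mem_nhds z (by norm_num), ?_⟩
    intro m hm w hw
    change Real.exp (‖a m‖ / 2) ≤ ‖κ m * Complex.exp (a m * w)‖
    have e1 : κ m * Complex.exp (a m * w) = κ m * Complex.exp (a m * z) *
        Complex.exp (a m * (w - z)) := by
      rw [mul_assoc, ← Complex.exp_add]
      congr 2
      ring
    rw [e1, norm_mul]
    have e2 : Real.exp (-(‖a m‖ / 2)) ≤ ‖Complex.exp (a m * (w - z))‖ := by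
      rw [Complex.norm_exp]
      apply Real.exp_le_exp.2
      have e3 := neg_le_of_abs_le ((Complex.abs_re_le_norm (a m * (w - z))))
      rw [norm_mul] at e3
      have e4 : ‖w - z‖ ≤ 1 / 2 := by
        rw [mem_ball, dist_eq_norm] at hw
        exact hw.le
      nlinarith [norm_nonneg (a m)]
    calc Real.exp (‖a m‖ / 2) = Real.exp ‖a m‖ * Real.exp (-(‖a m‖ / 2)) := by
          rw [← Real.exp_add]
          congr 1
          ring
      _ ≤ _ := mul_le_mul hm e2 (Real.exp_pos _).le (norm_nonneg _)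
  · exfalso
    apply hg
    obtain ⟨u0, hu0⟩ := exists_lim (𝓤 := 𝓤) (h := fun m => (starRingEnd ℂ) (a m) / ‖a m‖) (C := 1)
      (Eventually.of_forall fun m => by
        rw [norm_div, RCLike.norm_conj, Complex.norm_real, norm_norm]
        exact div_self_le_one _)
    refine zero_of_bdd h hx hδ (O := ball (z - 2 * u0) (1 / 2)) isOpen_ball
      ⟨z - 2 * u0, mem_ball_self (by norm_num)⟩ fun w hw => ?_
    have h2 : ∀ᶠ m in (𝓤 : Filter ℕ), ‖u0 - (starRingEnd ℂ) (a m) / ‖a m‖‖ ≤ 1 / 10 := by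
      have h3 := (hu0.const_sub u0).norm
      rw [sub_self, norm_zero] at h3
      filter_upwards [h3.eventually_lt_const (show (0 : ℝ) < 1 / 10 by norm_num)] with m hm
      exact hm.le
    filter_upwards [h1, h2, hinf 1] with m k1 k2 k3
    push Not at k1
    have e1 : κ m * Complex.exp (a m * w) = κ m * Complex.exp (a m * z) *
        Complex.exp (a m * (w - z)) := by
      rw [mul_assoc, ← Complex.exp_add]
      congr 2
      ring
    rw [e1, norm_mul]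
    have ha0 : (‖a m‖ : ℂ) ≠ 0 := by
      have : ‖a m‖ ≠ 0 := by linarith
      exact_mod_cast this
    have e2 : ‖Complex.exp (a m * (w - z))‖ ≤ Real.exp (-‖a m‖) := by
      rw [Complex.norm_exp]
      apply Real.exp_le_exp.2
      have e5 : a m * (w - z) = a m * (w - (z - 2 * u0)) -
          2 * (a m * (u0 - (starRingEnd ℂ) (a m) / ‖a m‖)) - 2 * (‖a m‖ : ℂ) := by
        have e6 : a m * ((starRingEnd ℂ) (a m) / ‖a m‖) = (‖a m‖ : ℂ) := by
          rw [mul_div_assoc', Complex.mul_conj, div_eq_iff ha0, Complex.normSq_eq_norm_sq]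
          push_cast
          ring
        linear_combination (-2) * e6
      rw [e5]
      have e7 := (le_abs_self _).trans (Complex.abs_re_le_norm (a m * (w - (z - 2 * u0))))
      have e8 := neg_le_of_abs_le
        (Complex.abs_re_le_norm (a m * (u0 - (starRingEnd ℂ) (a m) / ‖a m‖)))
      rw [norm_mul] at e7 e8
      have e9 : ‖w - (z - 2 * u0)‖ ≤ 1 / 2 := by
        rw [mem_ball, dist_eq_norm] at hw
        exact hw.le
      have e10 : (a m * (w - (z - 2 * u0)) - 2 * (a m * (u0 - (starRingEnd ℂ) (a m) / ‖a m‖)) -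
          2 * (‖a m‖ : ℂ)).re = (a m * (w - (z - 2 * u0))).re -
          2 * (a m * (u0 - (starRingEnd ℂ) (a m) / ‖a m‖)).re - 2 * ‖a m‖ := by
        simp [Complex.sub_re, Complex.mul_re]
      rw [e10]
      nlinarith [norm_nonneg (a m)]
    calc ‖κ m * Complex.exp (a m * z)‖ * ‖Complex.exp (a m * (w - z))‖ ≤
        Real.exp ‖a m‖ * Real.exp (-‖a m‖) :=
          mul_le_mul k1.le e2 (norm_nonneg _) (Real.exp_pos _).le
      _ = 1 := by rw [← Real.exp_add, add_neg_cancel, Real.exp_zero]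

/-- the limits of the weights -/
theorem wt_lims {a κ : ℕ → ℂ} {z : ℂ} (hinf : ∀ C : ℝ, ∀ᶠ m in (𝓤 : Filter ℕ), C ≤ ‖a m‖)
    (hgr : ∀ᶠ p : ℕ × ℂ in (𝓤 : Filter ℕ) ×ˢ 𝓝 z,
      Real.exp (‖a p.1‖ / 2) ≤ ‖κ p.1 * Complex.exp (a p.1 * p.2)‖) :
    Tendsto (fun p : ℕ × ℂ => (a p.1)⁻¹) ((𝓤 : Filter ℕ) ×ˢ 𝓝 z) (𝓝 0) ∧
    (∀ᶠ p : ℕ × ℂ in (𝓤 : Filter ℕ) ×ˢ 𝓝 z, a p.1 ≠ 0) ∧
    (∀ᶠ p : ℕ × ℂ in (𝓤 : Filter ℕ) ×ˢ 𝓝 z, κ p.1 * Complex.exp (a p.1 * p.2) ≠ 0) ∧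
    Tendsto (fun p : ℕ × ℂ => a p.1 * (κ p.1 * Complex.exp (a p.1 * p.2))⁻¹)
      ((𝓤 : Filter ℕ) ×ˢ 𝓝 z) (𝓝 0) ∧
    Tendsto (fun p : ℕ × ℂ => a p.1 ^ 2 * (κ p.1 * Complex.exp (a p.1 * p.2))⁻¹)
      ((𝓤 : Filter ℕ) ×ˢ 𝓝 z) (𝓝 0) := by
  have hat : Tendsto (fun m => ‖a m‖) (𝓤 : Filter ℕ) atTop := tendsto_atTop.2 hinf
  have hat2 : Tendsto (fun p : ℕ × ℂ => ‖a p.1‖) ((𝓤 : Filter ℕ) ×ˢ 𝓝 z) atTop :=
    hat.comp tendsto_fst
  have h1 : ∀ᶠ p : ℕ × ℂ in (𝓤 : Filter ℕ) ×ˢ 𝓝 z, a p.1 ≠ 0 := by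
    filter_upwards [hat2.eventually_ge_atTop 1] with p hp h0
    rw [h0, norm_zero] at hp
    linarith
  have hk : ∀ k : ℕ, Tendsto (fun p : ℕ × ℂ => a p.1 ^ k * (κ p.1 * Complex.exp (a p.1 * p.2))⁻¹)
      ((𝓤 : Filter ℕ) ×ˢ 𝓝 z) (𝓝 0) := by
    intro k
    have h3 := (Real.tendsto_pow_mul_exp_neg_atTop_nhds_zero k).comp
      (hat2.atTop_div_const (show (0 : ℝ) < 2 by norm_num))
    have h4 := h3.const_mul (2 ^ k)
    rw [mul_zero] at h4
    refine squeeze_zero_norm' ?_ h4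
    filter_upwards [hgr] with p hp
    simp only [Function.comp_apply]
    rw [norm_mul, norm_inv, norm_pow]
    have h5 : ‖κ p.1 * Complex.exp (a p.1 * p.2)‖⁻¹ ≤ Real.exp (-(‖a p.1‖ / 2)) := by
      rw [Real.exp_neg]
      exact inv_anti₀ (Real.exp_pos _) hp
    calc ‖a p.1‖ ^ k * ‖κ p.1 * Complex.exp (a p.1 * p.2)‖⁻¹ ≤
        ‖a p.1‖ ^ k * Real.exp (-(‖a p.1‖ / 2)) :=
          mul_le_mul_of_nonneg_left h5 (by positivity)
      _ = 2 ^ k * ((‖a p.1‖ / 2) ^ k * Real.exp (-(‖a p.1‖ / 2))) := by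
          rw [div_pow]
          field_simp
  refine ⟨?_, h1, ?_, ?_, hk 2⟩
  · rw [tendsto_zero_iff_norm_tendsto_zero]
    simp only [norm_inv]
    exact hat2.inv_tendsto_atTop
  · filter_upwards [hgr] with p hp h0
    rw [h0, norm_zero] at hp
    exact absurd hp (not_le.2 (Real.exp_pos _))
  · have := hk 1
    simpa only [pow_one] using this

end Pool.Agent.L7h90.WR
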