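import Pool.Agent.L7h90.WR.Twr
import Pool.Agent.L7h90.GL.Orb

/-! Nets with multiple lines give Wronskian differentials. -/

set_option autoImplicit false

open FF Pool.Agent.W602.GT Pool.Agent.W603.LV

namespace Pool.Agent.L7h90.WR

open Pool.Agent.L7h90.GL (ord_der_ge)

variable {K : Type} [Field K] [Algebra ℂ K]

/-- the function `a 0 + a 1 * u + a 2 * v` -/
noncomputable def lin (u v : K) (a : Fin 3 → ℂ) : K :=
  algebraMap ℂ K (a 0) + algebraMap ℂ K (a 1) * u + algebraMap ℂ K (a 2) * v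

/-- The surfaces with function field `K` have a net, given by the rational functions `u` and `v`,
and finitely many lines `L i 0 + L i 1 * u + L i 2 * v = 0` of the net, in general position (no
three of them have a common point), such that all the components of the curves `L i = 0`, on all
models, have multiplicity at least `r i`, with `∑ (1 - 2 / r i) ≥ 3`. -/
def MultipleNet (K : Type) [Field K] [Algebra ℂ K] : Prop :=
  ∃ (u v : K) (q : ℕ) (L : Fin q → Fin 3 → ℂ) (r : Fin q → ℕ),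
    AlgebraicIndependent ℂ ![u, v] ∧ (∀ i, 2 ≤ r i) ∧
    (∀ i j k, i ≠ j → i ≠ k → j ≠ k → (Matrix.of ![L i, L j, L k]).det ≠ 0) ∧
    (∀ p : Place ℂ K, Divisorial 2 p → ∀ i,
      p.ord (lin u v (L i)) = min 0 (min (p.ord u) (p.ord v)) ∨
      min 0 (min (p.ord u) (p.ord v)) + r i ≤ p.ord (lin u v (L i))) ∧
    3 ≤ ∑ i, (1 - 2 / (r i : ℚ))

/-! ### determinants of functions -/

/-- the Wronskian of three functions -/
noncomputable def W3 (D : Derivation ℂ K K) (a b c : K) : K :=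
  a * (D b * D (D c) - D (D b) * D c) - b * (D a * D (D c) - D (D a) * D c) +
    c * (D a * D (D b) - D (D a) * D b)

/-- the Jacobian of three functions -/
noncomputable def V3 (D : Fin 2 → Derivation ℂ K K) (a b c : K) : K :=
  a * (D 0 b * D 1 c - D 1 b * D 0 c) - b * (D 0 a * D 1 c - D 1 a * D 0 c) +
    c * (D 0 a * D 1 b - D 1 a * D 0 b)

theorem W3_one (D : Derivation ℂ K K) (u v : K) :
    W3 D 1 u v = D u * D (D v) - D (D u) * D v := by
  unfold W3
  rw [D.map_one_eq_zero, map_zero]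
  ring

theorem V3_one (D : Fin 2 → Derivation ℂ K K) (u v : K) : V3 D 1 u v = cJ D u v := by
  unfold V3 cJ
  rw [(D 0).map_one_eq_zero, (D 1).map_one_eq_zero]
  ring

theorem W3_smul (D : Derivation ℂ K K) (t a b c : K) :
    W3 D (t * a) (t * b) (t * c) = t ^ 3 * W3 D a b c := by
  unfold W3
  simp only [D.leibniz, map_add, smul_eq_mul]
  ring

theorem V3_smul (D : Fin 2 → Derivation ℂ K K) (t a b c : K) :
    V3 D (t * a) (t * b) (t * c) = t ^ 3 * V3 D a b c := by
  unfold V3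
  simp only [(D 0).leibniz, (D 1).leibniz, smul_eq_mul]
  ring

theorem der_lin (D : Derivation ℂ K K) (u v : K) (a : Fin 3 → ℂ) :
    D (lin u v a) = algebraMap ℂ K (a 1) * D u + algebraMap ℂ K (a 2) * D v := by
  unfold lin
  simp only [D.leibniz, map_add, D.map_algebraMap, smul_eq_mul]
  ring

theorem der2_lin (D : Derivation ℂ K K) (u v : K) (a : Fin 3 → ℂ) :
    D (D (lin u v a)) = algebraMap ℂ K (a 1) * D (D u) + algebraMap ℂ K (a 2) * D (D v) := by
  rw [der_lin]
  simp only [D.leibniz, map_add, D.map_algebraMap, smul_eq_mul]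
  ring

theorem W3_lin (D : Derivation ℂ K K) (u v : K) (a b c : Fin 3 → ℂ) :
    W3 D (lin u v a) (lin u v b) (lin u v c) =
      algebraMap ℂ K (Matrix.of ![a, b, c]).det * W3 D 1 u v := by
  rw [W3_one, Matrix.det_fin_three]
  unfold W3
  rw [der2_lin, der2_lin, der2_lin, der_lin, der_lin, der_lin]
  unfold lin
  simp only [map_add, map_sub, map_mul, Matrix.of_apply, Matrix.cons_val', Matrix.cons_val_zero,
    Matrix.cons_val_one, Matrix.cons_val, Matrix.cons_val_fin_one]
  ring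

theorem V3_lin (D : Fin 2 → Derivation ℂ K K) (u v : K) (a b c : Fin 3 → ℂ) :
    V3 D (lin u v a) (lin u v b) (lin u v c) =
      algebraMap ℂ K (Matrix.of ![a, b, c]).det * V3 D 1 u v := by
  rw [V3_one, Matrix.det_fin_three]
  unfold V3 cJ
  simp only [der_lin]
  unfold lin
  simp only [map_add, map_sub, map_mul, Matrix.of_apply, Matrix.cons_val', Matrix.cons_val_zero,
    Matrix.cons_val_one, Matrix.cons_val, Matrix.cons_val_fin_one]
  ring

/-- three lines in general position -/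
theorem lin_comb (u v : K) (a b c : Fin 3 → ℂ) : ∀ x ∈ ({1, u, v} : Set K), ∃ s t w : ℂ,
    algebraMap ℂ K (Matrix.of ![a, b, c]).det * x = algebraMap ℂ K s * lin u v a +
      algebraMap ℂ K t * lin u v b + algebraMap ℂ K w * lin u v c := by
  intro x hx
  rw [Matrix.det_fin_three]
  simp only [Matrix.of_apply, Matrix.cons_val', Matrix.cons_val_zero,
    Matrix.cons_val_one, Matrix.cons_val, Matrix.cons_val_fin_one]
  rcases hx with rfl | rfl | rfl
  · refine ⟨b 1 * c 2 - b 2 * c 1, -(a 1 * c 2 - a 2 * c 1), a 1 * b 2 - a 2 * b 1, ?_⟩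
    unfold lin
    simp only [map_add, map_sub, map_mul, map_neg]
    ring
  · refine ⟨-(b 0 * c 2 - b 2 * c 0), a 0 * c 2 - a 2 * c 0, -(a 0 * b 2 - a 2 * b 0), ?_⟩
    unfold lin
    simp only [map_add, map_sub, map_mul, map_neg]
    ring
  · refine ⟨b 0 * c 1 - b 1 * c 0, -(a 0 * c 1 - a 1 * c 0), a 0 * b 1 - a 1 * b 0, ?_⟩
    unfold lin
    simp only [map_add, map_sub, map_mul, map_neg]
    ring

/-! ### derivations and orders -/

/-- a regular function of order at least `m` -/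
theorem ge_der {p : Place ℂ K} {D : Derivation ℂ K K} (hD : DerReg p D) {m : ℤ} {x : K}
    (h0 : 0 ≤ m) (hx : Ge p m x) : Ge p (max 0 (m - 1)) (D x) := by
  by_cases hDx : D x = 0
  · exact Or.inl hDx
  by_cases hx0 : x = 0
  · rw [hx0, map_zero] at hDx
    exact absurd rfl hDx
  right
  have h1 := ord_der_ge p hD hx0 hDx
  have h2 := hx.resolve_left hx0
  have h3 : p.Reg (D x) := hD x (Or.inr (h0.trans h2))
  have h4 := (p.reg_iff hDx).1 h3
  omega

theorem ge_W3 {p : Place ℂ K} {D : Derivation ℂ K K} (hD : DerReg p D) {m : Fin 3 → ℤ}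
    {x : Fin 3 → K} (h0 : ∀ i, 0 ≤ m i) (hx : ∀ i, Ge p (m i) (x i)) :
    Ge p (max 0 (m 0 - 2) + max 0 (m 1 - 2) + max 0 (m 2 - 2)) (W3 D (x 0) (x 1) (x 2)) := by
  have g0 : ∀ i, Ge p (max 0 (m i - 2)) (x i) := fun i => (hx i).mono (by have := h0 i; omega)
  have g1' : ∀ i, Ge p (max 0 (m i - 1)) (D (x i)) := fun i => ge_der hD (h0 i) (hx i)
  have g1 : ∀ i, Ge p (max 0 (m i - 2)) (D (x i)) := fun i => (g1' i).mono (by omega)
  have g2 : ∀ i, Ge p (max 0 (m i - 2)) (D (D (x i))) := fun i =>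
    (ge_der hD (le_max_left _ _) (g1' i)).mono (by omega)
  unfold W3
  refine (Ge.sub ?_ ?_).add ?_
  · refine ((g0 0).mul (((g1 1).mul (g2 2)).sub ((g2 1).mul (g1 2)))).mono (by omega)
  · refine ((g0 1).mul (((g1 0).mul (g2 2)).sub ((g2 0).mul (g1 2)))).mono (by omega)
  · refine ((g0 2).mul (((g1 0).mul (g2 1)).sub ((g2 0).mul (g1 1)))).mono (by omega)

theorem ge_V3 {p : Place ℂ K} {D : Fin 2 → Derivation ℂ K K} (hD : ∀ l, DerReg p (D l))
    {m : Fin 3 → ℤ} {x : Fin 3 → K} (h0 : ∀ i, 0 ≤ m i) (hx : ∀ i, Ge p (m i) (x i)) :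
    Ge p (max 0 (m 0 - 1) + max 0 (m 1 - 1) + max 0 (m 2 - 1)) (V3 D (x 0) (x 1) (x 2)) := by
  have g0 : ∀ i, Ge p (max 0 (m i - 1)) (x i) := fun i => (hx i).mono (by have := h0 i; omega)
  have g1 : ∀ l i, Ge p (max 0 (m i - 1)) (D l (x i)) := fun l i => ge_der (hD l) (h0 i) (hx i)
  unfold V3
  refine (Ge.sub ?_ ?_).add ?_
  · refine ((g0 0).mul (((g1 0 1).mul (g1 1 2)).sub ((g1 1 1).mul (g1 0 2)))).mono (by omega)
  · refine ((g0 1).mul (((g1 0 0).mul (g1 1 2)).sub ((g1 1 0).mul (g1 0 2)))).mono (by omega)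
  · refine ((g0 2).mul (((g1 0 0).mul (g1 1 1)).sub ((g1 1 0).mul (g1 0 1)))).mono (by omega)

/-! ### the local analysis -/

section loc

variable {u v : K} {q : ℕ} {L : Fin q → Fin 3 → ℂ} {r : Fin q → ℕ}

theorem indep_ne (hi : AlgebraicIndependent ℂ ![u, v]) : u ≠ 0 ∧ v ≠ 0 := by
  have h0 := hi.transcendental 0
  have h1 := hi.transcendental 1
  simp only [Matrix.cons_val_zero, Matrix.cons_val_one] at h0 h1
  constructor
  · rintro rfl
    exact h0 isAlgebraic_zero
  · rintro rfl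
    exact h1 isAlgebraic_zero

theorem ge_x (p : Place ℂ K) : ∀ x ∈ ({1, u, v} : Set K),
    Ge p (min 0 (min (p.ord u) (p.ord v))) x := by
  intro x hx
  rcases hx with rfl | rfl | rfl
  · exact Ge.one.mono (min_le_left _ _)
  · exact Or.inr ((min_le_right _ _).trans (min_le_left _ _))
  · exact Or.inr ((min_le_right _ _).trans (min_le_right _ _))

theorem exists_x (hi : AlgebraicIndependent ℂ ![u, v]) (p : Place ℂ K) :
    ∃ x ∈ ({1, u, v} : Set K), x ≠ 0 ∧ p.ord x = min 0 (min (p.ord u) (p.ord v)) := by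
  obtain ⟨hu, hv⟩ := indep_ne hi
  rcases le_total 0 (min (p.ord u) (p.ord v)) with h1 | h1
  · exact ⟨1, by simp, one_ne_zero, by rw [p.ord_one, min_eq_left h1]⟩
  · rw [min_eq_right h1]
    rcases le_total (p.ord u) (p.ord v) with h2 | h2
    · exact ⟨u, by simp, hu, by rw [min_eq_left h2]⟩
    · exact ⟨v, by simp, hv, by rw [min_eq_right h2]⟩

/-- no three lines meet -/
theorem not_three (hi : AlgebraicIndependent ℂ ![u, v]) (p : Place ℂ K) {a b c : Fin 3 → ℂ}
    (hd : (Matrix.of ![a, b, c]).det ≠ 0)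
    (ha : Ge p (min 0 (min (p.ord u) (p.ord v)) + 1) (lin u v a))
    (hb : Ge p (min 0 (min (p.ord u) (p.ord v)) + 1) (lin u v b))
    (hc : Ge p (min 0 (min (p.ord u) (p.ord v)) + 1) (lin u v c)) : False := by
  obtain ⟨x, hx, hx0, hxo⟩ := exists_x hi p
  obtain ⟨s, t, w, h⟩ := lin_comb u v a b c x hx
  have h1 : ∀ (s : ℂ) (y : K), Ge p (min 0 (min (p.ord u) (p.ord v)) + 1) y →
      Ge p (min 0 (min (p.ord u) (p.ord v)) + 1) (algebraMap ℂ K s * y) := by
    intro s y hy
    have := (Ge.const (P := p) s).mul hy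
    rwa [zero_add] at this
  have h2 : Ge p (min 0 (min (p.ord u) (p.ord v)) + 1)
      (algebraMap ℂ K (Matrix.of ![a, b, c]).det * x) := by
    rw [h]
    exact ((h1 s _ ha).add (h1 t _ hb)).add (h1 w _ hc)
  have hd' : algebraMap ℂ K (Matrix.of ![a, b, c]).det ≠ 0 := by
    rwa [Ne, map_eq_zero]
  rcases h2 with h3 | h3
  · exact (mul_ne_zero hd' hx0) h3
  · rw [p.ord_mul hd' hx0, p.ord_const hd, hxo] at h3
    omega

/-- three lines which contain all the lines through the center -/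
theorem exists_three (hi : AlgebraicIndependent ℂ ![u, v]) (p : Place ℂ K) (hq : 3 ≤ q)
    (hgen : ∀ i j k, i ≠ j → i ≠ k → j ≠ k → (Matrix.of ![L i, L j, L k]).det ≠ 0) :
    ∃ i j k : Fin q, i ≠ j ∧ i ≠ k ∧ j ≠ k ∧ ∀ l, l ≠ i → l ≠ j → l ≠ k →
      ¬ min 0 (min (p.ord u) (p.ord v)) < p.ord (lin u v (L l)) := by
  classical
  set S : Finset (Fin q) := Finset.univ.filter fun l =>
    min 0 (min (p.ord u) (p.ord v)) < p.ord (lin u v (L l)) with hS
  have hSc : S.card ≤ 2 := by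
    by_contra hcon
    push Not at hcon
    obtain ⟨i, j, k, hiS, hjS, hkS, hij, hik, hjk⟩ := Finset.two_lt_card_iff.1 hcon
    have h1 : ∀ l ∈ S, Ge p (min 0 (min (p.ord u) (p.ord v)) + 1) (lin u v (L l)) := by
      intro l hl
      exact Or.inr ((Finset.mem_filter.1 hl).2)
    exact not_three hi p (hgen i j k hij hik hjk) (h1 i hiS) (h1 j hjS) (h1 k hkS)
  obtain ⟨T, hST, hT⟩ := Finset.exists_superset_card_eq (s := S) (n := 3) (by omega) (by
    rw [Fintype.card_fin]
    exact hq)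
  obtain ⟨i, j, k, hij, hik, hjk, rfl⟩ := Finset.card_eq_three.1 hT
  refine ⟨i, j, k, hij, hik, hjk, fun l h1 h2 h3 h4 => ?_⟩
  have h5 := hST (Finset.mem_filter.2 ⟨Finset.mem_univ l, h4⟩)
  simp only [Finset.mem_insert, Finset.mem_singleton] at h5
  rcases h5 with h5 | h5 | h5
  · exact h1 h5
  · exact h2 h5
  · exact h3 h5

end loc

end Pool.Agent.L7h90.WR
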