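import Pool.Agent.L7h90.WR.Gam

/-! Rigidity of the curves on which a Wronskian differential is a nonzero constant. -/

set_option autoImplicit false

open Filter Topology Set Metric MvPolynomial FF

namespace Pool.Agent.L7h90.WR

open Pool.Agent.N155 Pool.Agent.Y190.OP Pool.Agent.W602.GT Pool.Agent.TH143.GT

variable {n : ℕ} {K : Type} [Field K] [Algebra ℂ K] {y : Fin (n + 1) → K}
  {R : ∀ h : K, Frac y h} {𝒞 : (ℂ → Mat (n + 1)) → Prop} {c0 : ℝ} {σ : WDif K} {c : ℂ}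

/-- **Functions without poles on a curve in the class are constant.** -/
theorem const_of_bdd (hcls : Cls (TX y) c0 𝒞) (hcv : ∀ φ, 𝒞 φ → Cv y φ) {φ : ℂ → Mat (n + 1)}
    (hφ : 𝒞 φ) {f : K} (hb : ∀ z0, ∃ C : ℝ, ∀ᶠ z in 𝓝[≠] z0, ‖ev R f (φ z)‖ ≤ C) :
    ∃ c : ℂ, (hcv φ hφ).emb R f = algebraMap ℂ MK c := by
  have hm := (hcv φ hφ).mero R f
  set F : ℂ → ℂ := toMeromorphicNFOn (fun z => ev R f (φ z)) univ with hF
  have hFa : ∀ z, AnalyticAt ℂ F z := by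
    intro z
    obtain ⟨C, hC⟩ := hb z
    exact (nf_bounded hm hC).1
  have hFe : ∀ᶠ z in codiscrete ℂ, ev R f (φ z) = F z := nf_codis hm
  have hFg : ∀ z, good R f (φ z) → ev R f (φ z) = F z := fun z hz =>
    eq_of_codis hFe ((hcv φ hφ).an R hz).continuousAt (hFa z).continuousAt
  have hbd : ∃ C : ℝ, ∀ z, ‖F z‖ ≤ C := by
    by_contra hcon
    push Not at hcon
    choose z hz using fun m : ℕ => hcon m
    set 𝓤 : Ultrafilter ℕ := hyperfilter ℕ with h𝓤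
    have hψ : ∀ m : ℕ, 𝒞 (fun w => φ (z m + w)) := fun m => hcls.shift φ hφ _
    obtain ⟨χ, hχ, hlim⟩ := hcls.lim 𝓤 _ hψ
    have hcont : Continuous χ := hcls.cont hχ
    have h1 : ∀ᶠ w in 𝓝 (0 : ℂ), w ∈ ({0} : Set ℂ)ᶜ → good R f (χ w) :=
      eventually_nhdsWithin_iff.1 (codis_ev ((hcv χ hχ).good R f) 0)
    obtain ⟨ε, hε, hsub⟩ := Metric.mem_nhds_iff.1 h1
    have hρ : 0 < ε / 2 := by positivity
    obtain ⟨C, hC⟩ := seq_max (l := (𝓤 : Filter ℕ)) (F := fun m w => F (z m + w)) (z0 := 0) hρ (by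
      intro w hw
      have hgw : good R f (χ w) := hsub (closedBall_subset_ball (by linarith)
        (sphere_subset_closedBall hw)) (ne_of_mem_sphere hw hρ.ne')
      have e0 : ContinuousAt (ev R f) (χ w) := continuousAt_qv hgw
      have h2 : Tendsto (fun p : ℕ × ℂ => ev R f (φ (z p.1 + p.2))) ((𝓤 : Filter ℕ) ×ˢ 𝓝 w)
          (𝓝 (ev R f (χ w))) := e0.tendsto.comp (hlim w (mem_univ w))
      have h3 := h2.norm.eventually_lt_const (lt_add_one _)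
      have h4 : ∀ᶠ p : ℕ × ℂ in (𝓤 : Filter ℕ) ×ˢ 𝓝 w, good R f (φ (z p.1 + p.2)) :=
        (hlim w (mem_univ w)).eventually ((isOpen_good R f).mem_nhds hgw)
      have h5 := h3.and h4
      rw [eventually_prod_iff] at h5
      obtain ⟨pa, hpa, pb, hpb, hab⟩ := h5
      refine ⟨{w | pb w}, hpb, ‖ev R f (χ w)‖ + 1, ?_⟩
      filter_upwards [hpa] with m hm w' hw'
      obtain ⟨k1, k2⟩ := hab hm hw'
      change ‖F (z m + w')‖ ≤ _
      rw [← hFg _ k2]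
      exact k1.le) (by
      intro w _
      refine ⟨univ, univ_mem, Eventually.of_forall fun m w' _ => ?_⟩
      have h2 : DifferentiableAt ℂ (fun w => F (z m + w)) w' :=
        DifferentiableAt.comp w' (g := F) (f := fun w => z m + w)
          (hFa (z m + w')).differentiableAt (by fun_prop)
      exact h2.differentiableWithinAt)
    have h6 := hC.and (hyp_ge (C + 1))
    obtain ⟨m, hm1, hm2⟩ := h6.exists
    have h7 := hm1 0 (mem_closedBall_self hρ.le)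
    simp only [add_zero] at h7
    have h8 := hz m
    linarith
  obtain ⟨C, hC⟩ := hbd
  obtain ⟨c, hc⟩ := mk_const hm (C := C) (by
    filter_upwards [hFe] with z hz
    rw [hz]
    exact hC z)
  exact ⟨c, by rw [Cv.emb_apply, hc]⟩

/-- the quotient of a regular pluricanonical form by the Jacobian form is bounded on the curve -/
theorem quo_bdd {𝓤 : Ultrafilter ℕ} {φ : ℂ → Mat (n + 1)} {P Q : ℕ → ℂ → Mat (n + 1)}
    {a κ : ℕ → ℂ} (h : Dfo y 𝓤 φ P Q (fun m z => κ m * Complex.exp (a m * z)))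
    (hinf : ∀ C : ℝ, ∀ᶠ m in (𝓤 : Filter ℕ), C ≤ ‖a m‖)
    (hgr : ∀ z, ∀ᶠ p : ℕ × ℂ in (𝓤 : Filter ℕ) ×ˢ 𝓝 z,
      Real.exp (‖a p.1‖ / 2) ≤ ‖κ p.1 * Complex.exp (a p.1 * p.2)‖)
    (cvP : ∀ m, Cv y (P m)) (cvQ : ∀ m, Cv y (Q m)) (hc : c ≠ 0)
    (hN : 0 < σ.N) (hP : ∀ m, WEq R σ c (P m)) (hQ : ∀ m, WEq R σ c (Q m))
    (hφ : WEq R σ c φ) (hlb : ∀ M ∈ TX y, LBa R M) (hh : σ.h ≠ 0)
    (halg : AlgebraicIndependent ℂ ![σ.u, σ.v]) {γ : ℂ} (hγ0 : γ ≠ 0)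
    (hδ : ∀ k, h.del R k = algebraMap ℂ MK γ * MD (h.cv.emb R k))
    {N : ℕ} {ω : (Fin 2 → Derivation ℂ K K) → K} (hω : IsPluri N ω)
    (hreg : ∀ v : Place ℂ K, Divisorial 2 v → RegAt v ω) {x : Fin 2 → K}
    {E0 : Fin 2 → Derivation ℂ K K} (hx : Dual x E0) (z0 : ℂ) :
    ∃ C : ℝ, ∀ᶠ z in 𝓝[≠] z0,
      ‖ev R (ω E0 ^ σ.N / (σ.h * cJ E0 σ.u σ.v ^ σ.N) ^ N) (φ z)‖ ≤ C := by
  obtain ⟨i, j, k, E, hi, hnz, hE, hq⟩ := hlb (φ z0) (h.cv.mem z0)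
  have hJ : cJ E σ.u σ.v ≠ 0 := cJ_ne hE halg
  have hJ0 : cJ E0 σ.u σ.v ≠ 0 := cJ_ne hx halg
  -- the quotient does not depend on the coordinates
  have hquo : ω E0 ^ σ.N / (σ.h * cJ E0 σ.u σ.v ^ σ.N) ^ N =
      ω E ^ σ.N / (σ.h * cJ E σ.u σ.v ^ σ.N) ^ N := by
    have p1 : IsPluri (σ.N * N) (fun E : Fin 2 → Derivation ℂ K K => ω E ^ σ.N) := by
      intro A D
      have h1 := hω A D
      change ω _ ^ σ.N = _ * ω D ^ σ.N
      rw [h1, mul_pow, ← pow_mul, mul_comm N]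
    have p0 : IsPluri (σ.N * N) (fun E : Fin 2 → Derivation ℂ K K =>
        (σ.h * cJ E σ.u σ.v ^ σ.N) ^ N) := by
      intro A D
      have := cJ_pluri σ.h σ.u σ.v σ.N A D
      simp only at this ⊢
      rw [this, mul_pow, ← pow_mul]
    exact pluri_ratio p0 p1 hE (pow_ne_zero _ (mul_ne_zero hh (pow_ne_zero _ hJ0)))
  rw [hquo]
  obtain ⟨O, hO, C1, hC1⟩ := hq (ω E) fun v hv _ hr => hreg v hv E hr
  have hγc : ∀ k, h.del R k = cl (fun _ => γ) (Meromorphic.const γ) * MD (h.cv.emb R k) := by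
    intro k
    rw [cl_const]
    exact hδ k
  obtain ⟨C2, hC2⟩ := lam_bdd R h hinf hgr cvP cvQ hc hN hP hQ hφ hi hE hJ hγc hnz
  have hC3 : 0 < |C2| + 1 := by positivity
  set ε : ℝ := (3 * ‖γ‖) ^ σ.N * ‖c‖ / (|C2| + 1) ^ σ.N with hε
  have hε0 : 0 < ε := by
    have h1 : 0 < ‖γ‖ := norm_pos_iff.2 hγ0
    have h2 : 0 < ‖c‖ := norm_pos_iff.2 hc
    positivity
  refine ⟨|C1| ^ σ.N / ε ^ N, ?_⟩
  have hden := (emb_mul_pow R h.cv σ.h (cJ E σ.u σ.v) σ.N)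
  have hquot : ∀ᶠ z in codiscrete ℂ, ev R (ω E ^ σ.N / (σ.h * cJ E σ.u σ.v ^ σ.N) ^ N) (φ z) =
      ev R (ω E) (φ z) ^ σ.N / (ev R (σ.h * cJ E σ.u σ.v ^ σ.N) (φ z)) ^ N := by
    have h1 : h.cv.emb R (ω E ^ σ.N / (σ.h * cJ E σ.u σ.v ^ σ.N) ^ N) =
        h.cv.emb R (ω E) ^ σ.N / h.cv.emb R (σ.h * cJ E σ.u σ.v ^ σ.N) ^ N := by
      rw [map_div₀, map_pow, map_pow]
    rw [Cv.emb_apply, Cv.emb_apply, Cv.emb_apply, cl_pow', cl_pow', cl_div] at h1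
    exact cl_eq.1 h1
  have hOc : ∀ᶠ z in 𝓝[≠] z0, φ z ∈ O := nhdsWithin_le_nhds (h.cont.continuousAt hO)
  filter_upwards [hOc, hC2, codis_ev (h.cv.good R (ω E)) z0, codis_ev hden z0, codis_ev hquot z0,
    codis_ev (ev_ne_codis R h.cv hJ) z0, codis_ev (cgood_codis R h.cv E σ hi) z0]
    with z k1 k2 k3 k4 k5 k6 k7
  rw [k5, norm_div, norm_pow, norm_pow]
  have b1 : ‖ev R (ω E) (φ z)‖ ≤ |C1| := (hC1 _ ⟨k1, h.cv.mem z⟩ k3).trans (le_abs_self _)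
  have b2 : ε ≤ ‖ev R (σ.h * cJ E σ.u σ.v ^ σ.N) (φ z)‖ := by
    rw [k4, hε, div_le_iff₀ (by positivity)]
    have e1 := xe_eq R h.cv hi hE hφ k7
    have e2 : (3 * γ * XE R E σ i j k φ z / ev R (cJ E σ.u σ.v) (φ z)) ^ σ.N *
        (ev R σ.h (φ z) * ev R (cJ E σ.u σ.v) (φ z) ^ σ.N) = (3 * γ) ^ σ.N * c := by
      rw [← e1, div_pow, mul_pow (3 * γ)]
      field_simp
    have e3 : (3 * ‖γ‖) ^ σ.N * ‖c‖ = ‖3 * γ * XE R E σ i j k φ z /
        ev R (cJ E σ.u σ.v) (φ z)‖ ^ σ.N *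
        ‖ev R σ.h (φ z) * ev R (cJ E σ.u σ.v) (φ z) ^ σ.N‖ := by
      rw [← norm_pow, ← norm_mul, e2, norm_mul, norm_pow, norm_mul]
      norm_num
    rw [e3, mul_comm]
    apply mul_le_mul_of_nonneg_left _ (norm_nonneg _)
    exact pow_le_pow_left₀ (norm_nonneg _) (k2.trans (by linarith [le_abs_self C2])) _
  exact div_le_div₀ (by positivity) (pow_le_pow_left₀ (norm_nonneg _) b1 _) (by positivity)
    (pow_le_pow_left₀ hε0.le b2 _)

theorem WCls.rigB (h : WCls R 𝒞 c0 σ c) : RigB' 𝒞 := by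
  intro 𝓤 φ P Q a κ d hinf hbd
  obtain ⟨g, hg⟩ := h.exists_mul d
  obtain ⟨B, hB⟩ := hbd
  obtain ⟨x, E, hx⟩ := h.basis
  obtain ⟨γ, rfl⟩ := gam_const R (wdfo h d) hB h.cls.pos (h.cls.low φ d.cφ) hg
  have hγ0 : γ = 0 := by
    by_contra hγ
    have hgne : algebraMap ℂ MK γ ≠ 0 := by
      intro h0
      exact hγ ((map_eq_zero_iff (algebraMap ℂ MK) (algebraMap ℂ MK).injective).1 h0)
    have hgr := growth (wdfo h d) hinf hx.1.1 hgne hg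
    obtain ⟨N, ω0, ω1, D, hN, hω0, hω1, hr0, hr1, hD, htr⟩ := h.forms
    have hcP : ∀ m, Cv y (P m) := fun m => h.cv _ (d.cP m)
    have hcQ : ∀ m, Cv y (Q m) := fun m => h.cv _ (d.cQ m)
    have hsP : ∀ m, WEq R σ c (P m) := fun m => h.seq _ (d.cP m)
    have hsQ : ∀ m, WEq R σ c (Q m) := fun m => h.seq _ (d.cQ m)
    obtain ⟨k0, hk0⟩ := const_of_bdd h.cls h.cv d.cφ (R := R)
      (f := ω0 E ^ σ.N / (σ.h * cJ E σ.u σ.v ^ σ.N) ^ N) fun z0 =>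
      quo_bdd (wdfo h d) hinf hgr hcP hcQ h.cne h.npos hsP hsQ (h.seq _ d.cφ) h.lb h.hne h.alg hγ
        hg hω0 hr0 hx z0
    obtain ⟨k1, hk1⟩ := const_of_bdd h.cls h.cv d.cφ (R := R)
      (f := ω1 E ^ σ.N / (σ.h * cJ E σ.u σ.v ^ σ.N) ^ N) fun z0 =>
      quo_bdd (wdfo h d) hinf hgr hcP hcQ h.cne h.npos hsP hsQ (h.seq _ d.cφ) h.lb h.hne h.alg hγ
        hg hω1 hr1 hx z0
    have hinj : ∀ {f : K} {k : ℂ}, (h.cv φ d.cφ).emb R f = algebraMap ℂ MK k →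
        f = algebraMap ℂ K k := fun {f k} hf => ((h.cv φ d.cφ).emb R).toRingHom.injective (by
      change (h.cv φ d.cφ).emb R _ = (h.cv φ d.cφ).emb R _
      rw [hf, ((h.cv φ d.cφ).emb R).commutes])
    have e0 := hinj hk0
    have e1 := hinj hk1
    have hE0 : ω0 E ≠ 0 := pluri_ne hω0 hx hD
    have hJ : (σ.h * cJ E σ.u σ.v ^ σ.N) ^ N ≠ 0 :=
      pow_ne_zero _ (mul_ne_zero h.hne (pow_ne_zero _ (cJ_ne hx h.alg)))
    have hratio : ω1 D / ω0 D = ω1 E / ω0 E := pluri_ratio hω0 hω1 hx hD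
    apply htr
    rw [hratio]
    have h2 : (ω1 E / ω0 E) ^ σ.N = algebraMap ℂ K (k1 / k0) := by
      rw [map_div₀, ← e0, ← e1, div_div_div_cancel_right₀ hJ, div_pow]
    have h3 : IsAlgebraic ℂ ((ω1 E / ω0 E) ^ σ.N) := by
      rw [h2]
      exact isAlgebraic_algebraMap _
    exact h3.of_pow h.npos
  subst hγ0
  have hm : Meromorphic (fun _ : ℂ => (0 : ℂ)) := Meromorphic.const 0
  have h2 : algebraMap ℂ MK 0 = cl (fun _ => 0) hm := (cl_const 0).symm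
  rw [h2] at hg
  have h3 := Dfo.nd R (wdfo h d) (γ := fun _ => 0) (by fun_prop) hm hg
    (z := fun _ => 0) (z0 := 0) (s := fun _ => 0) tendsto_const_nhds tendsto_const_nhds
    (by simp)
  refine h3.congr fun m => ?_
  simp

/-- **There are no curves on which the Wronskian differential is a nonzero constant.** -/
theorem WCls.empty (h : WCls R 𝒞 c0 σ c) {φ : ℂ → Mat (n + 1)} (hφ : 𝒞 φ) : False := by
  obtain ⟨x, E, hx⟩ := h.basis
  exact no_class' R h.cls h.rigA h.rigB h.cv hx.1.1 hφ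

end Pool.Agent.L7h90.WR
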