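import Pool.Agent.L7h90.WR.Rig
import Pool.Agent.L7h90.GL.Web

/-! Entire curves of bounded derivative and regular Wronskian differentials. -/

set_option autoImplicit false

open Filter Topology Set Metric MvPolynomial FF LinearAlgebra.Projectivization

namespace Pool.Agent.L7h90.WR

open Pool.Agent.Y190.OP Pool.Agent.W602.GT
open Pool.Agent.N155 (Cv TX TX_PM isCompact_TX nc_of_fderiv ev good nz Frac MK MD MD_cl MD_mul MD_add
  MD_const MD_eq_zero cl cl_eq cl_eq_zero cl_mul)
open Pool.Agent.N154.GG (SmoothVariety HolMap holP_of holMap_of projDist toProj toProj_Phi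
  Phi_rep_mk Phi_rep_toProj proj_ext)
open Pool.Agent.N154.TB
open Pool.Agent.L7h90.GL
open scoped LinearAlgebra.Projectivization

variable {n : ℕ} {ι : Type} {F : ι → MvPolynomial (Fin (n + 1)) ℂ} {K : Type} [Field K]
  [Algebra ℂ K] {y : Fin (n + 1) → K}

/-- the Wronskian does not vanish on Zariski dense curves -/
theorem cw_ne {R : ∀ h : K, Frac y h} {φ : ℂ → Mat (n + 1)} (h : Cv y φ) {u v : K}
    (hi : AlgebraicIndependent ℂ ![u, v]) :
    ¬ ∀ᶠ z in codiscrete ℂ, cw (fun w => ev R u (φ w)) (fun w => ev R v (φ w)) z = 0 := by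
  intro h0
  set e := h.emb R with he
  have hinj : Function.Injective e := e.toRingHom.injective
  have hu : MD (e u) ≠ 0 := by
    intro h1
    obtain ⟨c, hc⟩ := MD_eq_zero h1
    have h2 : u = algebraMap ℂ K c := hinj (by rw [hc, e.commutes])
    have h3 : Transcendental ℂ u := by
      have := hi.transcendental 0
      simpa using this
    apply h3
    rw [h2]
    exact isAlgebraic_algebraMap _
  have h1 : MD (e u) * MD (MD (e v)) - MD (MD (e u)) * MD (e v) = 0 := by
    have hsub : ∀ {f g : ℂ → ℂ} (hf : Meromorphic f) (hg : Meromorphic g),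
        cl f hf - cl g hg = cl (f - g) (hf.sub hg) := fun hf hg => rfl
    rw [he, Cv.emb_apply, Cv.emb_apply, MD_cl, MD_cl, MD_cl, MD_cl, cl_mul, cl_mul, hsub,
      cl_eq_zero]
    filter_upwards [h0] with z hz
    exact hz
  set q := MD (e v) / MD (e u) with hq
  have h2 : MD (e v) = q * MD (e u) := by
    rw [hq, div_mul_cancel₀ _ hu]
  have h3 : MD q = 0 := by
    have h4 : MD (MD (e v)) = q * MD (MD (e u)) + MD (e u) * MD q := by
      rw [h2, MD_mul]
    have h5 : MD (e u) * (MD (e u) * MD q) = 0 := by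
      rw [h4, h2] at h1
      linear_combination h1
    exact (mul_eq_zero.1 ((mul_eq_zero.1 h5).resolve_left hu)).resolve_left hu
  obtain ⟨k, hk⟩ := MD_eq_zero h3
  have h4 : MD (e (v - algebraMap ℂ K k * u)) = 0 := by
    have h5 : e v = e (v - algebraMap ℂ K k * u) + algebraMap ℂ MK k * e u := by
      rw [map_sub, map_mul, e.commutes]
      ring
    have h6 := congrArg MD h5
    rw [MD_add, MD_mul, MD_const, mul_zero, add_zero, h2, hk] at h6
    linear_combination -h6
  obtain ⟨l, hl⟩ := MD_eq_zero h4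
  have h5 : v - algebraMap ℂ K k * u = algebraMap ℂ K l := hinj (by rw [hl, e.commutes])
  have h6 := hi
  rw [algebraicIndependent_iff] at h6
  have h7 := h6 (X 1 - C k * X 0 - C l) (by
    simp only [map_sub, map_mul, aeval_X, aeval_C, Matrix.cons_val_zero, Matrix.cons_val_one]
    rw [h5, sub_self])
  have h8 := congrArg (MvPolynomial.coeff (Finsupp.single (1 : Fin 2) 1)) h7
  rw [coeff_sub, coeff_sub, coeff_C_mul, coeff_C, coeff_zero] at h8
  rw [coeff_X, coeff_X, if_pos rfl, if_neg, if_neg] at h8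
  · simp at h8
  · intro h9
    have := DFunLike.congr_fun h9 1
    simp at this
  · intro h9
    have := DFunLike.congr_fun h9 1
    simp at this

/-- **Regular Wronskian differentials exclude Brody curves.** -/
theorem wr_all (hX : SmoothVariety F 2 y) (hgt : GeneralType ℂ K 2) {S : Set (Mat (n + 1))}
    (hSc : IsClosed S) (hST : S ⊆ TX y)
    (hnd : ∀ ψ : ℂ → Mat (n + 1), HolP univ ψ → (∀ z, ψ z ∈ S) → (∃ z, ψ z ≠ ψ 0) → Cv y ψ)
    {φ : ℂ → Mat (n + 1)} (hφ : HolP univ φ) (hS : ∀ z, φ z ∈ S) {B : ℝ}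
    (hB : ∀ z, ‖fderiv ℝ φ z‖ ≤ B) (hnc : ∃ z, φ z ≠ φ 0) (R : ∀ h : K, Frac y h) {σ : WDif K}
    (hN : 0 < σ.N) (hh : σ.h ≠ 0) (halg : AlgebraicIndependent ℂ ![σ.u, σ.v])
    (hreg : σ.Regular 2) : False := by
  have hLB : ∀ M ∈ TX y, LBa R M := fun M hM => lba_of_graph hX.sub hX.form hX.irred
    (fun x hx => graph_two (hX.smooth x hx)) R hM
  obtain ⟨-, N, hN', ω, hω, hregω, D, hD0, hDi⟩ := hgt
  have hB0 : 0 ≤ B := (norm_nonneg _).trans (hB 0)
  set ρ : ℝ := 2 / (B + 1) with hρ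
  have hρ0 : 0 < ρ := by positivity
  have hρC : (ρ : ℂ) ≠ 0 := by exact_mod_cast hρ0.ne'
  have haff : ∀ z : ℂ, aff 0 ρ (z / ρ) = z := by
    intro z
    unfold aff
    field_simp
    simp
  have haff0 : aff 0 ρ 0 = 0 := by
    unfold aff
    simp
  set ψ : ℂ → Mat (n + 1) := fun z => φ (aff 0 ρ z) with hψ
  have hψh : HolP univ ψ := by
    have := hφ.aff 0 ρ
    rwa [preimage_univ] at this
  have hψS : ∀ z, ψ z ∈ S := fun z => hS _
  have hψB : ∀ z, ‖fderiv ℝ ψ z‖ ≤ 2 := by
    intro z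
    rw [hψ, norm_fderiv_aff hρ0.le (hφ.differentiableAt (mem_univ _))]
    have h1 := hB (aff 0 ρ z)
    rw [hρ, div_mul_eq_mul_div, div_le_iff₀ (by positivity)]
    linarith
  have hψn : ∃ z, ψ z ≠ ψ 0 := by
    obtain ⟨z, hz⟩ := hnc
    refine ⟨z / ρ, ?_⟩
    change φ (aff 0 ρ (z / ρ)) ≠ φ (aff 0 ρ 0)
    rwa [haff, haff0]
  have hcv : Cv y ψ := hnd ψ hψh hψS hψn
  obtain ⟨C, hC, hex⟩ := wexists_const R hLB hh hN hreg
  obtain ⟨c, hseq, hlow⟩ := hex ψ hcv hψB
  by_cases hc : c = 0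
  · -- the Wronskian vanishes
    apply cw_ne (R := R) hcv halg
    filter_upwards [wgood_codis R hcv σ, ev_ne_codis R hcv hh] with z k1 k2
    have k3 := hseq z k1
    unfold wvl at k3
    rw [hc] at k3
    exact (pow_eq_zero_iff hN.ne').1 ((mul_eq_zero.1 k3).resolve_left k2)
  · have hcpos : 0 < ‖c‖ := norm_pos_iff.2 hc
    set c0 : ℝ := ‖c‖ / (C + 1) with hc0def
    have hc0 : 0 < c0 := by positivity
    have hlow' : ∀ z, c0 ≤ ‖fderiv ℝ ψ z‖ := by
      intro z
      rw [hc0def, div_le_iff₀ (by positivity)]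
      have h3 := hlow z
      have h4 := norm_nonneg (fderiv ℝ ψ z)
      nlinarith
    obtain ⟨i, j, k, E, -, -, hdual, -⟩ := hLB (ψ 0) (hST (hψS 0))
    have hW : WCls R (KW R S σ c c0) c0 σ c :=
      { cls := KW.cls hc0 hSc
        cv := fun φ h => hnd φ h.hol h.av (h.nc hc0)
        seq := fun φ h => h.seq
        lb := hLB
        cne := hc
        hne := hh
        npos := hN
        alg := halg
        reg := hreg
        basis := ⟨_, _, hdual⟩
        forms := ⟨N, ω 0, ω 1, D, hN', hω 0, hω 1, fun v hv => hregω v hv 0,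
          fun v hv => hregω v hv 1, hD0, hDi.transcendental 0⟩ }
    exact hW.empty (φ := ψ) ⟨hψh, fun z => hST (hψS z), hψS, hψB, hlow', hseq⟩

end Pool.Agent.L7h90.WR
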